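import Pool.Agent.Helper808.SchDef

open scoped InnerProductSpace ENNReal
open Module

namespace SchattenDil

universe u

variable {H : Type u} [NormedAddCommGroup H] [InnerProductSpace ℂ H]

lemma sNum_bdd (x : H →L[ℂ] H) (n : ℕ) :
    BddBelow {r : ℝ | ∃ F : H →L[ℂ] H,
      LinearMap.rank (F : H →ₗ[ℂ] H) ≤ (n : Cardinal) ∧ r = ‖x - F‖} :=
  ⟨0, by rintro r ⟨F, -, rfl⟩; exact norm_nonneg _⟩

lemma sNum_nonempty (x : H →L[ℂ] H) (n : ℕ) :
    {r : ℝ | ∃ F : H →L[ℂ] H,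
      LinearMap.rank (F : H →ₗ[ℂ] H) ≤ (n : Cardinal) ∧ r = ‖x - F‖}.Nonempty :=
  ⟨‖x - 0‖, 0, by simp, rfl⟩

lemma sNum_nonneg (x : H →L[ℂ] H) (n : ℕ) : 0 ≤ sNum x n :=
  Real.sInf_nonneg (by rintro r ⟨F, -, rfl⟩; exact norm_nonneg _)

lemma sNum_le (x F : H →L[ℂ] H) (n : ℕ) (hF : LinearMap.rank (F : H →ₗ[ℂ] H) ≤ (n : Cardinal)) :
    sNum x n ≤ ‖x - F‖ :=
  csInf_le (sNum_bdd x n) ⟨F, hF, rfl⟩

lemma le_sNum (x : H →L[ℂ] H) (n : ℕ) (c : ℝ)
    (h : ∀ F : H →L[ℂ] H, LinearMap.rank (F : H →ₗ[ℂ] H) ≤ (n : Cardinal) → c ≤ ‖x - F‖) :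
    c ≤ sNum x n :=
  le_csInf (sNum_nonempty x n) (by rintro r ⟨F, hF, rfl⟩; exact h F hF)

lemma sNum_le_norm (x : H →L[ℂ] H) (n : ℕ) : sNum x n ≤ ‖x‖ := by
  simpa using sNum_le x 0 n (by simp)

lemma sNum_zero_idx (x : H →L[ℂ] H) : sNum x 0 = ‖x‖ := by
  apply le_antisymm (sNum_le_norm x 0)
  apply le_sNum
  intro F hF
  have h0 : LinearMap.rank (F : H →ₗ[ℂ] H) = 0 := by
    simpa using hF
  have h1 : (F : H →ₗ[ℂ] H) = 0 := by
    have h2 : LinearMap.range (F : H →ₗ[ℂ] H) = ⊥ := Submodule.rank_eq_zero.1 h0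
    exact LinearMap.range_eq_bot.1 h2
  have h2 : F = 0 := by
    ext v
    have := congrArg (fun g : H →ₗ[ℂ] H => g v) h1
    simpa using this
  simp [h2]

lemma sNum_comp_left (g x : H →L[ℂ] H) (n : ℕ) : sNum (g ∘L x) n ≤ ‖g‖ * sNum x n := by
  by_cases hg : ‖g‖ = 0
  · have : g = 0 := norm_eq_zero.1 hg
    subst this
    simpa using sNum_le_norm ((0 : H →L[ℂ] H) ∘L x) n
  · have hg' : 0 < ‖g‖ := lt_of_le_of_ne (norm_nonneg _) (Ne.symm hg)
    rw [← div_le_iff₀' hg']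
    apply le_sNum
    intro F hF
    rw [div_le_iff₀' hg']
    refine (sNum_le (g ∘L x) (g ∘L F) n ?_).trans ?_
    · exact (LinearMap.rank_comp_le_right (F : H →ₗ[ℂ] H) (g : H →ₗ[ℂ] H)).trans hF
    · have : g ∘L x - g ∘L F = g ∘L (x - F) := by
        ext v; simp
      rw [this]
      exact ContinuousLinearMap.opNorm_comp_le _ _

lemma sNum_comp_right (x g : H →L[ℂ] H) (n : ℕ) : sNum (x ∘L g) n ≤ sNum x n * ‖g‖ := by
  by_cases hg : ‖g‖ = 0
  · have : g = 0 := norm_eq_zero.1 hg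
    subst this
    simpa using sNum_le_norm (x ∘L (0 : H →L[ℂ] H)) n
  · have hg' : 0 < ‖g‖ := lt_of_le_of_ne (norm_nonneg _) (Ne.symm hg)
    rw [← div_le_iff₀ hg']
    apply le_sNum
    intro F hF
    rw [div_le_iff₀ hg']
    refine (sNum_le (x ∘L g) (F ∘L g) n ?_).trans ?_
    · exact (LinearMap.rank_comp_le_left (g : H →ₗ[ℂ] H) (F : H →ₗ[ℂ] H)).trans hF
    · have : x ∘L g - F ∘L g = (x - F) ∘L g := by
        ext v; simp
      rw [this]
      exact ContinuousLinearMap.opNorm_comp_le _ _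

lemma sNum_smul_le (c : ℂ) (x : H →L[ℂ] H) (n : ℕ) : sNum (c • x) n ≤ ‖c‖ * sNum x n := by
  by_cases hc : c = 0
  · subst hc
    simpa using sNum_le_norm ((0 : ℂ) • x) n
  · have hg' : 0 < ‖c‖ := norm_pos_iff.2 hc
    rw [← div_le_iff₀' hg']
    apply le_sNum
    intro F hF
    rw [div_le_iff₀' hg']
    refine (sNum_le (c • x) (c • F) n ?_).trans ?_
    · refine le_trans ?_ hF
      have : ((c • F : H →L[ℂ] H) : H →ₗ[ℂ] H)
          = (c • (LinearMap.id : H →ₗ[ℂ] H)) ∘ₗ (F : H →ₗ[ℂ] H) := by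
        ext v; simp
      rw [this]
      exact LinearMap.rank_comp_le_right _ _
    · rw [← smul_sub, norm_smul]

lemma sNum_smul (c : ℂ) (x : H →L[ℂ] H) (n : ℕ) : sNum (c • x) n = ‖c‖ * sNum x n := by
  apply le_antisymm (sNum_smul_le c x n)
  by_cases hc : c = 0
  · subst hc
    simp [sNum_nonneg]
  · have h := sNum_smul_le c⁻¹ (c • x) n
    rw [smul_smul, inv_mul_cancel₀ hc, one_smul, norm_inv] at h
    have hg' : 0 < ‖c‖ := norm_pos_iff.2 hc
    rw [← div_eq_inv_mul, le_div_iff₀' hg'] at h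
    exact h

lemma sNum_eq_zero_of_rank (x : H →L[ℂ] H) (n : ℕ)
    (h : LinearMap.rank (x : H →ₗ[ℂ] H) ≤ (n : Cardinal)) : sNum x n = 0 :=
  le_antisymm (by simpa using sNum_le x x n h) (sNum_nonneg x n)

/-- rank of the adjoint -/
lemma rank_adjoint_le [CompleteSpace H] (F : H →L[ℂ] H) (n : ℕ)
    (h : LinearMap.rank (F : H →ₗ[ℂ] H) ≤ (n : Cardinal)) :
    LinearMap.rank ((ContinuousLinearMap.adjoint F : H →L[ℂ] H) : H →ₗ[ℂ] H) ≤ (n : Cardinal) := by
  -- range of F is finite dimensional, F = P F with P the projection, so F† = F† P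
  have hfin : FiniteDimensional ℂ (LinearMap.range (F : H →ₗ[ℂ] H)) :=
    Module.rank_lt_aleph0_iff.1 (lt_of_le_of_lt h (Cardinal.natCast_lt_aleph0))
  set R : Submodule ℂ H := LinearMap.range (F : H →ₗ[ℂ] H) with hR
  have hFP : F = R.starProjection ∘L F := by
    ext v
    have hv : F v ∈ R := ⟨v, rfl⟩
    simp only [ContinuousLinearMap.comp_apply]
    exact (Submodule.starProjection_eq_self_iff.2 hv).symm
  have h2 : ContinuousLinearMap.adjoint F = ContinuousLinearMap.adjoint F ∘L R.starProjection := by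
    conv_lhs => rw [hFP]
    rw [ContinuousLinearMap.adjoint_comp]
    congr 1
    exact (isSelfAdjoint_starProjection R)
  rw [h2]
  refine (LinearMap.rank_comp_le_right (R.starProjection : H →ₗ[ℂ] H)
    (ContinuousLinearMap.adjoint F : H →ₗ[ℂ] H)).trans ?_
  refine le_trans ?_ h
  refine Submodule.rank_mono ?_
  rintro _ ⟨v, rfl⟩
  exact Submodule.starProjection_apply_mem R v

lemma sNum_adjoint_le [CompleteSpace H] (x : H →L[ℂ] H) (n : ℕ) :
    sNum (ContinuousLinearMap.adjoint x) n ≤ sNum x n := by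
  apply le_sNum
  intro F hF
  refine (sNum_le _ _ n (rank_adjoint_le F n hF)).trans ?_
  rw [← map_sub]
  exact le_of_eq (LinearIsometryEquiv.norm_map _ _)

lemma sNum_adjoint [CompleteSpace H] (x : H →L[ℂ] H) (n : ℕ) :
    sNum (ContinuousLinearMap.adjoint x) n = sNum x n := by
  apply le_antisymm (sNum_adjoint_le x n)
  conv_lhs => rw [← ContinuousLinearMap.adjoint_adjoint x]
  exact sNum_adjoint_le _ n

/-- `∑ s_n(x)^p` in `[0,∞]` -/
noncomputable def energy (p : ℝ) (x : H →L[ℂ] H) : ℝ≥0∞ := ∑' n : ℕ, ENNReal.ofReal (sNum x n ^ p)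

end SchattenDil
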