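import Pool.Agent.Helper808.SchA

open scoped InnerProductSpace ENNReal
open Module

namespace SchattenDil

universe u

variable {H : Type u} [NormedAddCommGroup H] [InnerProductSpace ℂ H]

lemma hilbertBasis_ext {κ : Type*} {E : Type*} [NormedAddCommGroup E] [InnerProductSpace ℂ E]
    (b : HilbertBasis κ ℂ E) (v : E) (h : ∀ k, ⟪b k, v⟫_ℂ = 0) : v = 0 := by
  have : b.repr v = 0 := by
    ext k
    rw [b.repr_apply_apply]
    simpa using h k
  exact (LinearIsometryEquiv.map_eq_zero_iff b.repr).1 this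

lemma exists_eigenbasis [CompleteSpace H] (T : H →L[ℂ] H) (hT : IsCompactOperator T)
    (hT' : (T : H →ₗ[ℂ] H).IsSymmetric) :
    ∃ (κ : Type u) (b : HilbertBasis κ ℂ H) (μ : κ → ℂ), ∀ k, T (b k) = μ k • b k := by
  classical
  have hclosed : ∀ μ : ℂ, IsClosed (End.eigenspace (T : H →ₗ[ℂ] H) μ : Set H) := by
    intro μ
    have : (End.eigenspace (T : H →ₗ[ℂ] H) μ : Set H) = {v | T v - μ • v = 0} := by
      ext v
      simp [sub_eq_zero]
    rw [this]
    exact isClosed_eq (by fun_prop) continuous_const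
  have hcomp : ∀ μ : ℂ, CompleteSpace (End.eigenspace (T : H →ₗ[ℂ] H) μ) := fun μ =>
    (hclosed μ).completeSpace_coe
  choose w b hb using fun μ : ℂ => exists_hilbertBasis ℂ (End.eigenspace (T : H →ₗ[ℂ] H) μ)
  have horth := hT'.orthogonalFamily_eigenspaces
  have hon := horth.orthonormal_sigma_orthonormal (fun μ => (b μ).orthonormal)
  set v : (Σ μ : ℂ, w μ) → H := fun a => (b a.1 a.2 : H) with hv
  have hon' : Orthonormal ℂ v := hon
  have hspan : (Submodule.span ℂ (Set.range v))ᗮ = ⊥ := by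
    rw [eq_bot_iff, ← ContinuousLinearMap.orthogonalComplement_iSup_eigenspaces_eq_bot hT hT']
    intro z hz
    rw [Submodule.mem_orthogonal'] at hz
    rw [← Submodule.iInf_orthogonal, Submodule.mem_iInf]
    intro μ
    rw [Submodule.mem_orthogonal']
    intro y hy
    have h1 : (End.eigenspace (T : H →ₗ[ℂ] H) μ).orthogonalProjectionOnto z = 0 := by
      apply hilbertBasis_ext (b μ)
      intro k
      have h2 := hz (v ⟨μ, k⟩) (Submodule.subset_span ⟨⟨μ, k⟩, rfl⟩)
      have h3 : ⟪(b μ k), (End.eigenspace (T : H →ₗ[ℂ] H) μ).orthogonalProjectionOnto z⟫_ℂ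
          = ⟪((b μ k : End.eigenspace (T : H →ₗ[ℂ] H) μ) : H), z⟫_ℂ := by
        rw [Submodule.inner_orthogonalProjectionOnto_eq_of_mem_left]
      rw [h3, ← inner_conj_symm, hv] at *
      simpa using congrArg (starRingEnd ℂ) h2
    have h4 := (Submodule.orthogonalProjectionOnto_eq_zero_iff).1 h1
    exact (Submodule.mem_orthogonal' _ _).1 h4 y hy
  refine ⟨Σ μ : ℂ, w μ, HilbertBasis.mkOfOrthogonalEqBot hon' hspan, fun a => a.1, ?_⟩
  intro k
  rw [HilbertBasis.coe_mkOfOrthogonalEqBot]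
  have := (b k.1 k.2).2
  exact End.mem_eigenspace_iff.1 this

/-- `b` is a Hilbert basis which `x` maps to mutually orthogonal vectors. -/
def IsDiag {κ : Type*} (x : H →L[ℂ] H) (b : HilbertBasis κ ℂ H) : Prop :=
  ∀ j k, j ≠ k → ⟪x (b j), x (b k)⟫_ℂ = 0

lemma exists_isDiag [CompleteSpace H] (x : H →L[ℂ] H) (hx : IsCompactOperator x) :
    ∃ (κ : Type u) (b : HilbertBasis κ ℂ H), IsDiag x b := by
  have h1 : IsCompactOperator (ContinuousLinearMap.adjoint x ∘L x) := by
    have := hx.clm_comp (ContinuousLinearMap.adjoint x)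
    exact this
  obtain ⟨κ, b, μ, h⟩ := exists_eigenbasis (ContinuousLinearMap.adjoint x ∘L x) h1 (by
    intro v w
    simp [ContinuousLinearMap.adjoint_inner_left, ContinuousLinearMap.adjoint_inner_right])
  refine ⟨κ, b, ?_⟩
  intro j k hjk
  rw [← ContinuousLinearMap.adjoint_inner_right]
  have := h k
  simp only [ContinuousLinearMap.comp_apply] at this
  rw [this, inner_smul_right, b.orthonormal.2 hjk, mul_zero]

lemma pythag {κ : Type*} (g : κ → H) (hg : ∀ j k, j ≠ k → ⟪g j, g k⟫_ℂ = 0) (c : κ → ℂ)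
    (s : Finset κ) : ‖∑ k ∈ s, c k • g k‖ ^ 2 = ∑ k ∈ s, ‖c k‖ ^ 2 * ‖g k‖ ^ 2 := by
  classical
  induction s using Finset.induction_on with
  | empty => simp
  | insert a s ha ih =>
    rw [Finset.sum_insert ha, Finset.sum_insert ha, ← ih]
    have h0 : ⟪c a • g a, ∑ k ∈ s, c k • g k⟫_ℂ = 0 := by
      rw [inner_sum]
      apply Finset.sum_eq_zero
      intro k hk
      rw [inner_smul_left, inner_smul_right, hg a k (by rintro rfl; exact ha hk)]
      simp
    have := norm_add_sq_eq_norm_sq_add_norm_sq_of_inner_eq_zero (𝕜 := ℂ) _ _ h0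
    rw [sq, this, norm_smul]
    ring

lemma IsDiag.hasSum_norm_sq {κ : Type*} {x : H →L[ℂ] H} {b : HilbertBasis κ ℂ H}
    (h : IsDiag x b) (v : H) :
    HasSum (fun k => ‖⟪b k, v⟫_ℂ‖ ^ 2 * ‖x (b k)‖ ^ 2) (‖x v‖ ^ 2) := by
  have h1 : HasSum (fun k => ⟪b k, v⟫_ℂ • b k) v := by
    simpa [b.repr_apply_apply] using b.hasSum_repr v
  have h2 : HasSum (fun k => ⟪b k, v⟫_ℂ • x (b k)) (x v) := by
    have := h1.mapL x
    simpa using this
  have h3 := ((continuous_norm.pow 2).tendsto (x v)).comp h2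
  refine h3.congr ?_
  intro s
  simp only [Function.comp, Pi.pow_apply]
  rw [pythag (fun k => x (b k)) (fun j k hjk => h j k hjk)]

lemma IsDiag.tsum_enorm_sq {κ : Type*} {x : H →L[ℂ] H} {b : HilbertBasis κ ℂ H}
    (h : IsDiag x b) (v : H) :
    ∑' k, ENNReal.ofReal (‖⟪b k, v⟫_ℂ‖ ^ 2) * ENNReal.ofReal (‖x (b k)‖ ^ 2)
      = ENNReal.ofReal (‖x v‖ ^ 2) := by
  have := h.hasSum_norm_sq v
  rw [← this.tsum_eq, ENNReal.ofReal_tsum_of_nonneg (fun k => by positivity) this.summable]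
  congr 1
  ext k
  rw [ENNReal.ofReal_mul (by positivity)]

lemma IsDiag.finite {κ : Type*} {x : H →L[ℂ] H} {b : HilbertBasis κ ℂ H}
    (h : IsDiag x b) (hx : IsCompactOperator x) {t : ℝ} (ht : 0 < t) :
    {k | t < ‖x (b k)‖}.Finite := by
  by_contra hinf
  have hinf' : {k | t < ‖x (b k)‖}.Infinite := hinf
  have htb := (hx.isCompact_closure_image_closedBall 1).totallyBounded
  obtain ⟨T, hT, hcov⟩ := Metric.totallyBounded_iff.1 htb (t / 2) (by positivity)
  have hmem : ∀ k, ∃ y ∈ T, x (b k) ∈ Metric.ball y (t / 2) := by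
    intro k
    have h1 : x (b k) ∈ closure (x '' Metric.closedBall 0 1) := by
      apply subset_closure
      exact ⟨b k, by simp [b.orthonormal.1 k], rfl⟩
    have h2 := hcov h1
    simpa using h2
  choose y hy hy' using hmem
  obtain ⟨j, hj, k, hk, hjk, hyy⟩ := hinf'.exists_ne_map_eq_of_mapsTo (f := y)
    (fun k _ => hy k) hT
  have h1 : dist (x (b j)) (x (b k)) < t := by
    have a1 := hy' j
    have a2 := hy' k
    rw [← hyy] at a2
    rw [Metric.mem_ball] at a1 a2
    calc dist (x (b j)) (x (b k)) ≤ dist (x (b j)) (y j) + dist (x (b k)) (y j) :=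
          dist_triangle_right _ _ _
      _ < t := by linarith
  have h2 : ‖x (b j) - x (b k)‖ ^ 2 = ‖x (b j)‖ ^ 2 + ‖x (b k)‖ ^ 2 := by
    have := norm_sub_sq (𝕜 := ℂ) (x (b j)) (x (b k))
    rw [h j k hjk] at this
    simpa using this
  rw [dist_eq_norm] at h1
  have hj' : t < ‖x (b j)‖ := hj
  have h3 : ‖x (b j) - x (b k)‖ ^ 2 < t ^ 2 := by
    have := norm_nonneg (x (b j) - x (b k))
    nlinarith
  have h4 : t ^ 2 < ‖x (b j)‖ ^ 2 := by nlinarith [norm_nonneg (x (b j))]
  nlinarith [sq_nonneg ‖x (b k)‖]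

end SchattenDil
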