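import Pool.Agent.Helper808.SchB

open scoped InnerProductSpace ENNReal
open Module

namespace SchattenDil

universe u

variable {H : Type u} [NormedAddCommGroup H] [InnerProductSpace ℂ H]

/-- projection onto the span of finitely many members of the basis -/
noncomputable def trunc {κ : Type*} (b : HilbertBasis κ ℂ H) (s : Finset κ) : H →L[ℂ] H :=
  ∑ k ∈ s, (innerSL ℂ (b k)).smulRight (b k)

lemma trunc_apply {κ : Type*} (b : HilbertBasis κ ℂ H) (s : Finset κ) (v : H) :
    trunc b s v = ∑ k ∈ s, ⟪b k, v⟫_ℂ • b k := by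
  simp [trunc]

lemma inner_trunc {κ : Type*} [DecidableEq κ] (b : HilbertBasis κ ℂ H) (s : Finset κ) (v : H)
    (k : κ) : ⟪b k, trunc b s v⟫_ℂ = if k ∈ s then ⟪b k, v⟫_ℂ else 0 := by
  rw [trunc_apply, inner_sum]
  simp_rw [inner_smul_right]
  have h1 := orthonormal_iff_ite.1 b.orthonormal
  simp_rw [h1]
  simp

lemma rank_trunc {κ : Type*} (b : HilbertBasis κ ℂ H) (s : Finset κ) :
    LinearMap.rank (trunc b s : H →ₗ[ℂ] H) ≤ (s.card : Cardinal) := by
  classical
  have h1 : LinearMap.range (trunc b s : H →ₗ[ℂ] H)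
      ≤ Submodule.span ℂ ((s.image b : Finset H) : Set H) := by
    rintro _ ⟨v, rfl⟩
    simp only [ContinuousLinearMap.coe_coe, trunc_apply]
    apply Submodule.sum_mem
    intro k hk
    apply Submodule.smul_mem
    apply Submodule.subset_span
    simp only [Finset.coe_image, Set.mem_image]
    exact ⟨k, hk, rfl⟩
  refine (Submodule.rank_mono h1).trans ((rank_span_finset_le _).trans ?_)
  exact_mod_cast Finset.card_image_le

lemma IsDiag.norm_sub_trunc_sq_le {κ : Type*} {x : H →L[ℂ] H} {b : HilbertBasis κ ℂ H}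
    (h : IsDiag x b) (s : Finset κ) (t : ℝ) (ht : 0 ≤ t) (hs : ∀ k, k ∉ s → ‖x (b k)‖ ≤ t) :
    ‖x - x ∘L trunc b s‖ ≤ t := by
  classical
  apply ContinuousLinearMap.opNorm_le_bound _ ht
  intro v
  have h1 : (x - x ∘L trunc b s) v = x (v - trunc b s v) := by simp
  rw [h1]
  have h2 := h.hasSum_norm_sq (v - trunc b s v)
  have h3 : HasSum (fun k => ‖⟪b k, v⟫_ℂ‖ ^ 2) (‖v‖ ^ 2) := by
    have := (IsDiag.hasSum_norm_sq (x := ContinuousLinearMap.id ℂ H) (b := b)
      (by intro j k hjk; simpa using b.orthonormal.2 hjk) v)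
    simpa [b.orthonormal.1] using this
  have h4 : ‖x (v - trunc b s v)‖ ^ 2 ≤ t ^ 2 * ‖v‖ ^ 2 := by
    refine hasSum_le ?_ h2 (h3.mul_left (t ^ 2))
    intro k
    rw [inner_sub_right, inner_trunc]
    by_cases hk : k ∈ s
    · rw [if_pos hk, sub_self]
      simp
      positivity
    · rw [if_neg hk, sub_zero, mul_comm]
      have := hs k hk
      gcongr
  have h5 : ‖x (v - trunc b s v)‖ ^ 2 ≤ (t * ‖v‖) ^ 2 := by rw [mul_pow]; exact h4
  exact le_of_sq_le_sq h5 (by positivity)

lemma IsDiag.sNum_le {κ : Type*} {x : H →L[ℂ] H} {b : HilbertBasis κ ℂ H}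
    (h : IsDiag x b) (s : Finset κ) (t : ℝ) (ht : 0 ≤ t) (hs : ∀ k, k ∉ s → ‖x (b k)‖ ≤ t)
    (n : ℕ) (hn : s.card ≤ n) : sNum x n ≤ t := by
  refine (SchattenDil.sNum_le x (x ∘L trunc b s) n ?_).trans (h.norm_sub_trunc_sq_le s t ht hs)
  refine (LinearMap.rank_comp_le_right (trunc b s : H →ₗ[ℂ] H) (x : H →ₗ[ℂ] H)).trans ?_
  exact (rank_trunc b s).trans (by exact_mod_cast hn)

lemma IsDiag.le_sNum {κ : Type*} {x : H →L[ℂ] H} {b : HilbertBasis κ ℂ H}
    (h : IsDiag x b) (s : Finset κ) (t : ℝ) (ht : 0 ≤ t) (hs : ∀ k ∈ s, t ≤ ‖x (b k)‖)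
    (n : ℕ) (hn : n < s.card) : t ≤ sNum x n := by
  classical
  apply SchattenDil.le_sNum
  intro F hF
  -- the linear map from coefficient vectors
  let L : (s → ℂ) →ₗ[ℂ] H := Fintype.linearCombination ℂ (fun k : s => b k)
  have hLapp : ∀ c : s → ℂ, L c = ∑ k : s, c k • b k := fun c => by
    simp [L, Fintype.linearCombination_apply]
  have hker : ∃ c : s → ℂ, c ≠ 0 ∧ F (L c) = 0 := by
    by_contra hcon
    push Not at hcon
    have hinj : Function.Injective ((F : H →ₗ[ℂ] H) ∘ₗ L) := by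
      rw [← LinearMap.ker_eq_bot, LinearMap.ker_eq_bot']
      intro c hc
      by_contra hc0
      exact hcon c hc0 (by simpa using hc)
    have h1 : LinearMap.rank ((F : H →ₗ[ℂ] H) ∘ₗ L) ≤ (n : Cardinal) :=
      (LinearMap.rank_comp_le_left L (F : H →ₗ[ℂ] H)).trans hF
    have hfin : FiniteDimensional ℂ (LinearMap.range ((F : H →ₗ[ℂ] H) ∘ₗ L)) :=
      Module.rank_lt_aleph0_iff.1 (lt_of_le_of_lt h1 (Cardinal.natCast_lt_aleph0))
    have h2 : finrank ℂ (LinearMap.range ((F : H →ₗ[ℂ] H) ∘ₗ L)) = s.card := by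
      rw [LinearMap.finrank_range_of_inj hinj]
      simp
    have h3 : finrank ℂ (LinearMap.range ((F : H →ₗ[ℂ] H) ∘ₗ L)) ≤ n :=
      Module.finrank_le_of_rank_le h1
    omega
  obtain ⟨c, hc0, hc⟩ := hker
  set v := L c with hv
  have hcoef : ∀ k, ⟪b k, v⟫_ℂ = if hk : k ∈ s then c ⟨k, hk⟩ else 0 := by
    intro k
    rw [hv, hLapp, inner_sum]
    simp_rw [inner_smul_right, orthonormal_iff_ite.1 b.orthonormal]
    by_cases hk : k ∈ s
    · rw [dif_pos hk, Finset.sum_eq_single ⟨k, hk⟩]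
      · simp
      · intro j _ hj
        rw [if_neg, mul_zero]
        rintro rfl
        exact hj rfl
      · intro h; exact absurd (Finset.mem_univ _) h
    · rw [dif_neg hk]
      apply Finset.sum_eq_zero
      intro j _
      rw [if_neg, mul_zero]
      rintro rfl
      exact hk j.2
  have hv0 : v ≠ 0 := by
    intro hv0
    apply hc0
    ext k
    have := hcoef k
    rw [hv0, inner_zero_right, dif_pos k.2] at this
    exact this.symm
  have h2 := h.hasSum_norm_sq v
  have h3 : HasSum (fun k => ‖⟪b k, v⟫_ℂ‖ ^ 2) (‖v‖ ^ 2) := by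
    have := (IsDiag.hasSum_norm_sq (x := ContinuousLinearMap.id ℂ H) (b := b)
      (by intro j k hjk; simpa using b.orthonormal.2 hjk) v)
    simpa [b.orthonormal.1] using this
  have h4 : t ^ 2 * ‖v‖ ^ 2 ≤ ‖x v‖ ^ 2 := by
    refine hasSum_le ?_ (h3.mul_left (t ^ 2)) h2
    intro k
    by_cases hk : k ∈ s
    · rw [mul_comm]
      have := hs k hk
      gcongr
    · rw [hcoef k, dif_neg hk]
      simp
  have h5 : (t * ‖v‖) ^ 2 ≤ ‖x v‖ ^ 2 := by rw [mul_pow]; exact h4
  have h6 : t * ‖v‖ ≤ ‖x v‖ := le_of_sq_le_sq h5 (by positivity)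
  have h7 : x v = (x - F) v := by simp [hc]
  rw [h7] at h6
  have h8 := (x - F).le_opNorm v
  have hv1 : 0 < ‖v‖ := norm_pos_iff.2 hv0
  exact le_of_mul_le_mul_right (h6.trans h8) hv1

lemma IsDiag.encard_eq {κ : Type*} {x : H →L[ℂ] H} {b : HilbertBasis κ ℂ H}
    (h : IsDiag x b) (hx : IsCompactOperator x) {t : ℝ} (ht : 0 < t) :
    {n : ℕ | t < sNum x n}.encard = {k | t < ‖x (b k)‖}.encard := by
  classical
  have hfin := h.finite hx ht
  set s := hfin.toFinset with hs
  have hmem : ∀ k, k ∈ s ↔ t < ‖x (b k)‖ := by intro k; simp [hs]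
  have h1 : {n : ℕ | t < sNum x n} = (Finset.range s.card : Set ℕ) := by
    ext n
    simp only [Finset.coe_range, Set.mem_Iio]
    rw [Set.mem_ofPred_eq]
    constructor
    · intro hn
      by_contra hcon
      push Not at hcon
      have := h.sNum_le s t ht.le (fun k hk => by rw [hmem] at hk; exact not_lt.1 hk) n hcon
      linarith
    · intro hn
      have hne : s.Nonempty := by
        rw [← Finset.card_pos]; omega
      obtain ⟨k0, hk0, hmin⟩ := s.exists_min_image (fun k => ‖x (b k)‖) hne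
      have := h.le_sNum s (‖x (b k0)‖) (norm_nonneg _) (fun k hk => hmin k hk) n hn
      exact lt_of_lt_of_le ((hmem k0).1 hk0) this
  have h2 : {k | t < ‖x (b k)‖} = (s : Set κ) := by
    rw [hs]; simp
  rw [h1, h2, Set.encard_coe_eq_coe_finsetCard, Set.encard_coe_eq_coe_finsetCard,
    Finset.card_range]

open MeasureTheory in
/-- The energy can be computed from any diagonalising basis. -/
lemma IsDiag.energy_eq {κ : Type*} {x : H →L[ℂ] H} {b : HilbertBasis κ ℂ H}
    (h : IsDiag x b) (hx : IsCompactOperator x) {p : ℝ} (hp : 0 < p) :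
    energy p x = ∑' k, ENNReal.ofReal (‖x (b k)‖ ^ p) := by
  let _ : MeasurableSpace κ := ⊤
  have e1 := lintegral_rpow_eq_lintegral_meas_lt_mul (Measure.count : Measure ℕ)
    (f := fun n => sNum x n) (Filter.Eventually.of_forall fun n => sNum_nonneg x n)
    (Measurable.aemeasurable (by fun_prop)) hp
  have e2 := lintegral_rpow_eq_lintegral_meas_lt_mul (Measure.count : Measure κ)
    (f := fun k => ‖x (b k)‖) (Filter.Eventually.of_forall fun n => norm_nonneg _)
    (Measurable.aemeasurable measurable_from_top) hp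
  rw [lintegral_count] at e1
  have e2' : ∫⁻ k, ENNReal.ofReal (‖x (b k)‖ ^ p) ∂(Measure.count : Measure κ)
      = ∑' k, ENNReal.ofReal (‖x (b k)‖ ^ p) := lintegral_count' measurable_from_top
  rw [e2'] at e2
  rw [energy, e1, e2]
  congr 1
  apply setLIntegral_congr_fun measurableSet_Ioi
  intro t ht
  have ht' : 0 < t := ht
  show Measure.count {n : ℕ | t < sNum x n} * _ = Measure.count {k | t < ‖x (b k)‖} * _
  rw [Measure.count_apply (MeasurableSet.of_discrete),
    Measure.count_apply (MeasurableSpace.measurableSet_top), h.encard_eq hx ht']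

end SchattenDil
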