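import Pool.Agent.Helper808.SchC

open scoped InnerProductSpace ENNReal
open Module

namespace SchattenDil

universe u

section Jensen

lemma tangent_real {q : ℝ} (hq : 1 < q) {a c : ℝ} (ha : 0 ≤ a) (hc : 0 ≤ c) :
    q * (c ^ (q - 1) * a) ≤ a ^ q + (q - 1) * c ^ q := by
  rcases hc.eq_or_lt with rfl | hc
  · rw [Real.zero_rpow (by linarith), Real.zero_rpow (by linarith)]
    have := Real.rpow_nonneg ha q
    simpa
  · have h1 := one_add_mul_self_le_rpow_one_add (s := a / c - 1) (by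
      have : 0 ≤ a / c := by positivity
      linarith) (p := q) hq.le
    have h2 : 1 + (a / c - 1) = a / c := by ring
    rw [h2, Real.div_rpow ha hc.le] at h1
    have hcq : 0 < c ^ q := Real.rpow_pos_of_pos hc q
    have h3 : (1 + q * (a / c - 1)) * c ^ q ≤ a ^ q := by
      rwa [le_div_iff₀ hcq] at h1
    have h4 : c ^ q = c ^ (q - 1) * c := by
      rw [Real.rpow_sub_one hc.ne']
      field_simp
    have h5 : (a / c) * c ^ q = c ^ (q - 1) * a := by
      rw [h4]; field_simp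
    nlinarith

lemma tangent_real_lt {q : ℝ} (hq : 1 < q) {a c : ℝ} (ha : 0 ≤ a) (hc : 0 ≤ c) (hac : a ≠ c) :
    q * (c ^ (q - 1) * a) < a ^ q + (q - 1) * c ^ q := by
  rcases hc.eq_or_lt with rfl | hc
  · rw [Real.zero_rpow (by linarith), Real.zero_rpow (by linarith)]
    have h0 : 0 < a := lt_of_le_of_ne ha (Ne.symm hac)
    have := Real.rpow_pos_of_pos h0 q
    simpa
  · have h1 := one_add_mul_self_lt_rpow_one_add (s := a / c - 1) (by
      have : 0 ≤ a / c := by positivity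
      linarith) (by
        intro h
        apply hac
        have : a / c = 1 := by linarith
        rwa [div_eq_one_iff_eq hc.ne'] at this) (p := q) hq
    have h2 : 1 + (a / c - 1) = a / c := by ring
    rw [h2, Real.div_rpow ha hc.le] at h1
    have hcq : 0 < c ^ q := Real.rpow_pos_of_pos hc q
    have h3 : (1 + q * (a / c - 1)) * c ^ q < a ^ q := by
      rwa [lt_div_iff₀ hcq] at h1
    have h4 : c ^ q = c ^ (q - 1) * c := by
      rw [Real.rpow_sub_one hc.ne']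
      field_simp
    have h5 : (a / c) * c ^ q = c ^ (q - 1) * a := by
      rw [h4]; field_simp
    nlinarith

lemma tangent_enn {q : ℝ} (hq : 1 < q) {a c : ℝ≥0∞} (ha : a ≠ ⊤) (hc : c ≠ ⊤) :
    ENNReal.ofReal q * (c ^ (q - 1) * a) ≤ a ^ q + ENNReal.ofReal (q - 1) * c ^ q := by
  obtain ⟨a', ha', rfl⟩ : ∃ a' : ℝ, 0 ≤ a' ∧ a = ENNReal.ofReal a' :=
    ⟨a.toReal, ENNReal.toReal_nonneg, (ENNReal.ofReal_toReal ha).symm⟩
  obtain ⟨c', hc', rfl⟩ : ∃ c' : ℝ, 0 ≤ c' ∧ c = ENNReal.ofReal c' :=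
    ⟨c.toReal, ENNReal.toReal_nonneg, (ENNReal.ofReal_toReal hc).symm⟩
  rw [ENNReal.ofReal_rpow_of_nonneg hc' (by linarith), ENNReal.ofReal_rpow_of_nonneg ha' (by linarith),
    ENNReal.ofReal_rpow_of_nonneg hc' (by linarith), ← ENNReal.ofReal_mul (by positivity),
    ← ENNReal.ofReal_mul (by linarith), ← ENNReal.ofReal_mul (by linarith),
    ← ENNReal.ofReal_add (by positivity) (mul_nonneg (by linarith) (by positivity))]
  exact ENNReal.ofReal_le_ofReal (tangent_real hq ha' hc')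

lemma tangent_enn_lt {q : ℝ} (hq : 1 < q) {a c : ℝ≥0∞} (ha : a ≠ ⊤) (hc : c ≠ ⊤) (hac : a ≠ c) :
    ENNReal.ofReal q * (c ^ (q - 1) * a) < a ^ q + ENNReal.ofReal (q - 1) * c ^ q := by
  obtain ⟨a', ha', rfl⟩ : ∃ a' : ℝ, 0 ≤ a' ∧ a = ENNReal.ofReal a' :=
    ⟨a.toReal, ENNReal.toReal_nonneg, (ENNReal.ofReal_toReal ha).symm⟩
  obtain ⟨c', hc', rfl⟩ : ∃ c' : ℝ, 0 ≤ c' ∧ c = ENNReal.ofReal c' :=
    ⟨c.toReal, ENNReal.toReal_nonneg, (ENNReal.ofReal_toReal hc).symm⟩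
  rw [ENNReal.ofReal_rpow_of_nonneg hc' (by linarith), ENNReal.ofReal_rpow_of_nonneg ha' (by linarith),
    ENNReal.ofReal_rpow_of_nonneg hc' (by linarith), ← ENNReal.ofReal_mul (by positivity),
    ← ENNReal.ofReal_mul (by linarith), ← ENNReal.ofReal_mul (by linarith),
    ← ENNReal.ofReal_add (by positivity) (mul_nonneg (by linarith) (by positivity))]
  have h1 := tangent_real_lt hq ha' hc' (fun h => hac (by rw [h]))
  apply (ENNReal.ofReal_lt_ofReal_iff_of_nonneg _).2 h1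
  have : 0 ≤ c' ^ (q - 1) := Real.rpow_nonneg hc' _
  exact mul_nonneg (by linarith) (by positivity)

variable {κ : Type*} {q : ℝ} {w t : κ → ℝ≥0∞}

lemma jensen_aux (hq : 1 < q) {c : ℝ≥0∞} (hct : c ≠ ⊤) : c ^ (q - 1) * c = c ^ q := by
  rcases eq_or_ne c 0 with rfl | hc0
  · rw [ENNReal.zero_rpow_of_pos (by linarith), ENNReal.zero_rpow_of_pos (by linarith)]
    simp
  · conv_lhs => rw [← ENNReal.rpow_one c, ← ENNReal.rpow_mul, one_mul,
      ← ENNReal.rpow_add _ _ hc0 hct]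
    congr 1
    ring

lemma ofReal_q (hq : 1 < q) : ENNReal.ofReal q = 1 + ENNReal.ofReal (q - 1) := by
  rw [← ENNReal.ofReal_one, ← ENNReal.ofReal_add (by norm_num) (by linarith)]
  congr 1; ring

/-- Jensen for sub-probability weights -/
lemma jensen (hq : 1 < q) (hw : ∑' k, w k ≤ 1) (ht : ∀ k, t k ≠ ⊤) (hc : ∑' k, w k * t k ≠ ⊤) :
    (∑' k, w k * t k) ^ q ≤ ∑' k, w k * t k ^ q := by
  set c := ∑' k, w k * t k with hcdef
  have hcq : c ^ q ≠ ⊤ := ENNReal.rpow_ne_top_of_nonneg (by linarith) hc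
  have h1 : ∑' k, w k * (ENNReal.ofReal q * (c ^ (q - 1) * t k)) = ENNReal.ofReal q * c ^ q := by
    rw [← jensen_aux hq hc, hcdef, ← ENNReal.tsum_mul_left, ← ENNReal.tsum_mul_left]
    congr 1; ext k; ring
  have h2 : ∑' k, w k * (t k ^ q + ENNReal.ofReal (q - 1) * c ^ q)
      ≤ ∑' k, w k * t k ^ q + ENNReal.ofReal (q - 1) * c ^ q := by
    simp_rw [mul_add]
    rw [ENNReal.tsum_add, ENNReal.tsum_mul_right]
    refine add_le_add le_rfl ?_
    calc (∑' k, w k) * (ENNReal.ofReal (q - 1) * c ^ q)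
        ≤ 1 * (ENNReal.ofReal (q - 1) * c ^ q) := by gcongr
      _ = _ := one_mul _
  have h3 : ∑' k, w k * (ENNReal.ofReal q * (c ^ (q - 1) * t k))
      ≤ ∑' k, w k * (t k ^ q + ENNReal.ofReal (q - 1) * c ^ q) := by
    apply ENNReal.tsum_le_tsum
    intro k
    gcongr
    exact tangent_enn hq (ht k) hc
  rw [h1, ofReal_q hq, add_mul, one_mul] at h3
  have h4 := h3.trans h2
  exact (ENNReal.add_le_add_iff_right (ENNReal.mul_ne_top ENNReal.ofReal_ne_top hcq)).1 h4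

lemma jensen_eq (hq : 1 < q) (hw : ∑' k, w k ≤ 1) (ht : ∀ k, t k ≠ ⊤) (hc : ∑' k, w k * t k ≠ ⊤)
    (he : ∑' k, w k * t k ^ q ≤ (∑' k, w k * t k) ^ q) (k : κ) (hk : w k ≠ 0) :
    t k = ∑' k, w k * t k := by
  set c := ∑' k, w k * t k with hcdef
  have hcq : c ^ q ≠ ⊤ := ENNReal.rpow_ne_top_of_nonneg (by linarith) hc
  by_contra hne
  have h1 : ∑' k, w k * (ENNReal.ofReal q * (c ^ (q - 1) * t k)) = ENNReal.ofReal q * c ^ q := by
    rw [← jensen_aux hq hc, hcdef, ← ENNReal.tsum_mul_left, ← ENNReal.tsum_mul_left]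
    congr 1; ext k; ring
  have h2 : ∑' k, w k * (t k ^ q + ENNReal.ofReal (q - 1) * c ^ q)
      ≤ ∑' k, w k * t k ^ q + ENNReal.ofReal (q - 1) * c ^ q := by
    simp_rw [mul_add]
    rw [ENNReal.tsum_add, ENNReal.tsum_mul_right]
    refine add_le_add le_rfl ?_
    calc (∑' k, w k) * (ENNReal.ofReal (q - 1) * c ^ q)
        ≤ 1 * (ENNReal.ofReal (q - 1) * c ^ q) := by gcongr
      _ = _ := one_mul _
  have hwk : w k ≠ ⊤ := by
    have := (ENNReal.le_tsum k).trans hw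
    exact ne_top_of_le_ne_top ENNReal.one_ne_top this
  have h3 : ∑' k, w k * (ENNReal.ofReal q * (c ^ (q - 1) * t k))
      < ∑' k, w k * (t k ^ q + ENNReal.ofReal (q - 1) * c ^ q) := by
    apply ENNReal.tsum_lt_tsum (i := k)
    · rw [h1]
      exact ENNReal.mul_ne_top ENNReal.ofReal_ne_top hcq
    · intro j
      gcongr
      exact tangent_enn hq (ht j) hc
    · exact (ENNReal.mul_lt_mul_iff_right hk hwk).2 (tangent_enn_lt hq (ht k) hc hne)
  rw [h1, ofReal_q hq, add_mul, one_mul] at h3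
  have h4 := h3.trans_le h2
  have h5 := h4.trans_le (add_le_add_left he _)
  exact lt_irrefl _ h5

end Jensen

end SchattenDil
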