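import Mathlib

/-!
# Schatten classes: singular numbers, membership, norm
-/

open Module

namespace SchattenDil

universe u

variable {H : Type u} [NormedAddCommGroup H] [InnerProductSpace ℂ H]

/-- The `n`-th singular number (`n = 0, 1, 2, …`) of a bounded operator `x` on the Hilbert space `H`,
written as the `n`-th approximation number: the distance, in operator norm, from `x` to the set of
operators of rank at most `n`. -/
noncomputable def sNum (x : H →L[ℂ] H) (n : ℕ) : ℝ :=
  sInf {r : ℝ | ∃ F : H →L[ℂ] H, LinearMap.rank (F : H →ₗ[ℂ] H) ≤ (n : Cardinal) ∧ r = ‖x - F‖}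

/-- `x` belongs to the Schatten–von Neumann class `S_p`: it is compact and `∑ s_n(x)^p < ∞`. -/
def MemSchatten (p : ℝ) (x : H →L[ℂ] H) : Prop :=
  IsCompactOperator x ∧ Summable fun n : ℕ => sNum x n ^ p

/-- The Schatten norm `‖x‖_p = (∑ s_n(x)^p)^{1/p}`. -/
noncomputable def schattenNorm (p : ℝ) (x : H →L[ℂ] H) : ℝ :=
  (∑' n : ℕ, sNum x n ^ p) ^ (1 / p)

end SchattenDil
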