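import Pool.Agent.Helper808.SchD

open scoped InnerProductSpace ENNReal
open Module

namespace SchattenDil

universe u

variable {H : Type u} [NormedAddCommGroup H] [InnerProductSpace ℂ H]

lemma bessel_fin {κ : Type*} (g : κ → H) (hg : ∀ j k, j ≠ k → ⟪g j, g k⟫_ℂ = 0)
    (hn : ∀ k, ‖g k‖ ≤ 1) (v : H) (s : Finset κ) :
    ∑ k ∈ s, ‖⟪g k, v⟫_ℂ‖ ^ 2 ≤ ‖v‖ ^ 2 := by
  set S := ∑ k ∈ s, ‖⟪g k, v⟫_ℂ‖ ^ 2 with hS
  set z : H := ∑ k ∈ s, ⟪g k, v⟫_ℂ • g k with hz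
  have h1 : ‖z‖ ^ 2 ≤ S := by
    rw [hz, pythag g hg]
    apply Finset.sum_le_sum
    intro k _
    have := hn k
    have h2 : ‖g k‖ ^ 2 ≤ 1 := by
      nlinarith [norm_nonneg (g k)]
    nlinarith [sq_nonneg ‖⟪g k, v⟫_ℂ‖]
  have h2 : (⟪v, z⟫_ℂ).re = S := by
    rw [hz, inner_sum, Complex.re_sum]
    apply Finset.sum_congr rfl
    intro k _
    rw [inner_smul_right, ← inner_conj_symm v (g k), Complex.mul_conj, Complex.normSq_eq_norm_sq,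
      Complex.ofReal_re]
  have h3 : ‖v - z‖ ^ 2 = ‖v‖ ^ 2 - 2 * S + ‖z‖ ^ 2 := by
    have := norm_sub_sq (𝕜 := ℂ) v z
    rw [this, ← h2]
    rfl
  nlinarith [sq_nonneg ‖v - z‖]

lemma bessel {κ : Type*} (g : κ → H) (hg : ∀ j k, j ≠ k → ⟪g j, g k⟫_ℂ = 0)
    (hn : ∀ k, ‖g k‖ ≤ 1) (v : H) :
    ∑' k, ENNReal.ofReal (‖⟪g k, v⟫_ℂ‖ ^ 2) ≤ ENNReal.ofReal (‖v‖ ^ 2) := by
  rw [ENNReal.tsum_eq_iSup_sum]
  apply iSup_le
  intro s
  rw [← ENNReal.ofReal_sum_of_nonneg (fun k _ => by positivity)]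
  exact ENNReal.ofReal_le_ofReal (bessel_fin g hg hn v s)

/-- normalised images of the basis vectors -/
noncomputable def gvec {κ : Type*} (x : H →L[ℂ] H) (b : HilbertBasis κ ℂ H) (k : κ) : H :=
  ((‖x (b k)‖⁻¹ : ℝ) : ℂ) • x (b k)

lemma gvec_orth {κ : Type*} {x : H →L[ℂ] H} {b : HilbertBasis κ ℂ H} (h : IsDiag x b)
    (j k : κ) (hjk : j ≠ k) : ⟪gvec x b j, gvec x b k⟫_ℂ = 0 := by
  rw [gvec, gvec, inner_smul_left, inner_smul_right, h j k hjk]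
  simp

lemma norm_gvec_le {κ : Type*} (x : H →L[ℂ] H) (b : HilbertBasis κ ℂ H) (k : κ) :
    ‖gvec x b k‖ ≤ 1 := by
  rw [gvec, norm_smul]
  simp only [Complex.ofReal_inv, norm_inv, Complex.norm_real, norm_norm]
  exact inv_mul_le_one

lemma apply_eq_smul_gvec {κ : Type*} (x : H →L[ℂ] H) (b : HilbertBasis κ ℂ H) (k : κ) :
    x (b k) = ((‖x (b k)‖ : ℝ) : ℂ) • gvec x b k := by
  rw [gvec, smul_smul]
  by_cases h : ‖x (b k)‖ = 0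
  · rw [norm_eq_zero.1 h]; simp
  · have : ((‖x (b k)‖ : ℝ) : ℂ) * ((‖x (b k)‖⁻¹ : ℝ) : ℂ) = 1 := by
      rw [← Complex.ofReal_mul, mul_inv_cancel₀ h, Complex.ofReal_one]
    rw [this, one_smul]

/-- weights -/
noncomputable def wt {κ : Type*} (x : H →L[ℂ] H) (b : HilbertBasis κ ℂ H) (e f : H) (k : κ) :
    ℝ≥0∞ :=
  (ENNReal.ofReal (‖⟪b k, e⟫_ℂ‖ ^ 2) + ENNReal.ofReal (‖⟪gvec x b k, f⟫_ℂ‖ ^ 2)) / 2

lemma parseval {κ : Type*} (b : HilbertBasis κ ℂ H) (v : H) :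
    ∑' k, ENNReal.ofReal (‖⟪b k, v⟫_ℂ‖ ^ 2) = ENNReal.ofReal (‖v‖ ^ 2) := by
  have h1 : IsDiag (ContinuousLinearMap.id ℂ H) b := fun j k hjk => by
    simpa using b.orthonormal.2 hjk
  have := h1.tsum_enorm_sq v
  simpa [b.orthonormal.1] using this

lemma tsum_wt_left {κ : Type*} {x : H →L[ℂ] H} {b : HilbertBasis κ ℂ H} (h : IsDiag x b)
    (e f : H) (he : ‖e‖ ≤ 1) (hf : ‖f‖ ≤ 1) : ∑' k, wt x b e f k ≤ 1 := by
  simp only [wt]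
  simp_rw [div_eq_mul_inv]
  rw [ENNReal.tsum_mul_right, ENNReal.tsum_add, parseval]
  have h1 := bessel (gvec x b) (gvec_orth h) (norm_gvec_le x b) f
  have h2 : ENNReal.ofReal (‖e‖ ^ 2) ≤ 1 := by
    rw [ENNReal.ofReal_le_one]
    nlinarith [norm_nonneg e]
  have h3 : ENNReal.ofReal (‖f‖ ^ 2) ≤ 1 := by
    rw [ENNReal.ofReal_le_one]
    nlinarith [norm_nonneg f]
  calc (ENNReal.ofReal (‖e‖ ^ 2) + ∑' k, ENNReal.ofReal (‖⟪gvec x b k, f⟫_ℂ‖ ^ 2)) * 2⁻¹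
      ≤ (1 + 1) * 2⁻¹ := by
        gcongr
        exact h1.trans h3
    _ = 1 := by
        rw [one_add_one_eq_two]
        exact ENNReal.mul_inv_cancel (by norm_num) (by norm_num)

lemma tsum_wt_right {κ ι : Type*} {x : H →L[ℂ] H} {b : HilbertBasis κ ℂ H}
    {e f : ι → H} (he : Orthonormal ℂ e) (hf : Orthonormal ℂ f) (k : κ) :
    ∑' i, wt x b (e i) (f i) k ≤ 1 := by
  simp only [wt]
  simp_rw [div_eq_mul_inv]
  rw [ENNReal.tsum_mul_right, ENNReal.tsum_add]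
  have h1 : ∑' i, ENNReal.ofReal (‖⟪b k, e i⟫_ℂ‖ ^ 2) ≤ 1 := by
    have := bessel e (fun j k hjk => he.2 hjk) (fun k => (he.1 k).le) (b k)
    simp_rw [norm_inner_symm (b k)]
    refine this.trans ?_
    simp [b.orthonormal.1 k]
  have h2 : ∑' i, ENNReal.ofReal (‖⟪gvec x b k, f i⟫_ℂ‖ ^ 2) ≤ 1 := by
    have := bessel f (fun j k hjk => hf.2 hjk) (fun k => (hf.1 k).le) (gvec x b k)
    simp_rw [norm_inner_symm (gvec x b k)]
    refine this.trans ?_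
    rw [ENNReal.ofReal_le_one]
    have := norm_gvec_le x b k
    nlinarith [norm_nonneg (gvec x b k)]
  calc _ ≤ ((1 : ℝ≥0∞) + 1) * 2⁻¹ := by gcongr
    _ = 1 := by
        rw [one_add_one_eq_two]
        exact ENNReal.mul_inv_cancel (by norm_num) (by norm_num)

lemma wt_eq {κ : Type*} (x : H →L[ℂ] H) (b : HilbertBasis κ ℂ H) (e f : H) (k : κ) :
    wt x b e f k = ENNReal.ofReal ((‖⟪b k, e⟫_ℂ‖ ^ 2 + ‖⟪gvec x b k, f⟫_ℂ‖ ^ 2) / 2) := by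
  rw [wt, ENNReal.ofReal_div_of_pos (by norm_num), ENNReal.ofReal_add (by positivity)
    (by positivity)]
  norm_num

lemma tsum_wt_mul_ne_top {κ : Type*} {x : H →L[ℂ] H} {b : HilbertBasis κ ℂ H} (h : IsDiag x b)
    (e f : H) (he : ‖e‖ ≤ 1) (hf : ‖f‖ ≤ 1) :
    ∑' k, wt x b e f k * ENNReal.ofReal ‖x (b k)‖ ≠ ⊤ := by
  have h1 : ∑' k, wt x b e f k * ENNReal.ofReal ‖x (b k)‖
      ≤ ∑' k, wt x b e f k * ENNReal.ofReal ‖x‖ := by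
    apply ENNReal.tsum_le_tsum
    intro k
    gcongr
    have := x.le_opNorm (b k)
    rwa [b.orthonormal.1 k, mul_one] at this
  rw [ENNReal.tsum_mul_right] at h1
  have h2 := tsum_wt_left h e f he hf
  have h3 : (∑' k, wt x b e f k) * ENNReal.ofReal ‖x‖ ≠ ⊤ :=
    ENNReal.mul_ne_top (ne_top_of_le_ne_top ENNReal.one_ne_top h2) ENNReal.ofReal_ne_top
  exact ne_top_of_le_ne_top h3 h1

lemma pairing_le {κ : Type*} {x : H →L[ℂ] H} {b : HilbertBasis κ ℂ H} (e f : H) :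
    ENNReal.ofReal ‖⟪f, x e⟫_ℂ‖ ≤ ∑' k, wt x b e f k * ENNReal.ofReal ‖x (b k)‖ := by
  have h1 : HasSum (fun k => ⟪b k, e⟫_ℂ • b k) e := by
    simpa [b.repr_apply_apply] using b.hasSum_repr e
  have h2 : HasSum (fun k => ⟪f, x (⟪b k, e⟫_ℂ • b k)⟫_ℂ) ⟪f, x e⟫_ℂ := by
    have := (h1.mapL x).mapL (innerSL ℂ f)
    simpa using this
  rw [← h2.tsum_eq, ofReal_norm]
  refine (enorm_tsum_le_tsum_enorm).trans ?_
  apply ENNReal.tsum_le_tsum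
  intro k
  rw [map_smul, inner_smul_right, wt_eq, ← ofReal_norm, ← ENNReal.ofReal_mul (by positivity)]
  apply ENNReal.ofReal_le_ofReal
  have h3 : ‖⟪f, x (b k)⟫_ℂ‖ = ‖x (b k)‖ * ‖⟪gvec x b k, f⟫_ℂ‖ := by
    conv_lhs => rw [apply_eq_smul_gvec x b k]
    rw [inner_smul_right, norm_mul, norm_inner_symm]
    simp
  rw [norm_mul, h3]
  have h4 : ‖⟪b k, e⟫_ℂ‖ * ‖⟪gvec x b k, f⟫_ℂ‖
      ≤ (‖⟪b k, e⟫_ℂ‖ ^ 2 + ‖⟪gvec x b k, f⟫_ℂ‖ ^ 2) / 2 := by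
    nlinarith [sq_nonneg (‖⟪b k, e⟫_ℂ‖ - ‖⟪gvec x b k, f⟫_ℂ‖)]
  nlinarith [norm_nonneg (x (b k))]

/-- V1 -/
lemma V1 {κ ι : Type*} {x : H →L[ℂ] H} {b : HilbertBasis κ ℂ H} (h : IsDiag x b)
    (hx : IsCompactOperator x) {e f : ι → H} (he : Orthonormal ℂ e) (hf : Orthonormal ℂ f)
    {p : ℝ} (hp : 1 ≤ p) :
    ∑' i, ENNReal.ofReal (‖⟪f i, x (e i)⟫_ℂ‖ ^ p) ≤ energy p x := by
  rw [h.energy_eq hx (by linarith)]
  have h1 : ∀ i, ENNReal.ofReal (‖⟪f i, x (e i)⟫_ℂ‖ ^ p)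
      ≤ ∑' k, wt x b (e i) (f i) k * ENNReal.ofReal (‖x (b k)‖ ^ p) := by
    intro i
    rcases hp.eq_or_lt with rfl | hp'
    · simpa using pairing_le (x := x) (b := b) (e i) (f i)
    · rw [← ENNReal.ofReal_rpow_of_nonneg (norm_nonneg _) (by linarith)]
      have h2 : ∀ k, ENNReal.ofReal (‖x (b k)‖ ^ p) = ENNReal.ofReal ‖x (b k)‖ ^ p := fun k => by
        rw [← ENNReal.ofReal_rpow_of_nonneg (norm_nonneg _) (by linarith)]
      simp_rw [h2]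
      refine (ENNReal.rpow_le_rpow (pairing_le (x := x) (b := b) (e i) (f i))
        (by linarith)).trans ?_
      apply jensen hp'
      · exact tsum_wt_left h _ _ (he.1 i).le (hf.1 i).le
      · intro k; exact ENNReal.ofReal_ne_top
      · exact tsum_wt_mul_ne_top h _ _ (he.1 i).le (hf.1 i).le
  calc ∑' i, ENNReal.ofReal (‖⟪f i, x (e i)⟫_ℂ‖ ^ p)
      ≤ ∑' i, ∑' k, wt x b (e i) (f i) k * ENNReal.ofReal (‖x (b k)‖ ^ p) :=
        ENNReal.tsum_le_tsum h1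
    _ = ∑' k, ∑' i, wt x b (e i) (f i) k * ENNReal.ofReal (‖x (b k)‖ ^ p) := ENNReal.tsum_comm
    _ ≤ ∑' k, ENNReal.ofReal (‖x (b k)‖ ^ p) := by
        apply ENNReal.tsum_le_tsum
        intro k
        rw [ENNReal.tsum_mul_right]
        calc _ ≤ 1 * ENNReal.ofReal (‖x (b k)‖ ^ p) := by
              gcongr
              exact tsum_wt_right he hf k
          _ = _ := one_mul _

end SchattenDil
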