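import Pool.Agent.Helper808.SchE

open scoped InnerProductSpace ENNReal
open Module

namespace SchattenDil

universe u

variable {H : Type u} [NormedAddCommGroup H] [InnerProductSpace ℂ H]

lemma eq_smul_of_norm_inner {z f : H} (hf : ‖f‖ = 1) (h : ‖z‖ ≤ ‖⟪f, z⟫_ℂ‖) :
    z = ⟪f, z⟫_ℂ • f := by
  have h1 : ‖z - ⟪f, z⟫_ℂ • f‖ ^ 2 = ‖z‖ ^ 2 - ‖⟪f, z⟫_ℂ‖ ^ 2 := by
    have h2 := norm_sub_sq (𝕜 := ℂ) z (⟪f, z⟫_ℂ • f)
    rw [h2, inner_smul_right, norm_smul, hf, mul_one, ← inner_conj_symm z f, Complex.mul_conj,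
      Complex.normSq_eq_norm_sq]
    simp only [RCLike.re_to_complex, Complex.ofReal_re]
    ring
  have h3 : ‖z - ⟪f, z⟫_ℂ • f‖ ^ 2 ≤ 0 := by
    rw [h1]
    nlinarith [norm_nonneg z]
  have h4 : ‖z - ⟪f, z⟫_ℂ • f‖ = 0 := by
    nlinarith [norm_nonneg (z - ⟪f, z⟫_ℂ • f), sq_nonneg ‖z - ⟪f, z⟫_ℂ • f‖]
  exact sub_eq_zero.1 (norm_eq_zero.1 h4)

lemma inner_eq_zero_of_bessel_eq {ι : Type*} {e : ι → H} (he : Orthonormal ℂ e) {u v : H}
    (hu : ‖u‖ = 1) (h1 : 1 ≤ ∑' i, ENNReal.ofReal (‖⟪e i, u⟫_ℂ‖ ^ 2))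
    (hv : ∀ i, ⟪e i, v⟫_ℂ = 0) : ⟪u, v⟫_ℂ = 0 := by
  by_cases hv0 : v = 0
  · simp [hv0]
  have hvn : 0 < ‖v‖ := norm_pos_iff.2 hv0
  set lam : ℂ := ⟪v, u⟫_ℂ / (‖v‖ ^ 2 : ℝ) with hlam
  have h2 := bessel e (fun j k hjk => he.2 hjk) (fun k => (he.1 k).le) (u - lam • v)
  have h3 : ∀ i, ⟪e i, u - lam • v⟫_ℂ = ⟪e i, u⟫_ℂ := by
    intro i
    rw [inner_sub_right, inner_smul_right, hv i]; simp
  simp_rw [h3] at h2
  have h4 := h1.trans h2
  have h5 : 1 ≤ ‖u - lam • v‖ ^ 2 := by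
    rwa [← ENNReal.ofReal_one, ENNReal.ofReal_le_ofReal_iff (by positivity)] at h4
  have h6 : ‖u - lam • v‖ ^ 2 = 1 - ‖⟪v, u⟫_ℂ‖ ^ 2 / ‖v‖ ^ 2 := by
    have h7 := norm_sub_sq (𝕜 := ℂ) u (lam • v)
    rw [h7, hu, inner_smul_right, norm_smul, ← inner_conj_symm u v, hlam]
    have h8 : ⟪v, u⟫_ℂ / ((‖v‖ ^ 2 : ℝ) : ℂ) * (starRingEnd ℂ) ⟪v, u⟫_ℂ
        = ((‖⟪v, u⟫_ℂ‖ ^ 2 / ‖v‖ ^ 2 : ℝ) : ℂ) := by
      rw [div_mul_eq_mul_div, Complex.mul_conj, Complex.normSq_eq_norm_sq]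
      push_cast
      rfl
    rw [h8]
    simp only [RCLike.re_to_complex, Complex.ofReal_re, norm_div, Complex.norm_real, norm_pow,
      norm_norm]
    field_simp
    ring
  rw [h6] at h5
  have h9 : ‖⟪v, u⟫_ℂ‖ ^ 2 / ‖v‖ ^ 2 ≤ 0 := by linarith
  have h10 : ‖⟪v, u⟫_ℂ‖ ^ 2 ≤ 0 := by
    rwa [div_le_iff₀ (by positivity), zero_mul] at h9
  have h11 : ‖⟪v, u⟫_ℂ‖ = 0 := by nlinarith [norm_nonneg ⟪v, u⟫_ℂ]
  rw [norm_inner_symm] at h11
  exact norm_eq_zero.1 h11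

lemma V1_eq {κ ι : Type*} {x : H →L[ℂ] H} {b : HilbertBasis κ ℂ H} (h : IsDiag x b)
    (hx : IsCompactOperator x) {e f : ι → H} (he : Orthonormal ℂ e) (hf : Orthonormal ℂ f)
    {p : ℝ} (hp : 1 < p) (hfin : energy p x ≠ ⊤)
    (heq : energy p x ≤ ∑' i, ENNReal.ofReal (‖⟪f i, x (e i)⟫_ℂ‖ ^ p)) :
    (∀ i, x (e i) = ⟪f i, x (e i)⟫_ℂ • f i) ∧ ∀ v, (∀ i, ⟪e i, v⟫_ℂ = 0) → x v = 0 := by
  have hp0 : 0 ≤ p := by linarith
  rw [h.energy_eq hx (by linarith)] at hfin heq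
  set T : κ → ℝ≥0∞ := fun k => ENNReal.ofReal (‖x (b k)‖ ^ p) with hT
  set A : ι → ℝ≥0∞ := fun i => ENNReal.ofReal (‖⟪f i, x (e i)⟫_ℂ‖ ^ p) with hA
  set W : ι → κ → ℝ≥0∞ := fun i k => wt x b (e i) (f i) k with hW
  set C : ι → ℝ≥0∞ := fun i => ∑' k, W i k * ENNReal.ofReal ‖x (b k)‖ with hC
  have hT' : ∀ k, T k = ENNReal.ofReal ‖x (b k)‖ ^ p := fun k => by
    show ENNReal.ofReal (‖x (b k)‖ ^ p) = _
    rw [← ENNReal.ofReal_rpow_of_nonneg (norm_nonneg _) hp0]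
  have hA' : ∀ i, A i = ENNReal.ofReal ‖⟪f i, x (e i)⟫_ℂ‖ ^ p := fun i => by
    show ENNReal.ofReal (‖⟪f i, x (e i)⟫_ℂ‖ ^ p) = _
    rw [← ENNReal.ofReal_rpow_of_nonneg (norm_nonneg _) hp0]
  have hCtop : ∀ i, C i ≠ ⊤ := fun i => tsum_wt_mul_ne_top h _ _ (he.1 i).le (hf.1 i).le
  have hpair : ∀ i, ENNReal.ofReal ‖⟪f i, x (e i)⟫_ℂ‖ ≤ C i := fun i =>
    pairing_le (x := x) (b := b) (e i) (f i)
  have hAC : ∀ i, A i ≤ C i ^ p := fun i => by
    rw [hA']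
    exact ENNReal.rpow_le_rpow (hpair i) hp0
  have hCB : ∀ i, C i ^ p ≤ ∑' k, W i k * T k := by
    intro i
    simp_rw [hT']
    exact jensen hp (tsum_wt_left h _ _ (he.1 i).le (hf.1 i).le)
      (fun k => ENNReal.ofReal_ne_top) (hCtop i)
  have hWr : ∀ k, ∑' i, W i k ≤ 1 := fun k => tsum_wt_right he hf k
  have hWT : ∑' i, ∑' k, W i k * T k = ∑' k, (∑' i, W i k) * T k := by
    rw [ENNReal.tsum_comm]
    congr 1; ext k
    rw [ENNReal.tsum_mul_right]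
  have hWT_le : ∀ k, (∑' i, W i k) * T k ≤ T k := fun k => by
    calc _ ≤ 1 * T k := by gcongr; exact hWr k
      _ = _ := one_mul _
  have hS1 : ∑' i, ∑' k, W i k * T k ≤ ∑' k, T k := by
    rw [hWT]; exact ENNReal.tsum_le_tsum hWT_le
  -- Step 1
  have hBA : ∀ i, ∑' k, W i k * T k ≤ A i := by
    intro i
    by_contra hcon
    push Not at hcon
    have hAfin : ∑' i, A i ≠ ⊤ := by
      apply ne_top_of_le_ne_top hfin
      exact (ENNReal.tsum_le_tsum fun i => (hAC i).trans (hCB i)).trans hS1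
    have := ENNReal.tsum_lt_tsum hAfin (fun i => (hAC i).trans (hCB i)) hcon
    exact lt_irrefl _ ((this.trans_le hS1).trans_le heq)
  -- Step 2
  have hW1 : ∀ k, T k ≠ 0 → 1 ≤ ∑' i, W i k := by
    intro k hk
    by_contra hcon
    push Not at hcon
    have hTk : T k ≠ ⊤ := ENNReal.ofReal_ne_top
    have hlt : (∑' i, W i k) * T k < T k := by
      calc (∑' i, W i k) * T k < 1 * T k := (ENNReal.mul_lt_mul_iff_left hk hTk).2 hcon
        _ = _ := one_mul _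
    have hfin2 : ∑' k, (∑' i, W i k) * T k ≠ ⊤ :=
      ne_top_of_le_ne_top hfin (ENNReal.tsum_le_tsum hWT_le)
    have := ENNReal.tsum_lt_tsum hfin2 hWT_le hlt
    rw [← hWT] at this
    have h3 := heq.trans (ENNReal.tsum_le_tsum fun i => (hAC i).trans (hCB i))
    exact lt_irrefl _ (this.trans_le h3)
  constructor
  · intro i
    have hCA : C i ^ p ≤ A i := (hCB i).trans (hBA i)
    have hCi : C i = ENNReal.ofReal ‖⟪f i, x (e i)⟫_ℂ‖ := by
      apply le_antisymm _ (hpair i)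
      rw [hA'] at hCA
      exact (ENNReal.rpow_le_rpow_iff (by linarith)).1 hCA
    have hjen : ∀ k, W i k ≠ 0 → ENNReal.ofReal ‖x (b k)‖ = C i := by
      intro k hk
      apply jensen_eq hp (tsum_wt_left h _ _ (he.1 i).le (hf.1 i).le)
        (fun k => ENNReal.ofReal_ne_top) (hCtop i) _ k hk
      simp_rw [← hT']
      exact (hBA i).trans (hAC i)
    have h5 := h.tsum_enorm_sq (e i)
    have h6 : ∀ k, ENNReal.ofReal (‖⟪b k, e i⟫_ℂ‖ ^ 2) * ENNReal.ofReal (‖x (b k)‖ ^ 2)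
        = ENNReal.ofReal (‖⟪b k, e i⟫_ℂ‖ ^ 2) * ENNReal.ofReal (‖⟪f i, x (e i)⟫_ℂ‖ ^ 2) := by
      intro k
      by_cases hz : ENNReal.ofReal (‖⟪b k, e i⟫_ℂ‖ ^ 2) = 0
      · rw [hz]; simp
      · have hk : W i k ≠ 0 := by
          rw [hW]
          simp only [wt]
          intro h0
          rw [ENNReal.div_eq_zero_iff] at h0
          rcases h0 with h0 | h0
          · exact hz (add_eq_zero.1 h0).1
          · exact absurd h0 (by norm_num)
        have := hjen k hk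
        rw [hCi] at this
        have h7 : ‖x (b k)‖ = ‖⟪f i, x (e i)⟫_ℂ‖ := by
          rwa [ENNReal.ofReal_eq_ofReal_iff (norm_nonneg _) (norm_nonneg _)] at this
        rw [h7]
    simp_rw [h6] at h5
    rw [ENNReal.tsum_mul_right, parseval, he.1 i] at h5
    have h8 : ‖x (e i)‖ ^ 2 = ‖⟪f i, x (e i)⟫_ℂ‖ ^ 2 := by
      rw [one_pow, ENNReal.ofReal_one, one_mul,
        ENNReal.ofReal_eq_ofReal_iff (by positivity) (by positivity)] at h5
      exact h5.symm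
    apply eq_smul_of_norm_inner (hf.1 i)
    exact le_of_sq_le_sq h8.le (norm_nonneg _)
  · intro v hv
    have h5 := h.tsum_enorm_sq v
    have h6 : ∀ k, ENNReal.ofReal (‖⟪b k, v⟫_ℂ‖ ^ 2) * ENNReal.ofReal (‖x (b k)‖ ^ 2) = 0 := by
      intro k
      by_cases hz : ‖x (b k)‖ = 0
      · rw [hz]; simp
      · have hTk : T k ≠ 0 := by
          rw [hT]
          simp only [ne_eq, ENNReal.ofReal_eq_zero, not_le]
          exact Real.rpow_pos_of_pos (lt_of_le_of_ne (norm_nonneg _) (Ne.symm hz)) p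
        have h7 := hW1 k hTk
        have h8 : 1 ≤ ∑' i, ENNReal.ofReal (‖⟪e i, b k⟫_ℂ‖ ^ 2) := by
          rw [hW] at h7
          simp only [wt] at h7
          simp_rw [div_eq_mul_inv] at h7
          rw [ENNReal.tsum_mul_right, ENNReal.tsum_add] at h7
          have h2 : ∑' i, ENNReal.ofReal (‖⟪gvec x b k, f i⟫_ℂ‖ ^ 2) ≤ 1 := by
            have := bessel f (fun j k hjk => hf.2 hjk) (fun k => (hf.1 k).le) (gvec x b k)
            simp_rw [norm_inner_symm (gvec x b k)]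
            refine this.trans ?_
            rw [ENNReal.ofReal_le_one]
            have := norm_gvec_le x b k
            nlinarith [norm_nonneg (gvec x b k)]
          simp_rw [norm_inner_symm (b k)] at h7
          have h9 := h7.trans (mul_le_mul_left (add_le_add_right h2 _) _)
          rw [← div_eq_mul_inv, ENNReal.le_div_iff_mul_le (by norm_num) (by norm_num), one_mul,
            ← one_add_one_eq_two] at h9
          exact (ENNReal.add_le_add_iff_right ENNReal.one_ne_top).1 h9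
        rw [inner_eq_zero_of_bessel_eq he (b.orthonormal.1 k) h8 hv]
        simp
    simp_rw [h6] at h5
    rw [tsum_zero] at h5
    have h9 := h5.symm
    rw [ENNReal.ofReal_eq_zero] at h9
    have h10 : ‖x v‖ = 0 := by nlinarith [norm_nonneg (x v)]
    exact norm_eq_zero.1 h10

end SchattenDil
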