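import Pool.Agent.Helper808.SchF

open scoped InnerProductSpace ENNReal
open Module

namespace SchattenDil

universe u

variable {H : Type u} [NormedAddCommGroup H] [InnerProductSpace ℂ H]

section supp

variable {κ : Type*} {m : H →L[ℂ] H} {b : HilbertBasis κ ℂ H}

lemma orthonormal_e (m : H →L[ℂ] H) (b : HilbertBasis κ ℂ H) :
    Orthonormal ℂ (fun k : {k // m (b k) ≠ 0} => b k) :=
  b.orthonormal.comp _ Subtype.val_injective

lemma norm_gvec {k : κ} (hk : m (b k) ≠ 0) : ‖gvec m b k‖ = 1 := by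
  rw [gvec, norm_smul]
  simp only [Complex.ofReal_inv, norm_inv, Complex.norm_real, norm_norm]
  exact inv_mul_cancel₀ (norm_ne_zero_iff.2 hk)

lemma orthonormal_f (h : IsDiag m b) :
    Orthonormal ℂ (fun k : {k // m (b k) ≠ 0} => gvec m b k) := by
  constructor
  · intro k; exact norm_gvec k.2
  · intro j k hjk
    exact gvec_orth h _ _ (fun h => hjk (Subtype.ext h))

lemma inner_gvec (k : κ) : ⟪gvec m b k, m (b k)⟫_ℂ = ((‖m (b k)‖ : ℝ) : ℂ) := by
  by_cases hk : m (b k) = 0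
  · simp [gvec, hk]
  · rw [gvec, inner_smul_left, inner_self_eq_norm_sq_to_K]
    have : ‖m (b k)‖ ≠ 0 := norm_ne_zero_iff.2 hk
    simp only [Complex.conj_ofReal]
    have h2 : ((‖m (b k)‖ : ℝ) : ℂ) ≠ 0 := by exact_mod_cast this
    push_cast
    field_simp
    simp

lemma IsDiag.energy_eq' (h : IsDiag m b) (hm : IsCompactOperator m) {p : ℝ} (hp : 0 < p) :
    energy p m = ∑' k : {k // m (b k) ≠ 0},
      ENNReal.ofReal (‖⟪gvec m b k, m (b k)⟫_ℂ‖ ^ p) := by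
  rw [h.energy_eq hm hp]
  have h1 : ∀ k : {k // m (b k) ≠ 0}, ENNReal.ofReal (‖⟪gvec m b k, m (b k)⟫_ℂ‖ ^ p)
      = ENNReal.ofReal (‖m (b k)‖ ^ p) := fun k => by
    rw [inner_gvec]; simp
  simp_rw [h1]
  symm
  apply tsum_subtype_eq_of_support_subset (s := {k | m (b k) ≠ 0})
    (f := fun k => ENNReal.ofReal (‖m (b k)‖ ^ p))
  intro k hk
  simp only [Function.mem_support] at hk
  intro h0
  apply hk
  rw [h0, norm_zero, Real.zero_rpow hp.ne', ENNReal.ofReal_zero]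

end supp

/-- Triangle inequality for the Schatten norms. -/
lemma energy_add [CompleteSpace H] {x y : H →L[ℂ] H} (hx : IsCompactOperator x)
    (hy : IsCompactOperator y) {p : ℝ} (hp : 1 ≤ p) :
    energy p (x + y) ^ (1 / p) ≤ energy p x ^ (1 / p) + energy p y ^ (1 / p) := by
  have hp0 : 0 < p := by linarith
  have hm : IsCompactOperator (x + y) := hx.add hy
  obtain ⟨κ, b, hb⟩ := exists_isDiag (x + y) hm
  obtain ⟨κ1, b1, hb1⟩ := exists_isDiag x hx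
  obtain ⟨κ2, b2, hb2⟩ := exists_isDiag y hy
  rw [hb.energy_eq' hm hp0, ENNReal.tsum_eq_iSup_sum]
  set e : {k // (x + y) (b k) ≠ 0} → H := fun k => b k
  set f : {k // (x + y) (b k) ≠ 0} → H := fun k => gvec (x + y) b k
  have he : Orthonormal ℂ e := orthonormal_e (x + y) b
  have hf : Orthonormal ℂ f := orthonormal_f hb
  have hV1x := V1 hb1 hx he hf hp
  have hV1y := V1 hb2 hy he hf hp
  have hsup : (⨆ s : Finset {k // (x + y) (b k) ≠ 0},
      ∑ k ∈ s, ENNReal.ofReal (‖⟪f k, (x + y) (e k)⟫_ℂ‖ ^ p)) ≤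
        (energy p x ^ (1 / p) + energy p y ^ (1 / p)) ^ p := by
    apply iSup_le
    intro s
    have h1 : ∑ k ∈ s, ENNReal.ofReal (‖⟪f k, (x + y) (e k)⟫_ℂ‖ ^ p)
        ≤ ∑ k ∈ s, (ENNReal.ofReal ‖⟪f k, x (e k)⟫_ℂ‖ + ENNReal.ofReal ‖⟪f k, y (e k)⟫_ℂ‖) ^ p := by
      apply Finset.sum_le_sum
      intro k _
      rw [← ENNReal.ofReal_add (norm_nonneg _) (norm_nonneg _),
        ENNReal.ofReal_rpow_of_nonneg (by positivity) hp0.le]
      apply ENNReal.ofReal_le_ofReal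
      apply Real.rpow_le_rpow (norm_nonneg _) _ hp0.le
      simp only [add_apply, inner_add_right]
      exact norm_add_le _ _
    have h2 := ENNReal.Lp_add_le s (fun k => ENNReal.ofReal ‖⟪f k, x (e k)⟫_ℂ‖)
      (fun k => ENNReal.ofReal ‖⟪f k, y (e k)⟫_ℂ‖) hp
    have h3 : ∀ z : H →L[ℂ] H, ∑ k ∈ s, ENNReal.ofReal ‖⟪f k, z (e k)⟫_ℂ‖ ^ p
        ≤ ∑' k, ENNReal.ofReal (‖⟪f k, z (e k)⟫_ℂ‖ ^ p) := by
      intro z
      refine le_trans (le_of_eq ?_) (ENNReal.sum_le_tsum s)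
      apply Finset.sum_congr rfl
      intro k _
      rw [ENNReal.ofReal_rpow_of_nonneg (norm_nonneg _) hp0.le]
    have h4 : (∑ k ∈ s, (ENNReal.ofReal ‖⟪f k, x (e k)⟫_ℂ‖
        + ENNReal.ofReal ‖⟪f k, y (e k)⟫_ℂ‖) ^ p) ^ (1 / p)
        ≤ energy p x ^ (1 / p) + energy p y ^ (1 / p) := by
      refine h2.trans ?_
      gcongr
      · exact (h3 x).trans hV1x
      · exact (h3 y).trans hV1y
    refine h1.trans ?_
    have h5 := ENNReal.rpow_le_rpow h4 hp0.le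
    rwa [← ENNReal.rpow_mul, one_div_mul_cancel hp0.ne', ENNReal.rpow_one] at h5
  have h6 := ENNReal.rpow_le_rpow hsup (show 0 ≤ 1 / p by positivity)
  rwa [← ENNReal.rpow_mul _ p (1 / p), mul_one_div_cancel hp0.ne', ENNReal.rpow_one] at h6

lemma half_pow_le {p : ℝ} (hp : 1 < p) (a c : ℂ) :
    ‖(1 / 2 : ℂ) * (a + c)‖ ^ p ≤ (‖a‖ ^ p + ‖c‖ ^ p) / 2 ∧
      (‖(1 / 2 : ℂ) * (a + c)‖ ^ p = (‖a‖ ^ p + ‖c‖ ^ p) / 2 → a = c) := by
  have h1 : ‖(1 / 2 : ℂ) * (a + c)‖ ≤ (‖a‖ + ‖c‖) / 2 := by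
    rw [norm_mul]
    have := norm_add_le a c
    have h2 : ‖(1 / 2 : ℂ)‖ = 1 / 2 := by simp
    rw [h2]; linarith
  have hp0 : 0 < p := by linarith
  have h2 : ‖(1 / 2 : ℂ) * (a + c)‖ ^ p ≤ ((‖a‖ + ‖c‖) / 2) ^ p :=
    Real.rpow_le_rpow (norm_nonneg _) h1 hp0.le
  have hsc := strictConvexOn_rpow hp
  have h3 : ((‖a‖ + ‖c‖) / 2) ^ p ≤ (‖a‖ ^ p + ‖c‖ ^ p) / 2 := by
    have := hsc.convexOn.2 (norm_nonneg a) (norm_nonneg c) (show (0:ℝ) ≤ 1 / 2 by norm_num)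
      (show (0:ℝ) ≤ 1 / 2 by norm_num) (by norm_num)
    simp only [smul_eq_mul] at this
    have e1 : (1 : ℝ) / 2 * ‖a‖ + 1 / 2 * ‖c‖ = (‖a‖ + ‖c‖) / 2 := by ring
    rw [e1] at this
    linarith
  refine ⟨h2.trans h3, fun heq => ?_⟩
  have h4 : ‖a‖ = ‖c‖ := by
    by_contra hne
    have := hsc.2 (norm_nonneg a) (norm_nonneg c) hne (show (0:ℝ) < 1 / 2 by norm_num)
      (show (0:ℝ) < 1 / 2 by norm_num) (by norm_num)
    simp only [smul_eq_mul] at this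
    have e1 : (1 : ℝ) / 2 * ‖a‖ + 1 / 2 * ‖c‖ = (‖a‖ + ‖c‖) / 2 := by ring
    rw [e1] at this
    linarith
  have h5 : ‖(1 / 2 : ℂ) * (a + c)‖ = ‖a‖ := by
    rw [← h4] at heq
    have h6 : ‖(1 / 2 : ℂ) * (a + c)‖ ^ p = ‖a‖ ^ p := by rw [heq]; ring
    exact (Real.rpow_left_inj (norm_nonneg _) (norm_nonneg _) hp0.ne').1 h6
  have h6 : ‖a + c‖ = 2 * ‖a‖ := by
    rw [norm_mul] at h5
    have h2 : ‖(1 / 2 : ℂ)‖ = 1 / 2 := by simp
    rw [h2] at h5; linarith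
  have h7 := parallelogram_law_with_norm ℂ a c
  rw [h6, ← h4] at h7
  have h8 : ‖a - c‖ * ‖a - c‖ = 0 := by nlinarith
  have h9 : ‖a - c‖ = 0 := mul_self_eq_zero.1 h8
  exact sub_eq_zero.1 (norm_eq_zero.1 h9)

lemma ext_basis {κ : Type*} (b : HilbertBasis κ ℂ H) {x y : H →L[ℂ] H}
    (h : ∀ k, x (b k) = y (b k)) : x = y := by
  ext v
  have h1 : HasSum (fun k => ⟪b k, v⟫_ℂ • b k) v := by
    simpa [b.repr_apply_apply] using b.hasSum_repr v
  have h2 : HasSum (fun k => ⟪b k, v⟫_ℂ • x (b k)) (x v) := by simpa using h1.mapL x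
  have h3 : HasSum (fun k => ⟪b k, v⟫_ℂ • x (b k)) (y v) := by
    simp_rw [h]
    simpa using h1.mapL y
  exact h2.unique h3

/-- Strict convexity of the Schatten `p`-norm, `1 < p < ∞`. -/
lemma strict_conv [CompleteSpace H] {x y : H →L[ℂ] H} (hx : IsCompactOperator x)
    (hy : IsCompactOperator y) {p : ℝ} (hp : 1 < p) {E : ℝ≥0∞} (hE : E ≠ ⊤)
    (hxE : energy p x ≤ E) (hyE : energy p y ≤ E)
    (hm : E ≤ energy p ((1 / 2 : ℂ) • (x + y))) : x = y := by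
  have hp0 : 0 < p := by linarith
  set m : H →L[ℂ] H := (1 / 2 : ℂ) • (x + y) with hmdef
  have hmc : IsCompactOperator m := (hx.add hy).smul _
  obtain ⟨κ, b, hb⟩ := exists_isDiag m hmc
  obtain ⟨κ1, b1, hb1⟩ := exists_isDiag x hx
  obtain ⟨κ2, b2, hb2⟩ := exists_isDiag y hy
  rw [hb.energy_eq' hmc hp0] at hm
  set e : {k // m (b k) ≠ 0} → H := fun k => b k with hedef
  set f : {k // m (b k) ≠ 0} → H := fun k => gvec m b k with hfdef
  have he : Orthonormal ℂ e := orthonormal_e m b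
  have hf : Orthonormal ℂ f := orthonormal_f hb
  have hV1x := V1 hb1 hx he hf hp.le
  have hV1y := V1 hb2 hy he hf hp.le
  have hterm : ∀ k, ⟪f k, m (e k)⟫_ℂ = (1 / 2 : ℂ) * (⟪f k, x (e k)⟫_ℂ + ⟪f k, y (e k)⟫_ℂ) := by
    intro k
    simp only [hmdef, smul_apply, add_apply, inner_smul_right, inner_add_right]
  set A := fun k => ENNReal.ofReal (‖⟪f k, m (e k)⟫_ℂ‖ ^ p) with hA
  set X := fun k => ENNReal.ofReal (‖⟪f k, x (e k)⟫_ℂ‖ ^ p) with hX
  set Y := fun k => ENNReal.ofReal (‖⟪f k, y (e k)⟫_ℂ‖ ^ p) with hY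
  have hXY : ∀ k, (X k + Y k) / 2
      = ENNReal.ofReal ((‖⟪f k, x (e k)⟫_ℂ‖ ^ p + ‖⟪f k, y (e k)⟫_ℂ‖ ^ p) / 2) := by
    intro k
    rw [ENNReal.ofReal_div_of_pos (by norm_num), ENNReal.ofReal_add (by positivity) (by positivity)]
    simp only [hX, hY, ENNReal.ofReal_ofNat]
  have hle : ∀ k, A k ≤ (X k + Y k) / 2 := by
    intro k
    rw [hXY]
    apply ENNReal.ofReal_le_ofReal
    rw [hterm]
    exact (half_pow_le hp _ _).1
  have hsum : ∑' k, (X k + Y k) / 2 ≤ E := by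
    simp_rw [div_eq_mul_inv]
    rw [ENNReal.tsum_mul_right, ENNReal.tsum_add]
    calc _ ≤ (E + E) * 2⁻¹ := by
          gcongr
          · exact hV1x.trans hxE
          · exact hV1y.trans hyE
      _ = E := by
          rw [← two_mul, mul_comm 2 E, mul_assoc, ENNReal.mul_inv_cancel (by norm_num) (by norm_num),
            mul_one]
  have heqk : ∀ k, A k = (X k + Y k) / 2 := by
    intro k
    apply le_antisymm (hle k)
    by_contra hcon
    push Not at hcon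
    have hAfin : ∑' k, A k ≠ ⊤ :=
      ne_top_of_le_ne_top hE ((ENNReal.tsum_le_tsum hle).trans hsum)
    have := ENNReal.tsum_lt_tsum hAfin hle hcon
    exact lt_irrefl _ ((this.trans_le hsum).trans_le hm)
  have heqab : ∀ k, ⟪f k, x (e k)⟫_ℂ = ⟪f k, y (e k)⟫_ℂ := by
    intro k
    have h1 := heqk k
    rw [hXY, hA] at h1
    simp only at h1
    rw [ENNReal.ofReal_eq_ofReal_iff (by positivity) (by positivity), hterm] at h1
    exact (half_pow_le hp _ _).2 h1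
  have hXA : ∀ k, X k = A k := by
    intro k
    rw [heqk k, hY, hX]
    simp only [← heqab k]
    rw [ENNReal.add_div, ENNReal.add_halves]
  have hYA : ∀ k, Y k = A k := by
    intro k
    rw [← hXA k, hX, hY]
    simp only [heqab k]
  have h1 := V1_eq hb1 hx he hf hp (ne_top_of_le_ne_top hE hxE) (by
    refine (hxE.trans hm).trans (le_of_eq ?_)
    exact tsum_congr fun k => (hXA k).symm)
  have h2 := V1_eq hb2 hy he hf hp (ne_top_of_le_ne_top hE hyE) (by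
    refine (hyE.trans hm).trans (le_of_eq ?_)
    exact tsum_congr fun k => (hYA k).symm)
  apply ext_basis b
  intro k
  by_cases hk : m (b k) = 0
  · have h3 : ∀ i, ⟪e i, b k⟫_ℂ = 0 := by
      intro i
      apply b.orthonormal.2
      intro h
      exact i.2 (by rw [h]; exact hk)
    rw [h1.2 _ h3, h2.2 _ h3]
  · have h3 := h1.1 ⟨k, hk⟩
    have h4 := h2.1 ⟨k, hk⟩
    rw [heqab] at h3
    have h5 : x (e ⟨k, hk⟩) = y (e ⟨k, hk⟩) := h3.trans h4.symm
    exact h5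

end SchattenDil
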