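import Pool.Agent.Helper808.SchG

open scoped InnerProductSpace ENNReal
open Module

namespace SchattenDil

universe u

section Jensen2

variable {κ : Type*} {q : ℝ} {w t : κ → ℝ≥0∞}

lemma jensen' (hq : 1 < q) (hw : ∑' k, w k ≤ 1) (ht : ∀ k, t k ≠ ⊤) :
    (∑' k, w k * t k) ^ q ≤ ∑' k, w k * t k ^ q := by
  by_cases hc : ∑' k, w k * t k = ⊤
  · have h1 : ∑' k, w k * t k ≤ ∑' k, w k * (1 + t k ^ q) := by
      apply ENNReal.tsum_le_tsum
      intro k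
      gcongr
      rcases le_total (t k) 1 with h | h
      · exact h.trans le_self_add
      · calc t k = t k ^ (1 : ℝ) := (ENNReal.rpow_one _).symm
          _ ≤ t k ^ q := ENNReal.rpow_le_rpow_of_exponent_le h hq.le
          _ ≤ _ := le_add_self
    simp_rw [mul_add, mul_one] at h1
    rw [ENNReal.tsum_add, hc, top_le_iff, ENNReal.add_eq_top] at h1
    rcases h1 with h1 | h1
    · rw [h1] at hw; simp at hw
    · rw [h1]; exact le_top
  · exact jensen hq hw ht hc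

lemma jensen_rev (hq0 : 0 < q) (hq : q < 1) (hw : ∑' k, w k ≤ 1) (ht : ∀ k, t k ≠ ⊤) :
    ∑' k, w k * t k ^ q ≤ (∑' k, w k * t k) ^ q := by
  have h1 : 1 < 1 / q := by rw [lt_div_iff₀ hq0]; linarith
  have h2 := jensen' (t := fun k => t k ^ q) h1 hw
    (fun k => ENNReal.rpow_ne_top_of_nonneg hq0.le (ht k))
  have h3 : ∀ k, (t k ^ q) ^ (1 / q) = t k := fun k => by
    rw [← ENNReal.rpow_mul, mul_one_div_cancel hq0.ne', ENNReal.rpow_one]
  simp_rw [h3] at h2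
  have h4 := ENNReal.rpow_le_rpow h2 hq0.le
  rwa [← ENNReal.rpow_mul, one_div_mul_cancel hq0.ne', ENNReal.rpow_one] at h4

lemma jensen_rev_eq (hq0 : 0 < q) (hq : q < 1) (hw : ∑' k, w k ≤ 1) (ht : ∀ k, t k ≠ ⊤)
    (hc : ∑' k, w k * t k ≠ ⊤) (he : (∑' k, w k * t k) ^ q ≤ ∑' k, w k * t k ^ q)
    (k : κ) (hk : w k ≠ 0) : t k = ∑' k, w k * t k := by
  have h1 : 1 < 1 / q := by rw [lt_div_iff₀ hq0]; linarith
  have h3 : ∀ k, (t k ^ q) ^ (1 / q) = t k := fun k => by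
    rw [← ENNReal.rpow_mul, mul_one_div_cancel hq0.ne', ENNReal.rpow_one]
  have h5 := jensen_rev hq0 hq hw ht
  have h6 : ∑' k, w k * t k ^ q ≠ ⊤ :=
    ne_top_of_le_ne_top (ENNReal.rpow_ne_top_of_nonneg hq0.le hc) h5
  have h7 := le_antisymm h5 he
  have h8 : (∑' k, w k * t k ^ q) ^ (1 / q) = ∑' k, w k * t k := by
    rw [h7, ← ENNReal.rpow_mul, mul_one_div_cancel hq0.ne', ENNReal.rpow_one]
  have h2 := jensen_eq (t := fun k => t k ^ q) h1 hw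
    (fun k => ENNReal.rpow_ne_top_of_nonneg hq0.le (ht k)) h6 (by
      simp_rw [h3]; exact h8.symm.le) k hk
  rw [← h8, ← h2, h3]

end Jensen2

variable {H : Type u} [NormedAddCommGroup H] [InnerProductSpace ℂ H]

lemma sq_rpow_half {a p : ℝ} (ha : 0 ≤ a) : (a ^ 2) ^ (p / 2) = a ^ p := by
  rw [← Real.rpow_natCast a 2, ← Real.rpow_mul ha]
  congr 1
  push_cast
  ring

lemma ofReal_sq_rpow_half {a p : ℝ} (ha : 0 ≤ a) (hp : 0 < p) :
    ENNReal.ofReal (a ^ 2) ^ (p / 2) = ENNReal.ofReal (a ^ p) := by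
  rw [ENNReal.ofReal_rpow_of_nonneg (by positivity) (by positivity), sq_rpow_half ha]

/-- V2, `p > 2` -/
lemma V2_gt {κ ι : Type*} {x : H →L[ℂ] H} {b : HilbertBasis κ ℂ H} (h : IsDiag x b)
    (hx : IsCompactOperator x) {e : ι → H} (he : Orthonormal ℂ e) {p : ℝ} (hp : 2 < p) :
    ∑' i, ENNReal.ofReal (‖x (e i)‖ ^ p) ≤ energy p x := by
  rw [h.energy_eq hx (by linarith)]
  have h1 : ∀ i, ENNReal.ofReal (‖x (e i)‖ ^ p)
      ≤ ∑' k, ENNReal.ofReal (‖⟪b k, e i⟫_ℂ‖ ^ 2) * ENNReal.ofReal (‖x (b k)‖ ^ p) := by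
    intro i
    rw [← ofReal_sq_rpow_half (norm_nonneg _) (by linarith), ← h.tsum_enorm_sq]
    have h2 : ∀ k, ENNReal.ofReal (‖x (b k)‖ ^ p) = ENNReal.ofReal (‖x (b k)‖ ^ 2) ^ (p / 2) :=
      fun k => (ofReal_sq_rpow_half (norm_nonneg _) (by linarith)).symm
    simp_rw [h2]
    apply jensen' (by linarith)
    · rw [parseval, he.1 i]; simp
    · intro k; exact ENNReal.ofReal_ne_top
  calc _ ≤ ∑' i, ∑' k, ENNReal.ofReal (‖⟪b k, e i⟫_ℂ‖ ^ 2) * ENNReal.ofReal (‖x (b k)‖ ^ p) :=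
        ENNReal.tsum_le_tsum h1
    _ = ∑' k, ∑' i, ENNReal.ofReal (‖⟪b k, e i⟫_ℂ‖ ^ 2) * ENNReal.ofReal (‖x (b k)‖ ^ p) :=
        ENNReal.tsum_comm
    _ ≤ ∑' k, ENNReal.ofReal (‖x (b k)‖ ^ p) := by
        apply ENNReal.tsum_le_tsum
        intro k
        rw [ENNReal.tsum_mul_right]
        have h3 : ∑' i, ENNReal.ofReal (‖⟪b k, e i⟫_ℂ‖ ^ 2) ≤ 1 := by
          have := bessel e (fun j k hjk => he.2 hjk) (fun k => (he.1 k).le) (b k)
          simp_rw [norm_inner_symm (b k)]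
          refine this.trans ?_
          simp [b.orthonormal.1 k]
        calc _ ≤ 1 * ENNReal.ofReal (‖x (b k)‖ ^ p) := by gcongr
          _ = _ := one_mul _

/-- V2, `p < 2` -/
lemma V2_lt {κ ι : Type*} {x : H →L[ℂ] H} {b : HilbertBasis κ ℂ H} (h : IsDiag x b)
    (hx : IsCompactOperator x) (u : HilbertBasis ι ℂ H) {p : ℝ} (hp0 : 0 < p) (hp : p < 2) :
    energy p x ≤ ∑' i, ENNReal.ofReal (‖x (u i)‖ ^ p) := by
  rw [h.energy_eq hx hp0]
  have h1 : ∀ i, ∑' k, ENNReal.ofReal (‖⟪b k, u i⟫_ℂ‖ ^ 2) * ENNReal.ofReal (‖x (b k)‖ ^ p)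
      ≤ ENNReal.ofReal (‖x (u i)‖ ^ p) := by
    intro i
    rw [← ofReal_sq_rpow_half (norm_nonneg _) hp0, ← h.tsum_enorm_sq]
    have h2 : ∀ k, ENNReal.ofReal (‖x (b k)‖ ^ p) = ENNReal.ofReal (‖x (b k)‖ ^ 2) ^ (p / 2) :=
      fun k => (ofReal_sq_rpow_half (norm_nonneg _) hp0).symm
    simp_rw [h2]
    apply jensen_rev (by linarith) (by linarith)
    · rw [parseval, u.orthonormal.1 i]; simp
    · intro k; exact ENNReal.ofReal_ne_top
  calc ∑' k, ENNReal.ofReal (‖x (b k)‖ ^ p)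
      = ∑' k, ∑' i, ENNReal.ofReal (‖⟪b k, u i⟫_ℂ‖ ^ 2) * ENNReal.ofReal (‖x (b k)‖ ^ p) := by
        congr 1; ext k
        rw [ENNReal.tsum_mul_right]
        simp_rw [norm_inner_symm (b k)]
        rw [parseval, b.orthonormal.1 k]
        simp
    _ = ∑' i, ∑' k, ENNReal.ofReal (‖⟪b k, u i⟫_ℂ‖ ^ 2) * ENNReal.ofReal (‖x (b k)‖ ^ p) :=
        ENNReal.tsum_comm
    _ ≤ _ := ENNReal.tsum_le_tsum h1

end SchattenDil
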