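import Pool.Agent.Helper808.SchH

open scoped InnerProductSpace ENNReal
open Module

namespace SchattenDil

universe u

variable {H : Type u} [NormedAddCommGroup H] [InnerProductSpace ℂ H]

lemma par (u v : H) : ‖u + v‖ ^ 2 + ‖u - v‖ ^ 2 = 2 * (‖u‖ ^ 2 + ‖v‖ ^ 2) := by
  have := parallelogram_law_with_norm ℂ u v
  nlinarith

lemma pow_ge {p : ℝ} (hp : 2 < p) (u v : H) :
    2 * (‖u‖ ^ 2 + ‖v‖ ^ 2) ^ (p / 2) ≤ ‖u + v‖ ^ p + ‖u - v‖ ^ p := by
  have hc := (strictConvexOn_rpow (show 1 < p / 2 by linarith)).convexOn.2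
    (show 0 ≤ ‖u + v‖ ^ 2 by positivity) (show 0 ≤ ‖u - v‖ ^ 2 by positivity)
    (show (0:ℝ) ≤ 1 / 2 by norm_num) (show (0:ℝ) ≤ 1 / 2 by norm_num) (by norm_num)
  simp only [smul_eq_mul] at hc
  have e1 : (1 : ℝ) / 2 * ‖u + v‖ ^ 2 + 1 / 2 * ‖u - v‖ ^ 2 = ‖u‖ ^ 2 + ‖v‖ ^ 2 := by
    have := par u v
    linarith
  rw [e1, sq_rpow_half (norm_nonneg _), sq_rpow_half (norm_nonneg _)] at hc
  linarith

lemma pow_le {p : ℝ} (hp0 : 0 < p) (hp : p < 2) (u v : H) :
    ‖u + v‖ ^ p + ‖u - v‖ ^ p ≤ 2 * (‖u‖ ^ 2 + ‖v‖ ^ 2) ^ (p / 2) := by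
  have hc := (Real.concaveOn_rpow (show 0 ≤ p / 2 by linarith) (show p / 2 ≤ 1 by linarith)).2
    (show 0 ≤ ‖u + v‖ ^ 2 by positivity) (show 0 ≤ ‖u - v‖ ^ 2 by positivity)
    (show (0:ℝ) ≤ 1 / 2 by norm_num) (show (0:ℝ) ≤ 1 / 2 by norm_num) (by norm_num)
  simp only [smul_eq_mul] at hc
  have e1 : (1 : ℝ) / 2 * ‖u + v‖ ^ 2 + 1 / 2 * ‖u - v‖ ^ 2 = ‖u‖ ^ 2 + ‖v‖ ^ 2 := by
    have := par u v
    linarith
  rw [e1, sq_rpow_half (norm_nonneg _), sq_rpow_half (norm_nonneg _)] at hc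
  linarith

lemma limit_zero {p C E : ℝ} (hp : 2 < p) (hE : 0 ≤ E)
    (h : ∀ t : ℝ, 0 < t → C * t ^ 2 ≤ t ^ p * E) : C ≤ 0 := by
  by_contra hC
  push Not at hC
  set s : ℝ := C / (2 * (E + 1)) with hs
  have hs0 : 0 < s := by positivity
  set t : ℝ := s ^ (1 / (p - 2)) with ht
  have ht0 : 0 < t := Real.rpow_pos_of_pos hs0 _
  have h1 := h t ht0
  have h2 : t ^ p = t ^ (p - 2) * t ^ 2 := by
    rw [← Real.rpow_natCast t 2, ← Real.rpow_add ht0]
    congr 1; push_cast; ring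
  have h3 : t ^ (p - 2) = s := by
    rw [ht, ← Real.rpow_mul hs0.le, one_div_mul_cancel (by linarith), Real.rpow_one]
  rw [h2, h3] at h1
  have h4 : C ≤ s * E := by
    have : 0 < t ^ 2 := by positivity
    nlinarith
  have h5 : s * E < C := by
    have h6 : s * (2 * (E + 1)) = C := by
      rw [hs]; field_simp
    nlinarith
  linarith

/-- Key lemma, `p > 2`. -/
lemma disj_gt {κ : Type*} {x y : H →L[ℂ] H} {b : HilbertBasis κ ℂ H} (h : IsDiag x b)
    (hx : IsCompactOperator x) {p : ℝ} (hp : 2 < p)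
    (hEx : energy p x ≠ ⊤) (hEy : energy p y ≠ ⊤)
    (hexy : ∀ c : ℂ, ∃ (κ' : Type u) (b' : HilbertBasis κ' ℂ H), IsDiag (x + c • y) b')
    (hcxy : ∀ c : ℂ, IsCompactOperator (x + c • y))
    (hE : ∀ c : ℂ, energy p (x + c • y) = energy p x + ENNReal.ofReal (‖c‖ ^ p) * energy p y)
    (k : κ) (hk : x (b k) ≠ 0) : y (b k) = 0 := by
  have hp0 : 0 < p := by linarith
  have hq : 1 < p / 2 := by linarith
  set X : κ → ℝ≥0∞ := fun i => ENNReal.ofReal (‖x (b i)‖ ^ p) with hX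
  have hXE : energy p x = ∑' i, X i := h.energy_eq hx hp0
  set σ := ‖x (b k)‖ with hσ
  have hσ0 : 0 < σ := norm_pos_iff.2 hk
  set β := ‖y (b k)‖ ^ 2 with hβ
  have hβ0 : 0 ≤ β := by positivity
  -- the inequality for every `t > 0`
  have hmain : ∀ t : ℝ, 0 < t →
      (p / 2 * (σ ^ 2) ^ (p / 2 - 1) * β) * t ^ 2 ≤ t ^ p * (energy p y).toReal := by
    intro t ht
    set F : ℂ → κ → ℝ≥0∞ := fun c i => ENNReal.ofReal (‖(x + c • y) (b i)‖ ^ p) with hF
    have hup : ∀ c : ℂ, ‖c‖ = t → ∑' i, F c i ≤ energy p x + ENNReal.ofReal (t ^ p) * energy p y := by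
      intro c hc
      obtain ⟨κ', b', hb'⟩ := hexy c
      rw [← hc, ← hE c]
      exact V2_gt hb' (hcxy c) b.orthonormal hp
    have h1 := hup (t : ℂ) (by simp [abs_of_pos ht])
    have h2 := hup (-t : ℂ) (by simp [abs_of_pos ht])
    have h3 := add_le_add h1 h2
    rw [← ENNReal.tsum_add] at h3
    -- lower bound
    set δ : ℝ := (σ ^ 2 + t ^ 2 * β) ^ (p / 2) - σ ^ p with hδ
    have hpt : ∀ i, 2 * (‖x (b i)‖ ^ 2 + t ^ 2 * ‖y (b i)‖ ^ 2) ^ (p / 2)
        ≤ ‖(x + (t : ℂ) • y) (b i)‖ ^ p + ‖(x + (-t : ℂ) • y) (b i)‖ ^ p := by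
      intro i
      have := pow_ge hp (x (b i)) ((t : ℂ) • y (b i))
      rw [norm_smul, mul_pow] at this
      simp only [Complex.norm_real, Real.norm_eq_abs, sq_abs] at this
      simpa [sub_eq_add_neg] using this
    have hδ0 : 0 ≤ δ := by
      have : σ ^ p ≤ (σ ^ 2 + t ^ 2 * β) ^ (p / 2) := by
        rw [← sq_rpow_half hσ0.le]
        apply Real.rpow_le_rpow (by positivity) _ (by linarith)
        nlinarith [mul_nonneg (sq_nonneg t) hβ0]
      linarith
    have hlow : 2 * energy p x + ENNReal.ofReal (2 * δ)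
        ≤ ∑' i, (F (t : ℂ) i + F (-t : ℂ) i) := by
      classical
      have h4 : ∀ i, 2 * X i + (if i = k then ENNReal.ofReal (2 * δ) else 0)
          ≤ F (t : ℂ) i + F (-t : ℂ) i := by
        intro i
        have h5 : F (t : ℂ) i + F (-t : ℂ) i = ENNReal.ofReal
            (‖(x + (t : ℂ) • y) (b i)‖ ^ p + ‖(x + (-t : ℂ) • y) (b i)‖ ^ p) := by
          rw [ENNReal.ofReal_add (by positivity) (by positivity)]
        have h6 : 2 * X i = ENNReal.ofReal (2 * ‖x (b i)‖ ^ p) := by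
          rw [ENNReal.ofReal_mul (by norm_num)]
          simp [hX]
        rw [h5, h6]
        by_cases hi : i = k
        · rw [if_pos hi, ← ENNReal.ofReal_add (by positivity) (by linarith)]
          apply ENNReal.ofReal_le_ofReal
          refine le_trans (le_of_eq ?_) (hpt i)
          subst hi
          rw [hδ, ← hσ, ← hβ]
          ring
        · rw [if_neg hi, add_zero]
          apply ENNReal.ofReal_le_ofReal
          refine le_trans ?_ (hpt i)
          have : ‖x (b i)‖ ^ p ≤ (‖x (b i)‖ ^ 2 + t ^ 2 * ‖y (b i)‖ ^ 2) ^ (p / 2) := by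
            rw [← sq_rpow_half (norm_nonneg (x (b i)))]
            apply Real.rpow_le_rpow (by positivity) _ (by linarith)
            nlinarith [mul_nonneg (sq_nonneg t) (sq_nonneg ‖y (b i)‖)]
          linarith
      have h7 := ENNReal.tsum_le_tsum h4
      rw [ENNReal.tsum_add, ENNReal.tsum_mul_left, ← hXE, tsum_ite_eq] at h7
      exact h7
    have h8 := hlow.trans h3
    have h9 : energy p x + ENNReal.ofReal (t ^ p) * energy p y
        + (energy p x + ENNReal.ofReal (t ^ p) * energy p y)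
        = 2 * energy p x + 2 * (ENNReal.ofReal (t ^ p) * energy p y) := by ring
    rw [h9] at h8
    have h10 := (ENNReal.add_le_add_iff_left (ENNReal.mul_ne_top (by norm_num) hEx)).1 h8
    have h11 : 2 * (ENNReal.ofReal (t ^ p) * energy p y)
        = ENNReal.ofReal (2 * (t ^ p * (energy p y).toReal)) := by
      rw [ENNReal.ofReal_mul (by norm_num), ENNReal.ofReal_mul (by positivity),
        ENNReal.ofReal_toReal hEy]
      norm_num
    rw [h11, ENNReal.ofReal_le_ofReal_iff (by positivity)] at h10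
    have h12 : δ ≤ t ^ p * (energy p y).toReal := by linarith
    refine le_trans ?_ h12
    have h13 := tangent_real hq (a := σ ^ 2 + t ^ 2 * β) (c := σ ^ 2) (by positivity) (by positivity)
    have h14 : (σ ^ 2) ^ (p / 2) = (σ ^ 2) ^ (p / 2 - 1) * σ ^ 2 := by
      rw [Real.rpow_sub_one (by positivity)]
      field_simp
    rw [hδ, ← sq_rpow_half hσ0.le, h14]
    rw [h14] at h13
    nlinarith
  have hC := limit_zero hp ENNReal.toReal_nonneg hmain
  have h15 : 0 < p / 2 * (σ ^ 2) ^ (p / 2 - 1) := by positivity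
  have h16 : β ≤ 0 := by
    by_contra hcon
    push Not at hcon
    have := mul_pos h15 hcon
    linarith
  have h17 : ‖y (b k)‖ = 0 := by
    have := norm_nonneg (y (b k))
    nlinarith
  exact norm_eq_zero.1 h17

end SchattenDil
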