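import Pool.Agent.Helper808.SchI

open scoped InnerProductSpace ENNReal
open Module

namespace SchattenDil

universe u

variable {H : Type u} [NormedAddCommGroup H] [InnerProductSpace ℂ H]

/-- the operator `v ↦ (x v, y v)` -/
noncomputable def colOp (x y : H →L[ℂ] H) : H →L[ℂ] WithLp 2 (H × H) :=
  (WithLp.prodContinuousLinearEquiv 2 ℂ H H).symm.toContinuousLinearMap ∘L (x.prod y)

lemma colOp_apply (x y : H →L[ℂ] H) (v : H) : colOp x y v = WithLp.toLp 2 (x v, y v) := rfl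

lemma inner_colOp (x y : H →L[ℂ] H) (v w : H) :
    ⟪colOp x y v, colOp x y w⟫_ℂ = ⟪x v, x w⟫_ℂ + ⟪y v, y w⟫_ℂ := by
  rw [colOp_apply, colOp_apply, WithLp.prod_inner_apply]

lemma norm_colOp_sq (x y : H →L[ℂ] H) (v : H) :
    ‖colOp x y v‖ ^ 2 = ‖x v‖ ^ 2 + ‖y v‖ ^ 2 := by
  rw [colOp_apply, WithLp.prod_norm_sq_eq_of_L2]
  rfl

lemma tsum_col {ι : Type*} {x y : H →L[ℂ] H} (u : HilbertBasis ι ℂ H)
    (h : ∀ j k, j ≠ k → ⟪colOp x y (u j), colOp x y (u k)⟫_ℂ = 0) (v : H) :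
    ∑' i, ENNReal.ofReal (‖⟪u i, v⟫_ℂ‖ ^ 2) * ENNReal.ofReal (‖x (u i)‖ ^ 2 + ‖y (u i)‖ ^ 2)
      = ENNReal.ofReal (‖x v‖ ^ 2 + ‖y v‖ ^ 2) := by
  have h1 : HasSum (fun k => ⟪u k, v⟫_ℂ • u k) v := by
    simpa [u.repr_apply_apply] using u.hasSum_repr v
  have h2 : HasSum (fun k => ⟪u k, v⟫_ℂ • colOp x y (u k)) (colOp x y v) := by
    have := h1.mapL (colOp x y)
    simpa using this
  have h3 : HasSum (fun k => ‖⟪u k, v⟫_ℂ‖ ^ 2 * ‖colOp x y (u k)‖ ^ 2) (‖colOp x y v‖ ^ 2) := by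
    refine (((continuous_norm.pow 2).tendsto (colOp x y v)).comp h2).congr ?_
    intro s
    simp only [Function.comp, Pi.pow_apply]
    rw [pythag (fun k => colOp x y (u k)) (fun j k hjk => h j k hjk)]
  simp_rw [norm_colOp_sq] at h3
  rw [← h3.tsum_eq, ENNReal.ofReal_tsum_of_nonneg (fun k => by positivity) h3.summable]
  congr 1
  ext k
  rw [ENNReal.ofReal_mul (by positivity)]

/-- normalised columns -/
noncomputable def omega {ι : Type*} (x y : H →L[ℂ] H) (u : ι → H) (i : ι) :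
    WithLp 2 (H × H) := ((‖colOp x y (u i)‖⁻¹ : ℝ) : ℂ) • colOp x y (u i)

lemma omega_orth {ι : Type*} {x y : H →L[ℂ] H} {u : ι → H}
    (h : ∀ j k, j ≠ k → ⟪colOp x y (u j), colOp x y (u k)⟫_ℂ = 0) (j k : ι) (hjk : j ≠ k) :
    ⟪omega x y u j, omega x y u k⟫_ℂ = 0 := by
  rw [omega, omega, inner_smul_left, inner_smul_right, h j k hjk]
  simp

lemma norm_omega_le {ι : Type*} (x y : H →L[ℂ] H) (u : ι → H) (i : ι) :
    ‖omega x y u i‖ ≤ 1 := by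
  rw [omega, norm_smul]
  simp only [Complex.ofReal_inv, norm_inv, Complex.norm_real, norm_norm]
  exact inv_mul_le_one

/-- weights, first component -/
noncomputable def al {ι : Type*} (x y : H →L[ℂ] H) (u : ι → H) (g : H) (i : ι) : ℝ≥0∞ :=
  ENNReal.ofReal (‖⟪omega x y u i, WithLp.toLp 2 (g, (0 : H))⟫_ℂ‖ ^ 2)

noncomputable def be {ι : Type*} (x y : H →L[ℂ] H) (u : ι → H) (g : H) (i : ι) : ℝ≥0∞ :=
  ENNReal.ofReal (‖⟪omega x y u i, WithLp.toLp 2 ((0 : H), g)⟫_ℂ‖ ^ 2)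

lemma tsum_al_le {ι : Type*} {x y : H →L[ℂ] H} {u : ι → H}
    (h : ∀ j k, j ≠ k → ⟪colOp x y (u j), colOp x y (u k)⟫_ℂ = 0) {g : H} (hg : ‖g‖ ≤ 1) :
    ∑' i, al x y u g i ≤ 1 := by
  refine (bessel (omega x y u) (omega_orth h) (norm_omega_le x y u) _).trans ?_
  rw [WithLp.prod_norm_sq_eq_of_L2, ENNReal.ofReal_le_one]
  change ‖g‖ ^ 2 + ‖(0 : H)‖ ^ 2 ≤ 1
  rw [norm_zero]
  nlinarith [norm_nonneg g]

lemma tsum_be_le {ι : Type*} {x y : H →L[ℂ] H} {u : ι → H}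
    (h : ∀ j k, j ≠ k → ⟪colOp x y (u j), colOp x y (u k)⟫_ℂ = 0) {g : H} (hg : ‖g‖ ≤ 1) :
    ∑' i, be x y u g i ≤ 1 := by
  refine (bessel (omega x y u) (omega_orth h) (norm_omega_le x y u) _).trans ?_
  rw [WithLp.prod_norm_sq_eq_of_L2, ENNReal.ofReal_le_one]
  change ‖(0 : H)‖ ^ 2 + ‖g‖ ^ 2 ≤ 1
  rw [norm_zero]
  nlinarith [norm_nonneg g]

lemma al_mul {ι : Type*} (x y : H →L[ℂ] H) (u : ι → H) (g : H) (i : ι) :
    al x y u g i * ENNReal.ofReal (‖x (u i)‖ ^ 2 + ‖y (u i)‖ ^ 2)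
      = ENNReal.ofReal (‖⟪x (u i), g⟫_ℂ‖ ^ 2) := by
  rw [al, ← ENNReal.ofReal_mul (by positivity), ← norm_colOp_sq, omega, inner_smul_left,
    colOp_apply, WithLp.prod_inner_apply]
  simp only [inner_zero_right, add_zero]
  congr 1
  rw [← colOp_apply]
  by_cases h0 : ‖colOp x y (u i)‖ = 0
  · have h1 := norm_colOp_sq x y (u i)
    rw [h0] at h1
    have h2 : ‖x (u i)‖ = 0 := by nlinarith [sq_nonneg ‖x (u i)‖, sq_nonneg ‖y (u i)‖]
    rw [norm_eq_zero.1 h2, h0]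
    simp
  · rw [norm_mul]
    simp only [Complex.conj_ofReal, Complex.norm_real, norm_inv, norm_norm]
    field_simp

lemma be_mul {ι : Type*} (x y : H →L[ℂ] H) (u : ι → H) (g : H) (i : ι) :
    be x y u g i * ENNReal.ofReal (‖x (u i)‖ ^ 2 + ‖y (u i)‖ ^ 2)
      = ENNReal.ofReal (‖⟪y (u i), g⟫_ℂ‖ ^ 2) := by
  rw [be, ← ENNReal.ofReal_mul (by positivity), ← norm_colOp_sq, omega, inner_smul_left,
    colOp_apply, WithLp.prod_inner_apply]
  simp only [inner_zero_right, zero_add]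
  congr 1
  rw [← colOp_apply]
  by_cases h0 : ‖colOp x y (u i)‖ = 0
  · have h1 := norm_colOp_sq x y (u i)
    rw [h0] at h1
    have h2 : ‖y (u i)‖ = 0 := by nlinarith [sq_nonneg ‖x (u i)‖, sq_nonneg ‖y (u i)‖]
    rw [norm_eq_zero.1 h2, h0]
    simp
  · rw [norm_mul]
    simp only [Complex.conj_ofReal, Complex.norm_real, norm_inv, norm_norm]
    field_simp

lemma norm_inner_gvec_apply {κ : Type*} {x : H →L[ℂ] H} {b : HilbertBasis κ ℂ H} (h : IsDiag x b)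
    (j : κ) (v : H) : ‖⟪x v, gvec x b j⟫_ℂ‖ ^ 2 = ‖⟪b j, v⟫_ℂ‖ ^ 2 * ‖x (b j)‖ ^ 2 := by
  have h1 : HasSum (fun k => ⟪b k, v⟫_ℂ • b k) v := by
    simpa [b.repr_apply_apply] using b.hasSum_repr v
  have h2 : HasSum (fun k => ⟪b k, v⟫_ℂ * ⟪gvec x b j, x (b k)⟫_ℂ) ⟪gvec x b j, x v⟫_ℂ := by
    have := (h1.mapL x).mapL (innerSL ℂ (gvec x b j))
    simpa using this
  have h3 : HasSum (fun k => ⟪b k, v⟫_ℂ * ⟪gvec x b j, x (b k)⟫_ℂ)
      (⟪b j, v⟫_ℂ * ⟪gvec x b j, x (b j)⟫_ℂ) := by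
    apply hasSum_single
    intro k hk
    rw [gvec, inner_smul_left, h j k (Ne.symm hk)]
    simp
  rw [norm_inner_symm, h2.unique h3, inner_gvec, norm_mul]
  simp only [Complex.norm_real, norm_norm]
  ring

/-- Key lemma, `p < 2`. -/
lemma disj_lt {κ κ' ι : Type*} {x y : H →L[ℂ] H} {b : HilbertBasis κ ℂ H}
    {c : HilbertBasis κ' ℂ H} (h : IsDiag x b) (h' : IsDiag y c)
    (hx : IsCompactOperator x) (hy : IsCompactOperator y)
    (u : HilbertBasis ι ℂ H)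
    (hu : ∀ j k, j ≠ k → ⟪colOp x y (u j), colOp x y (u k)⟫_ℂ = 0)
    {p : ℝ} (hp0 : 0 < p) (hp : p < 2)
    (hEx : energy p x ≠ ⊤) (hEy : energy p y ≠ ⊤)
    {κ1 κ2 : Type*} {b1 : HilbertBasis κ1 ℂ H} {b2 : HilbertBasis κ2 ℂ H}
    (hb1 : IsDiag (x + y) b1) (hb2 : IsDiag (x - y) b2)
    (hE1 : energy p (x + y) = energy p x + energy p y)
    (hE2 : energy p (x - y) = energy p x + energy p y)
    (j : κ) (hj : x (b j) ≠ 0) : y (b j) = 0 := by
  have hq0 : 0 < p / 2 := by linarith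
  have hq1 : p / 2 < 1 := by linarith
  set lam : ι → ℝ≥0∞ := fun i => ENNReal.ofReal (‖x (u i)‖ ^ 2 + ‖y (u i)‖ ^ 2) with hlam
  have hlamtop : ∀ i, lam i ≠ ⊤ := fun i => ENNReal.ofReal_ne_top
  -- (a) + (b)
  have hA : 2 * (energy p x + energy p y) ≤ 2 * ∑' i, lam i ^ (p / 2) := by
    have h1 := V2_lt hb1 (hx.add hy) u hp0 hp
    have h2 := V2_lt hb2 (hx.sub hy) u hp0 hp
    have h3 := add_le_add h1 h2
    rw [hE1, hE2, ← two_mul, ← ENNReal.tsum_add] at h3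
    refine h3.trans ?_
    rw [← ENNReal.tsum_mul_left]
    apply ENNReal.tsum_le_tsum
    intro i
    rw [← ENNReal.ofReal_add (by positivity) (by positivity)]
    have h4 := pow_le hp0 hp (x (u i)) (y (u i))
    have h5 : 2 * lam i ^ (p / 2)
        = ENNReal.ofReal (2 * (‖x (u i)‖ ^ 2 + ‖y (u i)‖ ^ 2) ^ (p / 2)) := by
      rw [ENNReal.ofReal_mul (by norm_num), hlam, ENNReal.ofReal_rpow_of_nonneg (by positivity)
        hq0.le]
      norm_num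
    rw [h5]
    exact ENNReal.ofReal_le_ofReal h4
  have hA' : energy p x + energy p y ≤ ∑' i, lam i ^ (p / 2) :=
    (ENNReal.mul_le_mul_iff_right (by norm_num) (by norm_num)).1 hA
  -- (c)
  set α : κ → ι → ℝ≥0∞ := fun j i => al x y u (gvec x b j) i with hα
  set β : κ' → ι → ℝ≥0∞ := fun k i => be x y u (gvec y c k) i with hβ
  have hαmul : ∀ j i, α j i * lam i
      = ENNReal.ofReal (‖⟪b j, u i⟫_ℂ‖ ^ 2) * ENNReal.ofReal (‖x (b j)‖ ^ 2) := by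
    intro j i
    rw [hα, hlam]
    simp only
    rw [al_mul, norm_inner_gvec_apply h, ENNReal.ofReal_mul (by positivity)]
  have hβmul : ∀ k i, β k i * lam i
      = ENNReal.ofReal (‖⟪c k, u i⟫_ℂ‖ ^ 2) * ENNReal.ofReal (‖y (c k)‖ ^ 2) := by
    intro k i
    rw [hβ, hlam]
    simp only
    rw [be_mul, norm_inner_gvec_apply h', ENNReal.ofReal_mul (by positivity)]
  have hαle : ∀ j, ∑' i, α j i ≤ 1 := fun j => tsum_al_le hu (norm_gvec_le x b j)
  have hβle : ∀ k, ∑' i, β k i ≤ 1 := fun k => tsum_be_le hu (norm_gvec_le y c k)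
  have hαsum : ∀ j, ∑' i, α j i * lam i = ENNReal.ofReal (‖x (b j)‖ ^ 2) := by
    intro j
    simp_rw [hαmul]
    rw [ENNReal.tsum_mul_right]
    simp_rw [norm_inner_symm (b j)]
    rw [parseval, b.orthonormal.1 j]
    simp
  have hβsum : ∀ k, ∑' i, β k i * lam i = ENNReal.ofReal (‖y (c k)‖ ^ 2) := by
    intro k
    simp_rw [hβmul]
    rw [ENNReal.tsum_mul_right]
    simp_rw [norm_inner_symm (c k)]
    rw [parseval, c.orthonormal.1 k]
    simp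
  have hone : ∀ i, lam i ≠ 0 → ∑' j, α j i + ∑' k, β k i = 1 := by
    intro i hi
    have h1 : (∑' j, α j i + ∑' k, β k i) * lam i = lam i := by
      rw [add_mul, ← ENNReal.tsum_mul_right, ← ENNReal.tsum_mul_right]
      simp_rw [hαmul, hβmul]
      rw [h.tsum_enorm_sq, h'.tsum_enorm_sq, ← ENNReal.ofReal_add (by positivity) (by positivity)]
    have h2 : (∑' j, α j i + ∑' k, β k i) * lam i = 1 * lam i := by rw [h1, one_mul]
    exact (ENNReal.mul_left_inj hi (hlamtop i)).1 h2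
  have hsplit : ∑' i, lam i ^ (p / 2)
      = ∑' j, ∑' i, α j i * lam i ^ (p / 2) + ∑' k, ∑' i, β k i * lam i ^ (p / 2) := by
    rw [ENNReal.tsum_comm (f := fun j i => α j i * lam i ^ (p / 2)),
      ENNReal.tsum_comm (f := fun j i => β j i * lam i ^ (p / 2)), ← ENNReal.tsum_add]
    congr 1
    ext i
    rw [ENNReal.tsum_mul_right, ENNReal.tsum_mul_right, ← add_mul]
    by_cases hi : lam i = 0
    · rw [hi, ENNReal.zero_rpow_of_pos hq0]; simp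
    · rw [hone i hi, one_mul]
  have hAj : ∀ j, ∑' i, α j i * lam i ^ (p / 2) ≤ ENNReal.ofReal (‖x (b j)‖ ^ p) := by
    intro j
    refine (jensen_rev hq0 hq1 (hαle j) hlamtop).trans ?_
    rw [hαsum, ofReal_sq_rpow_half (norm_nonneg _) hp0]
  have hBk : ∀ k, ∑' i, β k i * lam i ^ (p / 2) ≤ ENNReal.ofReal (‖y (c k)‖ ^ p) := by
    intro k
    refine (jensen_rev hq0 hq1 (hβle k) hlamtop).trans ?_
    rw [hβsum, ofReal_sq_rpow_half (norm_nonneg _) hp0]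
  have hB : ∑' k, ∑' i, β k i * lam i ^ (p / 2) ≤ energy p y := by
    rw [h'.energy_eq hy hp0]
    exact ENNReal.tsum_le_tsum hBk
  have hAx : energy p x ≤ ∑' j, ∑' i, α j i * lam i ^ (p / 2) := by
    rw [hsplit] at hA'
    have := hA'.trans (add_le_add le_rfl hB)
    exact (ENNReal.add_le_add_iff_right hEy).1 this
  have hAeq : ENNReal.ofReal (‖x (b j)‖ ^ p) ≤ ∑' i, α j i * lam i ^ (p / 2) := by
    by_contra hcon
    push Not at hcon
    rw [h.energy_eq hx hp0] at hAx hEx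
    have hfin : ∑' j, ∑' i, α j i * lam i ^ (p / 2) ≠ ⊤ :=
      ne_top_of_le_ne_top hEx (ENNReal.tsum_le_tsum hAj)
    have := ENNReal.tsum_lt_tsum hfin hAj hcon
    exact lt_irrefl _ (this.trans_le hAx)
  have hjen : ∀ i, α j i ≠ 0 → lam i = ENNReal.ofReal (‖x (b j)‖ ^ 2) := by
    intro i hi
    rw [← hαsum j]
    apply jensen_rev_eq hq0 hq1 (hαle j) hlamtop _ _ i hi
    · rw [hαsum]; exact ENNReal.ofReal_ne_top
    · rw [hαsum, ofReal_sq_rpow_half (norm_nonneg _) hp0]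
      exact hAeq
  have hfinal := tsum_col u hu (b j)
  have hterm : ∀ i, ENNReal.ofReal (‖⟪u i, b j⟫_ℂ‖ ^ 2) * lam i
      = ENNReal.ofReal (‖⟪u i, b j⟫_ℂ‖ ^ 2) * ENNReal.ofReal (‖x (b j)‖ ^ 2) := by
    intro i
    by_cases h0 : ENNReal.ofReal (‖⟪u i, b j⟫_ℂ‖ ^ 2) = 0
    · rw [h0]; simp
    · rw [hjen i]
      intro hz
      have h1 := hαmul j i
      rw [hz, zero_mul, norm_inner_symm] at h1
      rcases mul_eq_zero.1 h1.symm with h2 | h2
      · exact h0 h2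
      · rw [ENNReal.ofReal_eq_zero] at h2
        have : 0 < ‖x (b j)‖ := norm_pos_iff.2 hj
        nlinarith
  have hfinal2 : ENNReal.ofReal (‖x (b j)‖ ^ 2) = ENNReal.ofReal (‖x (b j)‖ ^ 2 + ‖y (b j)‖ ^ 2) := by
    rw [← hfinal]
    rw [show (∑' i, ENNReal.ofReal (‖⟪u i, b j⟫_ℂ‖ ^ 2)
      * ENNReal.ofReal (‖x (u i)‖ ^ 2 + ‖y (u i)‖ ^ 2))
      = ∑' i, ENNReal.ofReal (‖⟪u i, b j⟫_ℂ‖ ^ 2) * ENNReal.ofReal (‖x (b j)‖ ^ 2) from
        tsum_congr hterm]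
    rw [ENNReal.tsum_mul_right, parseval, b.orthonormal.1 j]
    simp
  rw [ENNReal.ofReal_eq_ofReal_iff (by positivity) (by positivity)] at hfinal2
  have : ‖y (b j)‖ = 0 := by nlinarith [norm_nonneg (y (b j))]
  exact norm_eq_zero.1 this

end SchattenDil
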