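import Pool.Agent.Helper808.SchJ

open scoped InnerProductSpace ENNReal
open Module

namespace SchattenDil

universe u

variable {H : Type u} [NormedAddCommGroup H] [InnerProductSpace ℂ H]

lemma comp_adjoint_eq_zero [CompleteSpace H] {κ : Type*} {x y : H →L[ℂ] H}
    (b : HilbertBasis κ ℂ H) (h : ∀ k, x (b k) ≠ 0 → y (b k) = 0) :
    y ∘L (ContinuousLinearMap.adjoint x) = 0 := by
  ext v
  have h1 : HasSum (fun k => ⟪b k, ContinuousLinearMap.adjoint x v⟫_ℂ • b k)
      (ContinuousLinearMap.adjoint x v) := by
    simpa [b.repr_apply_apply] using b.hasSum_repr (ContinuousLinearMap.adjoint x v)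
  have h2 : HasSum (fun k => ⟪b k, ContinuousLinearMap.adjoint x v⟫_ℂ • y (b k))
      (y (ContinuousLinearMap.adjoint x v)) := by simpa using h1.mapL y
  have h3 : ∀ k, ⟪b k, ContinuousLinearMap.adjoint x v⟫_ℂ • y (b k) = 0 := by
    intro k
    by_cases hk : x (b k) = 0
    · rw [ContinuousLinearMap.adjoint_inner_right, hk, inner_zero_left, zero_smul]
    · rw [h k hk, smul_zero]
  simp_rw [h3] at h2
  have := h2.unique hasSum_zero
  simpa using this

lemma energy_adjoint [CompleteSpace H] (p : ℝ) (x : H →L[ℂ] H) :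
    energy p (ContinuousLinearMap.adjoint x) = energy p x := by
  simp only [energy, sNum_adjoint]

lemma compact_rankOne (v w : H) : IsCompactOperator ((innerSL ℂ v).smulRight w : H →L[ℂ] H) := by
  have h1 : IsCompactOperator (innerSL ℂ v : H →L[ℂ] ℂ) :=
    isCompactOperator_of_locallyCompactSpace_dom _
  have h2 := h1.clm_comp (ContinuousLinearMap.toSpanSingleton ℂ w)
  have h3 : (⇑(ContinuousLinearMap.toSpanSingleton ℂ w) ∘ ⇑(innerSL ℂ v))
      = ⇑((innerSL ℂ v).smulRight w : H →L[ℂ] H) := by
    ext z
    simp [ContinuousLinearMap.toSpanSingleton_apply]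
  rwa [h3] at h2

lemma compact_trunc {κ : Type*} (b : HilbertBasis κ ℂ H) (s : Finset κ) :
    IsCompactOperator (trunc b s) := by
  classical
  unfold trunc
  induction s using Finset.induction_on with
  | empty => simpa using isCompactOperator_zero
  | insert a s ha ih =>
    rw [Finset.sum_insert ha]
    exact (compact_rankOne _ _).add ih

/-- the adjoint of a compact operator is compact -/
lemma compact_adjoint [CompleteSpace H] {x : H →L[ℂ] H} (hx : IsCompactOperator x) :
    IsCompactOperator (ContinuousLinearMap.adjoint x) := by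
  obtain ⟨κ, b, hb⟩ := exists_isDiag x hx
  have hcl := isClosed_setOfPred_isCompactOperator (𝕜₁ := ℂ) (𝕜₂ := ℂ) (σ₁₂ := RingHom.id ℂ)
    (M₁ := H) (M₂ := H)
  have hmem : ContinuousLinearMap.adjoint x ∈ closure {f : H →L[ℂ] H | IsCompactOperator f} := by
    rw [Metric.mem_closure_iff]
    intro ε hε
    have hfin := hb.finite hx (half_pos hε)
    set s := hfin.toFinset with hs
    have h1 := hb.norm_sub_trunc_sq_le s (ε / 2) (by positivity) (fun k hk => by
      simpa [hs] using hk)
    refine ⟨ContinuousLinearMap.adjoint (x ∘L trunc b s), ?_, ?_⟩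
    · rw [Set.mem_ofPred_eq, ContinuousLinearMap.adjoint_comp]
      have h2 : ContinuousLinearMap.adjoint (trunc b s) = trunc b s := by
        symm
        rw [ContinuousLinearMap.eq_adjoint_iff]
        intro v w
        rw [trunc_apply, trunc_apply, sum_inner, inner_sum]
        apply Finset.sum_congr rfl
        intro k _
        rw [inner_smul_left, inner_smul_right, inner_conj_symm]
        ring
      rw [h2]
      exact (compact_trunc b s).comp_clm _
    · rw [dist_eq_norm, ← map_sub, LinearIsometryEquiv.norm_map]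
      linarith
  rw [hcl.closure_eq] at hmem
  exact hmem

lemma disjoint_half [CompleteSpace H] {x y : H →L[ℂ] H} (hx : IsCompactOperator x)
    (hy : IsCompactOperator y) {p : ℝ} (hp1 : 1 < p) (hp2 : p ≠ 2)
    (hEx : energy p x ≠ ⊤) (hEy : energy p y ≠ ⊤)
    (hE : ∀ c : ℂ, energy p (x + c • y) = energy p x + ENNReal.ofReal (‖c‖ ^ p) * energy p y) :
    y ∘L (ContinuousLinearMap.adjoint x) = 0 := by
  obtain ⟨κ, b, hb⟩ := exists_isDiag x hx
  apply comp_adjoint_eq_zero b
  intro k hk
  have hcomp : ∀ c : ℂ, IsCompactOperator (x + c • y) := fun c => hx.add (hy.smul c)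
  rcases lt_or_gt_of_ne hp2 with hlt | hgt
  · obtain ⟨κ', c, hc⟩ := exists_isDiag y hy
    have hZ : IsCompactOperator
        (ContinuousLinearMap.adjoint x ∘L x + ContinuousLinearMap.adjoint y ∘L y) := by
      have h1 : IsCompactOperator (ContinuousLinearMap.adjoint x ∘L x) := by
        have := hx.clm_comp (ContinuousLinearMap.adjoint x)
        exact this
      have h2 : IsCompactOperator (ContinuousLinearMap.adjoint y ∘L y) := by
        have := hy.clm_comp (ContinuousLinearMap.adjoint y)
        exact this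
      exact h1.add h2
    obtain ⟨ι, u, μ, hu⟩ := exists_eigenbasis _ hZ (by
      intro v w
      simp [ContinuousLinearMap.adjoint_inner_left, ContinuousLinearMap.adjoint_inner_right,
        inner_add_left, inner_add_right])
    obtain ⟨κ1, b1, hb1⟩ := exists_isDiag (x + y) (hx.add hy)
    obtain ⟨κ2, b2, hb2⟩ := exists_isDiag (x - y) (hx.sub hy)
    refine disj_lt hb hc hx hy u ?_ (by linarith) hlt hEx hEy hb1 hb2 ?_ ?_ k hk
    · intro i j hij
      rw [inner_colOp]
      have h1 : ⟪x (u i), x (u j)⟫_ℂ + ⟪y (u i), y (u j)⟫_ℂ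
          = ⟪u i, (ContinuousLinearMap.adjoint x ∘L x + ContinuousLinearMap.adjoint y ∘L y) (u j)⟫_ℂ := by
        simp [ContinuousLinearMap.adjoint_inner_right]
      rw [h1, hu, inner_smul_right, u.orthonormal.2 hij, mul_zero]
    · have := hE 1
      simpa using this
    · have := hE (-1)
      simpa [sub_eq_add_neg] using this
  · exact disj_gt hb hx hgt hEx hEy (fun c => exists_isDiag _ (hcomp c)) hcomp hE k hk

lemma disjoint_other [CompleteSpace H] {x y : H →L[ℂ] H} (hx : IsCompactOperator x)
    (hy : IsCompactOperator y) {p : ℝ} (hp1 : 1 < p) (hp2 : p ≠ 2)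
    (hEx : energy p x ≠ ⊤) (hEy : energy p y ≠ ⊤)
    (hE : ∀ c : ℂ, energy p (x + c • y) = energy p x + ENNReal.ofReal (‖c‖ ^ p) * energy p y) :
    (ContinuousLinearMap.adjoint y) ∘L x = 0 := by
  have h := disjoint_half (x := ContinuousLinearMap.adjoint x) (y := ContinuousLinearMap.adjoint y)
    (compact_adjoint hx) (compact_adjoint hy) hp1 hp2 (by rwa [energy_adjoint])
    (by rwa [energy_adjoint]) (fun c => by
      have h1 : ContinuousLinearMap.adjoint x + c • ContinuousLinearMap.adjoint y
          = ContinuousLinearMap.adjoint (x + (starRingEnd ℂ c) • y) := by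
        rw [map_add, LinearIsometryEquiv.map_smulₛₗ]
        simp
      rw [h1, energy_adjoint, energy_adjoint, energy_adjoint, hE]
      simp)
  rwa [ContinuousLinearMap.adjoint_adjoint] at h

end SchattenDil
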