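import Pool.Agent.Helper808.SchK

open scoped InnerProductSpace ENNReal
open Module

namespace SchattenDil

universe u

variable {H : Type u} [NormedAddCommGroup H] [InnerProductSpace ℂ H]

lemma energy_neg (p : ℝ) (z : H →L[ℂ] H) : energy p (-z) = energy p z := by
  have : -z = (-1 : ℂ) • z := by simp
  simp only [energy]
  rw [this]
  simp only [sNum_smul]
  simp

lemma energy_sub [CompleteSpace H] {x y : H →L[ℂ] H} (hx : IsCompactOperator x)
    (hy : IsCompactOperator y) {p : ℝ} (hp : 1 ≤ p) :
    energy p (x - y) ^ (1 / p) ≤ energy p x ^ (1 / p) + energy p y ^ (1 / p) := by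
  have := energy_add hx hy.neg hp (y := -y)
  rwa [← sub_eq_add_neg, energy_neg] at this

lemma energy_comp_le {g z : H →L[ℂ] H} (hg : ‖g‖ ≤ 1) {p : ℝ} (hp : 0 ≤ p) :
    energy p (g ∘L z) ≤ energy p z := by
  apply ENNReal.tsum_le_tsum
  intro n
  apply ENNReal.ofReal_le_ofReal
  apply Real.rpow_le_rpow (sNum_nonneg _ _) _ hp
  refine (sNum_comp_left g z n).trans ?_
  calc ‖g‖ * sNum z n ≤ 1 * sNum z n := by
        gcongr
        exact sNum_nonneg _ _
    _ = _ := one_mul _

lemma energy_finite_rank {z : H →L[ℂ] H} {N : ℕ}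
    (hz : LinearMap.rank (z : H →ₗ[ℂ] H) ≤ (N : Cardinal)) {p : ℝ} (hp : 0 < p) :
    energy p z ≤ N * ENNReal.ofReal (‖z‖ ^ p) := by
  have h1 : ∀ n ∉ Finset.range N, ENNReal.ofReal (sNum z n ^ p) = 0 := by
    intro n hn
    rw [Finset.mem_range, not_lt] at hn
    rw [sNum_eq_zero_of_rank z n (hz.trans (by exact_mod_cast hn)), Real.zero_rpow hp.ne',
      ENNReal.ofReal_zero]
  rw [energy, tsum_eq_sum h1]
  calc ∑ n ∈ Finset.range N, ENNReal.ofReal (sNum z n ^ p)
      ≤ ∑ n ∈ Finset.range N, ENNReal.ofReal (‖z‖ ^ p) := by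
        apply Finset.sum_le_sum
        intro n _
        apply ENNReal.ofReal_le_ofReal
        exact Real.rpow_le_rpow (sNum_nonneg _ _) (sNum_le_norm _ _) hp.le
    _ = _ := by rw [Finset.sum_const, Finset.card_range, nsmul_eq_mul]

section recurrence

variable [CompleteSpace H] {w : H →L[ℂ] H} {x : H →L[ℂ] H}

open ContinuousLinearMap in
lemma inner_disj (h2 : adjoint (w - x) ∘L x = 0) (u v : H) : ⟪x u, (w - x) v⟫_ℂ = 0 := by
  have h3 : ⟪(w - x) v, x u⟫_ℂ = 0 := by
    rw [← adjoint_inner_right]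
    have := congrArg (fun g : H →L[ℂ] H => g u) h2
    simp only [comp_apply, zero_apply] at this
    rw [this, inner_zero_right]
  rw [← inner_conj_symm, h3, map_zero]

open ContinuousLinearMap in
lemma norm_le_of_disj (h2 : adjoint (w - x) ∘L x = 0) (v : H) : ‖x v‖ ≤ ‖w v‖ := by
  have h3 : w v = x v + (w - x) v := by simp
  have h4 := norm_add_sq_eq_norm_sq_add_norm_sq_of_inner_eq_zero (𝕜 := ℂ) _ _ (inner_disj h2 v v)
  rw [← h3] at h4
  have h5 : ‖x v‖ ^ 2 ≤ ‖w v‖ ^ 2 := by nlinarith [mul_self_nonneg ‖(w - x) v‖]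
  exact le_of_sq_le_sq h5 (norm_nonneg _)

open ContinuousLinearMap in
lemma exists_proj (h2 : adjoint (w - x) ∘L x = 0) : ∃ g : H →L[ℂ] H, ‖g‖ ≤ 1 ∧ x = g ∘L w := by
  set K : Submodule ℂ H := (LinearMap.range (x : H →ₗ[ℂ] H)).topologicalClosure with hK
  have hcl : IsClosed (K : Set H) := Submodule.isClosed_topologicalClosure _
  have hcomp : CompleteSpace K := hcl.completeSpace_coe
  refine ⟨K.starProjection, Submodule.starProjection_norm_le K, ?_⟩
  ext v
  have h3 : w v = x v + (w - x) v := by simp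
  have h4 : K.starProjection (x v) = x v := by
    rw [Submodule.starProjection_eq_self_iff]
    exact Submodule.le_topologicalClosure _ ⟨v, rfl⟩
  have h5 : K.starProjection ((w - x) v) = 0 := by
    rw [Submodule.starProjection_apply_eq_zero_iff, hK, Submodule.orthogonal_closure,
      Submodule.mem_orthogonal]
    rintro _ ⟨u, rfl⟩
    exact inner_disj h2 u v
  simp only [comp_apply]
  rw [h3, map_add, h4, h5, add_zero]

open ContinuousLinearMap in
lemma eigen_disj {κ : Type*} {b : HilbertBasis κ ℂ H} (hb : IsDiag w b)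
    (h1 : (w - x) ∘L adjoint x = 0) (h2 : adjoint (w - x) ∘L x = 0) (k : κ) :
    w (adjoint w (x (b k))) = ((‖w (b k)‖ ^ 2 : ℝ) : ℂ) • x (b k) := by
  -- operator identities
  have a1 : adjoint w ∘L x = adjoint x ∘L x := by
    have : adjoint (w - x) = adjoint w - adjoint x := map_sub _ _ _
    rw [this] at h2
    have h3 : adjoint w ∘L x - adjoint x ∘L x = 0 := by
      rw [← h2]; ext v; simp
    exact sub_eq_zero.1 h3
  have a2 : w ∘L adjoint x = x ∘L adjoint x := by
    have h3 : w ∘L adjoint x - x ∘L adjoint x = 0 := by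
      rw [← h1]; ext v; simp
    exact sub_eq_zero.1 h3
  have a3 : adjoint x ∘L w = adjoint x ∘L x := by
    have := congrArg (fun g : H →L[ℂ] H => adjoint g) a1
    simpa [adjoint_comp] using this
  have a4 : x ∘L adjoint w = x ∘L adjoint x := by
    have := congrArg (fun g : H →L[ℂ] H => adjoint g) a2
    simpa [adjoint_comp] using this
  -- eigenvector equation for w† w
  have a5 : adjoint w (w (b k)) = ((‖w (b k)‖ ^ 2 : ℝ) : ℂ) • b k := by
    rw [← sub_eq_zero]
    apply hilbertBasis_ext b
    intro j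
    rw [inner_sub_right, adjoint_inner_right, inner_smul_right]
    by_cases hj : j = k
    · subst hj
      rw [inner_self_eq_norm_sq_to_K, inner_self_eq_norm_sq_to_K, b.orthonormal.1 j]
      simp
    · rw [hb j k hj, b.orthonormal.2 hj]
      simp
  have e1 : adjoint w (x (b k)) = adjoint x (x (b k)) := by
    have := congrArg (fun g : H →L[ℂ] H => g (b k)) a1
    simpa using this
  have e2 : w (adjoint x (x (b k))) = x (adjoint x (x (b k))) := by
    have := congrArg (fun g : H →L[ℂ] H => g (x (b k))) a2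
    simpa using this
  have e3 : adjoint x (w (b k)) = adjoint x (x (b k)) := by
    have := congrArg (fun g : H →L[ℂ] H => g (b k)) a3
    simpa using this
  have e4 : x (adjoint w (w (b k))) = x (adjoint x (w (b k))) := by
    have := congrArg (fun g : H →L[ℂ] H => g (w (b k))) a4
    simpa using this
  rw [e1, e2, ← e3, ← e4, a5, map_smul]

end recurrence

end SchattenDil
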