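import Pool.Agent.Helper808.SchL

open scoped InnerProductSpace ENNReal
open Module

namespace SchattenDil

universe u

variable {H : Type u} [NormedAddCommGroup H] [InnerProductSpace ℂ H] [CompleteSpace H]

omit [CompleteSpace H] in
/-- energy of the tail -/
lemma energy_tail {κ : Type*} {w : H →L[ℂ] H} {b : HilbertBasis κ ℂ H} (hb : IsDiag w b)
    (hw : IsCompactOperator w) {p : ℝ} (hp : 0 < p) (s : Finset κ) :
    energy p (w - w ∘L trunc b s) = ∑' k : {k // k ∉ s}, ENNReal.ofReal (‖w (b k)‖ ^ p) := by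
  classical
  have happ : ∀ k, (w - w ∘L trunc b s) (b k) = if k ∈ s then 0 else w (b k) := by
    intro k
    have h1 : trunc b s (b k) = if k ∈ s then b k else 0 := by
      rw [trunc_apply]
      simp_rw [orthonormal_iff_ite.1 b.orthonormal]
      simp [Finset.sum_ite_eq']
    simp only [sub_apply, ContinuousLinearMap.comp_apply, h1]
    split_ifs <;> simp
  have hd : IsDiag (w - w ∘L trunc b s) b := by
    intro j k hjk
    rw [happ, happ]
    split_ifs
    · simp
    · simp
    · simp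
    · exact hb j k hjk
  have hc : IsCompactOperator (w - w ∘L trunc b s) := hw.sub (hw.comp_clm (trunc b s))
  rw [hd.energy_eq hc hp]
  have h2 : ∀ k : {k // k ∉ s}, ENNReal.ofReal (‖w (b k)‖ ^ p)
      = ENNReal.ofReal (‖(w - w ∘L trunc b s) (b k)‖ ^ p) := by
    intro k
    rw [happ, if_neg k.2]
  simp_rw [h2]
  symm
  apply tsum_subtype_eq_of_support_subset (s := {k | k ∉ s})
    (f := fun k => ENNReal.ofReal (‖(w - w ∘L trunc b s) (b k)‖ ^ p))
  intro k hk
  simp only [Function.mem_support] at hk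
  intro h0
  apply hk
  rw [happ, if_pos h0, norm_zero, Real.zero_rpow hp.ne', ENNReal.ofReal_zero]

open ContinuousLinearMap in
lemma exists_compact_set {κ : Type*} {w : H →L[ℂ] H} {b : HilbertBasis κ ℂ H} (hb : IsDiag w b)
    (hw : IsCompactOperator w) (k : κ) : ∃ C : Set H, IsCompact C ∧ ∀ x : H →L[ℂ] H,
      (w - x) ∘L adjoint x = 0 → adjoint (w - x) ∘L x = 0 → x (b k) ∈ C := by
  by_cases hk : w (b k) = 0
  · refine ⟨{0}, isCompact_singleton, ?_⟩
    intro x h1 h2
    have := norm_le_of_disj h2 (b k)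
    rw [hk, norm_zero] at this
    simpa using this
  · have hT : IsCompactOperator (w ∘L adjoint w) := hw.comp_clm (adjoint w)
    have hμ : ((‖w (b k)‖ ^ 2 : ℝ) : ℂ) ≠ 0 := by
      have : ‖w (b k)‖ ≠ 0 := norm_ne_zero_iff.2 hk
      exact_mod_cast pow_ne_zero 2 this
    have hfd := finite_dimensional_eigenspace hT _ hμ
    set V := End.eigenspace (w ∘L adjoint w).toLinearMap ((‖w (b k)‖ ^ 2 : ℝ) : ℂ) with hV
    have hproper : ProperSpace V := FiniteDimensional.proper ℂ V
    refine ⟨Subtype.val '' (Metric.closedBall (0 : V) ‖w (b k)‖),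
      (isCompact_closedBall _ _).image continuous_subtype_val, ?_⟩
    intro x h1 h2
    have h3 := eigen_disj hb h1 h2 k
    have h4 : x (b k) ∈ V := by
      rw [hV, End.mem_eigenspace_iff]
      exact h3
    refine ⟨⟨x (b k), h4⟩, ?_, rfl⟩
    rw [mem_closedBall_zero_iff]
    exact norm_le_of_disj h2 (b k)

omit [CompleteSpace H] in
lemma norm_comp_trunc_le {κ : Type*} (z : H →L[ℂ] H) (b : HilbertBasis κ ℂ H) (s : Finset κ)
    {δ : ℝ} (hδ : 0 ≤ δ) (h : ∀ k ∈ s, ‖z (b k)‖ ≤ δ) : ‖z ∘L trunc b s‖ ≤ s.card * δ := by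
  apply ContinuousLinearMap.opNorm_le_bound _ (by positivity)
  intro v
  rw [ContinuousLinearMap.comp_apply, trunc_apply, map_sum]
  calc ‖∑ k ∈ s, z (⟪b k, v⟫_ℂ • b k)‖ ≤ ∑ k ∈ s, ‖z (⟪b k, v⟫_ℂ • b k)‖ := norm_sum_le _ _
    _ ≤ ∑ k ∈ s, δ * ‖v‖ := by
        apply Finset.sum_le_sum
        intro k hk
        rw [map_smul, norm_smul, mul_comm]
        have h1 : ‖⟪b k, v⟫_ℂ‖ ≤ ‖v‖ := by
          have := norm_inner_le_norm (𝕜 := ℂ) (b k) v
          rwa [b.orthonormal.1 k, one_mul] at this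
        exact mul_le_mul (h k hk) h1 (norm_nonneg _) hδ
    _ = _ := by rw [Finset.sum_const, nsmul_eq_mul]; ring

open ContinuousLinearMap in
/-- Recurrence: the disjoint parts of a fixed operator in `S_p` form a totally bounded set. -/
lemma recur {w : H →L[ℂ] H} (hw : IsCompactOperator w) {p : ℝ} (hp : 1 ≤ p)
    (hEw : energy p w ≠ ⊤) (x : ℕ → H →L[ℂ] H) (hx : ∀ n, IsCompactOperator (x n))
    (h1 : ∀ n, (w - x n) ∘L adjoint (x n) = 0) (h2 : ∀ n, adjoint (w - x n) ∘L x n = 0)
    {ε : ℝ} (hε : 0 < ε) :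
    ∃ n m, n < m ∧ energy p (x n - x m) ^ (1 / p) < ENNReal.ofReal ε := by
  classical
  have hp0 : 0 < p := by linarith
  obtain ⟨κ, b, hb⟩ := exists_isDiag w hw
  -- the tail
  set η : ℝ := (ε / 4) ^ p with hη
  have hη0 : 0 < η := by positivity
  have hsum : ∑' k, ENNReal.ofReal (‖w (b k)‖ ^ p) ≠ ⊤ := by rwa [← hb.energy_eq hw hp0]
  have htail := ENNReal.tendsto_tsum_compl_atTop_zero hsum
  obtain ⟨s, hs⟩ := (htail.eventually (gt_mem_nhds (show (0 : ℝ≥0∞) < ENNReal.ofReal η by
    simpa using hη0))).exists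
  have htailx : ∀ n, energy p (x n - x n ∘L trunc b s) ^ (1 / p) ≤ ENNReal.ofReal (ε / 4) := by
    intro n
    obtain ⟨g, hg, hgx⟩ := exists_proj (h2 n)
    have h3 : x n - x n ∘L trunc b s = g ∘L (w - w ∘L trunc b s) := by
      conv_lhs => rw [hgx]
      ext v; simp
    have h4 : energy p (x n - x n ∘L trunc b s) ≤ ENNReal.ofReal η := by
      rw [h3]
      refine (energy_comp_le hg hp0.le).trans ?_
      rw [energy_tail hb hw hp0]
      exact hs.le
    have h5 := ENNReal.rpow_le_rpow h4 (show 0 ≤ 1 / p by positivity)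
    refine h5.trans (le_of_eq ?_)
    rw [hη, ENNReal.ofReal_rpow_of_nonneg (by positivity) (by positivity), ← Real.rpow_mul
      (by positivity), mul_one_div_cancel hp0.ne', Real.rpow_one]
  -- the finite part
  choose C hC hxC using fun k : κ => exists_compact_set hb hw k
  have hcomp : IsCompact (Set.pi Set.univ (fun k : s => C k)) := isCompact_univ_pi (fun k => hC k)
  obtain ⟨a, -, φ, hφ, hlim⟩ := hcomp.tendsto_subseq (x := fun n => fun k : s => x n (b k))
    (fun n => by
      intro k _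
      exact hxC k (x n) (h1 n) (h2 n))
  set δ : ℝ := ε / (4 * ((s.card : ℝ) ^ (1 / p) * s.card + 1)) with hδ
  have hden : 0 < 4 * ((s.card : ℝ) ^ (1 / p) * s.card + 1) := by positivity
  have hδ0 : 0 < δ := by positivity
  obtain ⟨N, hN⟩ := Metric.tendsto_atTop.1 hlim (δ / 2) (by positivity)
  have hdist : dist (fun k : s => x (φ N) (b k)) (fun k : s => x (φ (N + 1)) (b k)) < δ := by
    have e1 := hN N le_rfl
    have e2 := hN (N + 1) (Nat.le_succ N)
    calc _ ≤ dist (fun k : s => x (φ N) (b k)) a + dist (fun k : s => x (φ (N + 1)) (b k)) a :=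
          dist_triangle_right _ _ _
      _ < δ := by
          have := add_lt_add e1 e2
          simpa using this
  refine ⟨φ N, φ (N + 1), hφ (Nat.lt_succ_self N), ?_⟩
  set z := x (φ N) - x (φ (N + 1)) with hz
  have hzc : IsCompactOperator z := (hx _).sub (hx _)
  have hzb : ∀ k ∈ s, ‖z (b k)‖ ≤ δ := by
    intro k hk
    have := (dist_pi_lt_iff hδ0).1 hdist ⟨k, hk⟩
    rw [dist_eq_norm] at this
    simpa [hz] using this.le
  have hfin : energy p (z ∘L trunc b s) ^ (1 / p) ≤ ENNReal.ofReal (ε / 4) := by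
    have hrank : LinearMap.rank ((z ∘L trunc b s : H →L[ℂ] H) : H →ₗ[ℂ] H)
        ≤ (s.card : Cardinal) :=
      (LinearMap.rank_comp_le_right (trunc b s : H →ₗ[ℂ] H) (z : H →ₗ[ℂ] H)).trans
        (rank_trunc b s)
    have e1 := energy_finite_rank hrank hp0
    have e2 := norm_comp_trunc_le z b s hδ0.le hzb
    have e3 : (s.card : ℝ≥0∞) * ENNReal.ofReal (‖z ∘L trunc b s‖ ^ p)
        ≤ ENNReal.ofReal (s.card * (s.card * δ) ^ p) := by
      rw [ENNReal.ofReal_mul (by positivity), ENNReal.ofReal_natCast]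
      gcongr
    have e4 := ENNReal.rpow_le_rpow (e1.trans e3) (show 0 ≤ 1 / p by positivity)
    refine e4.trans ?_
    rw [ENNReal.ofReal_rpow_of_nonneg (by positivity) (by positivity)]
    apply ENNReal.ofReal_le_ofReal
    rw [Real.mul_rpow (by positivity) (by positivity), ← Real.rpow_mul (by positivity),
      mul_one_div_cancel hp0.ne', Real.rpow_one]
    have e5 : (s.card : ℝ) ^ (1 / p) * (s.card * δ) = ((s.card : ℝ) ^ (1 / p) * s.card) * δ := by
      ring
    rw [e5, hδ, ← mul_div_assoc, div_le_div_iff₀ hden (by norm_num)]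
    have : 0 ≤ (s.card : ℝ) ^ (1 / p) * s.card := by positivity
    nlinarith
  have hdecomp : z = z ∘L trunc b s + ((x (φ N) - x (φ N) ∘L trunc b s)
      - (x (φ (N + 1)) - x (φ (N + 1)) ∘L trunc b s)) := by
    ext v; simp [hz]; abel
  have hc1 : ∀ n, IsCompactOperator (x n - x n ∘L trunc b s) := fun n =>
    (hx n).sub ((hx n).comp_clm (trunc b s))
  have hc2 : IsCompactOperator (z ∘L trunc b s) := hzc.comp_clm (trunc b s)
  have f1 := energy_add hc2 ((hc1 (φ N)).sub (hc1 (φ (N + 1)))) hp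
    (x := z ∘L trunc b s) (y := (x (φ N) - x (φ N) ∘L trunc b s)
      - (x (φ (N + 1)) - x (φ (N + 1)) ∘L trunc b s))
  rw [← hdecomp] at f1
  have f2 := energy_sub (hc1 (φ N)) (hc1 (φ (N + 1))) hp
  calc energy p z ^ (1 / p) ≤ ENNReal.ofReal (ε / 4) + (ENNReal.ofReal (ε / 4)
        + ENNReal.ofReal (ε / 4)) :=
        f1.trans (add_le_add hfin (f2.trans (add_le_add (htailx _) (htailx _))))
    _ = ENNReal.ofReal (ε / 4 + (ε / 4 + ε / 4)) := by
        rw [ENNReal.ofReal_add (by positivity) (by positivity), ENNReal.ofReal_add (by positivity)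
          (by positivity)]
    _ < ENNReal.ofReal ε := by
        rw [ENNReal.ofReal_lt_ofReal_iff hε]
        linarith

end SchattenDil
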