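import Pool.Agent.Helper808.SchM

/-!
# The Schatten classes `S_p`, `1 ≤ p < ∞`, over a complex Hilbert space

`sNum x n` (defined in `Pool/Agent/Helper808/SchDef.lean`) is the `n`-th singular number of the
operator `x`, in its form as approximation number (distance to the operators of rank `≤ n`).
-/

open scoped InnerProductSpace ENNReal
open Module

namespace SchattenDil

universe u

section defs

variable {H : Type u} [NormedAddCommGroup H] [InnerProductSpace ℂ H]

lemma memSchatten_iff {p : ℝ} {x : H →L[ℂ] H} :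
    MemSchatten p x ↔ IsCompactOperator x ∧ energy p x ≠ ⊤ := by
  unfold MemSchatten energy
  refine and_congr_right fun _ => ⟨fun h => h.tsum_ofReal_ne_top, fun h => ?_⟩
  have := ENNReal.summable_toReal h
  refine this.congr fun n => ?_
  rw [ENNReal.toReal_ofReal (Real.rpow_nonneg (sNum_nonneg _ _) _)]

lemma MemSchatten.energy_eq {p : ℝ} {x : H →L[ℂ] H} (h : MemSchatten p x) :
    energy p x = ENNReal.ofReal (∑' n : ℕ, sNum x n ^ p) := by
  rw [ENNReal.ofReal_tsum_of_nonneg (fun n => Real.rpow_nonneg (sNum_nonneg _ _) _) h.2]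
  rfl

lemma schattenNorm_nonneg (p : ℝ) (x : H →L[ℂ] H) : 0 ≤ schattenNorm p x :=
  Real.rpow_nonneg (tsum_nonneg fun n => Real.rpow_nonneg (sNum_nonneg _ _) _) _

lemma MemSchatten.ofReal_norm {p : ℝ} (hp : 0 < p) {x : H →L[ℂ] H} (h : MemSchatten p x) :
    ENNReal.ofReal (schattenNorm p x) = energy p x ^ (1 / p) := by
  rw [h.energy_eq, ENNReal.ofReal_rpow_of_nonneg
    (tsum_nonneg fun _ => Real.rpow_nonneg (sNum_nonneg _ _) _) (by positivity)]
  rfl

lemma MemSchatten.energy_eq_norm {p : ℝ} (hp : 0 < p) {x : H →L[ℂ] H} (h : MemSchatten p x) :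
    energy p x = ENNReal.ofReal (schattenNorm p x ^ p) := by
  rw [← ENNReal.ofReal_rpow_of_nonneg (schattenNorm_nonneg p x) hp.le, h.ofReal_norm hp,
    ← ENNReal.rpow_mul, one_div_mul_cancel hp.ne', ENNReal.rpow_one]

lemma MemSchatten.norm_le {p : ℝ} (hp : 0 < p) {x : H →L[ℂ] H} (h : MemSchatten p x) :
    ‖x‖ ≤ schattenNorm p x := by
  have h1 : ‖x‖ ^ p ≤ ∑' n : ℕ, sNum x n ^ p := by
    have := h.2.le_tsum 0 (fun n _ => Real.rpow_nonneg (sNum_nonneg _ _) _)
    rwa [sNum_zero_idx] at this
  have h2 := Real.rpow_le_rpow (by positivity) h1 (show 0 ≤ 1 / p by positivity)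
  rwa [← Real.rpow_mul (norm_nonneg _), mul_one_div_cancel hp.ne', Real.rpow_one] at h2

lemma energy_smul {p : ℝ} (hp : 0 ≤ p) (c : ℂ) (x : H →L[ℂ] H) :
    energy p (c • x) = ENNReal.ofReal (‖c‖ ^ p) * energy p x := by
  simp only [energy, sNum_smul]
  rw [← ENNReal.tsum_mul_left]
  congr 1
  ext n
  rw [Real.mul_rpow (norm_nonneg _) (sNum_nonneg _ _), ENNReal.ofReal_mul (by positivity)]

lemma MemSchatten.add [CompleteSpace H] {p : ℝ} (hp : 1 ≤ p) {x y : H →L[ℂ] H}
    (hx : MemSchatten p x) (hy : MemSchatten p y) : MemSchatten p (x + y) := by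
  rw [memSchatten_iff] at *
  refine ⟨hx.1.add hy.1, ?_⟩
  have h := energy_add hx.1 hy.1 hp
  have h1 : energy p (x + y) ^ (1 / p) ≠ ⊤ := by
    apply ne_top_of_le_ne_top _ h
    apply ENNReal.add_ne_top.2
    exact ⟨ENNReal.rpow_ne_top_of_nonneg (by positivity) hx.2,
      ENNReal.rpow_ne_top_of_nonneg (by positivity) hy.2⟩
  intro h2
  rw [h2] at h1
  apply h1
  exact ENNReal.top_rpow_of_pos (by positivity)

lemma MemSchatten.smul {p : ℝ} (hp : 0 ≤ p) (c : ℂ) {x : H →L[ℂ] H}
    (hx : MemSchatten p x) : MemSchatten p (c • x) := by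
  rw [memSchatten_iff] at *
  refine ⟨hx.1.smul c, ?_⟩
  rw [energy_smul hp]
  exact ENNReal.mul_ne_top ENNReal.ofReal_ne_top hx.2

lemma memSchatten_zero {p : ℝ} (hp : 0 < p) : MemSchatten p (0 : H →L[ℂ] H) := by
  refine ⟨isCompactOperator_zero, ?_⟩
  have : ∀ n, sNum (0 : H →L[ℂ] H) n = 0 := fun n => sNum_eq_zero_of_rank _ _ (by simp)
  simp [this, Real.zero_rpow hp.ne']

/-- `S_p(H)` as a linear subspace of the bounded operators. -/
def schattenSubmodule (p : ℝ) [hp : Fact (1 ≤ p)] (H : Type u) [NormedAddCommGroup H]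
    [InnerProductSpace ℂ H] [CompleteSpace H] : Submodule ℂ (H →L[ℂ] H) where
  carrier := {x | MemSchatten p x}
  zero_mem' := memSchatten_zero (lt_of_lt_of_le one_pos hp.out)
  add_mem' := fun hx hy => MemSchatten.add hp.out hx hy
  smul_mem' := fun c _ hx => MemSchatten.smul (le_trans zero_le_one hp.out) c hx

end defs

/-- The Schatten–von Neumann class `S_p(H)`, `1 ≤ p < ∞`. -/
def Sp (p : ℝ) [Fact (1 ≤ p)] (H : Type u) [NormedAddCommGroup H] [InnerProductSpace ℂ H]
    [CompleteSpace H] : Type u := schattenSubmodule p H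

namespace Sp

variable {p : ℝ} [hp : Fact (1 ≤ p)] {H : Type u} [NormedAddCommGroup H] [InnerProductSpace ℂ H]
  [CompleteSpace H]

noncomputable instance : AddCommGroup (Sp p H) :=
  inferInstanceAs (AddCommGroup (schattenSubmodule p H))

noncomputable instance : Module ℂ (Sp p H) :=
  inferInstanceAs (Module ℂ (schattenSubmodule p H))

/-- The operator underlying an element of `S_p`. -/
def op (x : Sp p H) : H →L[ℂ] H := (x : schattenSubmodule p H).1

lemma mem (x : Sp p H) : MemSchatten p x.op := (x : schattenSubmodule p H).2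

/-- Element of `S_p` given by an operator with `∑ s_n^p < ∞`. -/
def mk (x : H →L[ℂ] H) (hx : MemSchatten p x) : Sp p H := (⟨x, hx⟩ : schattenSubmodule p H)

@[simp] lemma op_mk (x : H →L[ℂ] H) (hx : MemSchatten p x) : (mk x hx).op = x := rfl
@[simp] lemma op_zero : (0 : Sp p H).op = 0 := rfl
@[simp] lemma op_add (x y : Sp p H) : (x + y).op = x.op + y.op := rfl
@[simp] lemma op_neg (x : Sp p H) : (-x).op = -x.op := rfl
@[simp] lemma op_sub (x y : Sp p H) : (x - y).op = x.op - y.op := rfl
@[simp] lemma op_smul (c : ℂ) (x : Sp p H) : (c • x).op = c • x.op := rfl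

lemma op_injective {x y : Sp p H} (h : x.op = y.op) : x = y := Subtype.ext h

lemma pos : 0 < p := lt_of_lt_of_le one_pos hp.out

/-- the Schatten `p`-norm on `S_p` -/
noncomputable def groupNorm : AddGroupNorm (Sp p H) where
  toFun x := schattenNorm p x.op
  map_zero' := by
    have h0 := (memSchatten_zero (H := H) (pos (p := p)))
    have : ∀ n, sNum (0 : H →L[ℂ] H) n = 0 := fun n => sNum_eq_zero_of_rank _ _ (by simp)
    simp only [op_zero, schattenNorm, this, Real.zero_rpow (pos (p := p)).ne', tsum_zero]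
    exact Real.zero_rpow (by have := pos (p := p); positivity)
  add_le' x y := by
    have h := energy_add x.mem.1 y.mem.1 hp.out
    rw [← x.mem.ofReal_norm pos, ← y.mem.ofReal_norm pos] at h
    have h2 := (x + y).mem.ofReal_norm (pos (p := p))
    rw [op_add] at h2 ⊢
    rw [← h2, ← ENNReal.ofReal_add (schattenNorm_nonneg _ _) (schattenNorm_nonneg _ _)] at h
    exact (ENNReal.ofReal_le_ofReal_iff
      (add_nonneg (schattenNorm_nonneg _ _) (schattenNorm_nonneg _ _))).1 h
  neg' x := by
    have h1 : ∀ n, sNum (-x.op) n = sNum x.op n := fun n => by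
      have : -x.op = (-1 : ℂ) • x.op := by simp
      rw [this, sNum_smul]; simp
    simp only [op_neg, schattenNorm, h1]
  eq_zero_of_map_eq_zero' x hx := by
    apply op_injective
    have h1 := x.mem.norm_le (pos (p := p))
    have h2 : ‖x.op‖ = 0 := le_antisymm (h1.trans hx.le) (norm_nonneg _)
    rw [op_zero]
    exact norm_eq_zero.1 h2

noncomputable instance : NormedAddCommGroup (Sp p H) :=
  AddGroupNorm.toNormedAddCommGroup groupNorm

lemma norm_def (x : Sp p H) : ‖x‖ = schattenNorm p x.op := rfl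

noncomputable instance : NormedSpace ℂ (Sp p H) where
  norm_smul_le c x := by
    rw [norm_def, norm_def, op_smul]
    apply le_of_eq
    have hs : Summable fun n : ℕ => sNum x.op n ^ p := x.mem.2
    have hp0 := pos (p := p)
    unfold schattenNorm
    simp_rw [sNum_smul, Real.mul_rpow (norm_nonneg _) (sNum_nonneg _ _)]
    rw [tsum_mul_left, Real.mul_rpow (by positivity)
      (tsum_nonneg fun n => Real.rpow_nonneg (sNum_nonneg _ _) _), ← Real.rpow_mul (norm_nonneg _),
      mul_one_div_cancel hp0.ne', Real.rpow_one]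

end Sp

end SchattenDil
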