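import Mathlib

set_option autoImplicit false

namespace Pool.Agent.Helper808.ShiftUpper

open Finset

/-- Configurations on `r` ordered points: a bit for every finite set of points. -/
abbrev Cfg (r : ℕ) : Type := Finset (Fin r) → Bool

/-- Pull a configuration back along a map. -/
def pull {r s : ℕ} (φ : Fin r → Fin s) (x : Cfg s) : Cfg r := fun S => x (S.image φ)

lemma pull_pull {r s t : ℕ} (φ : Fin r → Fin s) (ψ : Fin s → Fin t) (x : Cfg t) :
    pull φ (pull ψ x) = pull (ψ ∘ φ) x := by
  funext S
  simp [pull, Finset.image_image]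

/-- A spreadable law: a consistent family of probability weights. -/
structure Law where
  w : ∀ r : ℕ, Cfg r → ℝ
  nonneg : ∀ r x, 0 ≤ w r x
  total : ∀ r, ∑ x, w r x = 1
  cons : ∀ {r s : ℕ} (φ : Fin r → Fin s), StrictMono φ →
    ∀ y, ∑ x, (if pull φ x = y then w s x else 0) = w r y

/-- Expectation. -/
def Law.E (P : Law) {r : ℕ} (F : Cfg r → ℝ) : ℝ := ∑ x, P.w r x * F x

lemma Law.E_pull (P : Law) {r s : ℕ} (φ : Fin r → Fin s) (hφ : StrictMono φ) (F : Cfg r → ℝ) :
    P.E (fun x => F (pull φ x)) = P.E F := by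
  unfold Law.E
  have h1 : ∀ x : Cfg s, P.w s x * F (pull φ x) =
      ∑ y, (if pull φ x = y then P.w s x else 0) * F y := by
    intro x
    rw [Finset.sum_eq_single (pull φ x)]
    · simp
    · intro b _ hb
      rw [if_neg (Ne.symm hb), zero_mul]
    · intro h
      exact absurd (Finset.mem_univ _) h
  simp_rw [h1]
  rw [Finset.sum_comm]
  apply Finset.sum_congr rfl
  intro y _
  rw [← Finset.sum_mul, P.cons φ hφ y]

lemma Law.E_add (P : Law) {r : ℕ} (F G : Cfg r → ℝ) :
    P.E (fun x => F x + G x) = P.E F + P.E G := by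
  simp [Law.E, mul_add, Finset.sum_add_distrib]

lemma Law.E_sub (P : Law) {r : ℕ} (F G : Cfg r → ℝ) :
    P.E (fun x => F x - G x) = P.E F - P.E G := by
  simp [Law.E, mul_sub, Finset.sum_sub_distrib]

lemma Law.E_mono (P : Law) {r : ℕ} {F G : Cfg r → ℝ} (h : ∀ x, F x ≤ G x) : P.E F ≤ P.E G :=
  Finset.sum_le_sum fun x _ => mul_le_mul_of_nonneg_left (h x) (P.nonneg r x)

lemma Law.E_const (P : Law) {r : ℕ} (c : ℝ) : P.E (fun _ : Cfg r => c) = c := by
  simp [Law.E, ← Finset.sum_mul, P.total]

lemma Law.E_sum (P : Law) {r : ℕ} {ι : Type*} (s : Finset ι) (F : ι → Cfg r → ℝ) :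
    P.E (fun x => ∑ i ∈ s, F i x) = ∑ i ∈ s, P.E (F i) := by
  simp only [Law.E, Finset.mul_sum]
  rw [Finset.sum_comm]

/-- Cauchy-Schwarz against a function bounded by one. -/
lemma Law.abs_E_mul_le (P : Law) {r : ℕ} (F G : Cfg r → ℝ) (hG : ∀ x, |G x| ≤ 1) (δ : ℝ)
    (hδ : 0 < δ) (h : P.E (fun x => F x ^ 2) ≤ δ ^ 2) : |P.E (fun x => F x * G x)| ≤ δ := by
  have key : ∀ x, |F x * G x| ≤ F x ^ 2 / (2 * δ) + δ / 2 := by
    intro x
    rw [abs_mul]
    have h1 : |F x| * |G x| ≤ |F x| := mul_le_of_le_one_right (abs_nonneg _) (hG x)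
    have h2 : |F x| ≤ F x ^ 2 / (2 * δ) + δ / 2 := by
      have h3 : 0 ≤ (|F x| - δ) ^ 2 := sq_nonneg _
      have h4 : |F x| ^ 2 = F x ^ 2 := sq_abs _
      have h5 : F x ^ 2 / (2 * δ) + δ / 2 - |F x| = (|F x| - δ) ^ 2 / (2 * δ) := by
        field_simp
        nlinarith
      have h6 : 0 ≤ (|F x| - δ) ^ 2 / (2 * δ) := by positivity
      linarith
    exact h1.trans h2
  have h1 : |P.E (fun x => F x * G x)| ≤ P.E (fun x => F x ^ 2 / (2 * δ) + δ / 2) := by
    rw [abs_le]
    constructor
    · have : P.E (fun x => -(F x ^ 2 / (2 * δ) + δ / 2)) ≤ P.E (fun x => F x * G x) :=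
        P.E_mono fun x => by
          have := key x
          rw [abs_le] at this
          linarith
      have h2 : P.E (fun x => -(F x ^ 2 / (2 * δ) + δ / 2)) =
          -P.E (fun x => (F x ^ 2 / (2 * δ) + δ / 2)) := by
        simp only [Law.E, mul_neg, Finset.sum_neg_distrib]
      linarith
    · exact P.E_mono fun x => (le_abs_self _).trans (key x)
  have h2 : P.E (fun x => F x ^ 2 / (2 * δ) + δ / 2) =
      P.E (fun x => F x ^ 2) / (2 * δ) + δ / 2 := by
    rw [P.E_add, P.E_const]
    congr 1
    simp [Law.E, Finset.sum_div, mul_div_assoc]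
  rw [h2] at h1
  have h3 : P.E (fun x => F x ^ 2) / (2 * δ) ≤ δ ^ 2 / (2 * δ) :=
    div_le_div_of_nonneg_right h (by positivity)
  have h4 : δ ^ 2 / (2 * δ) = δ / 2 := by field_simp
  linarith

section Cond

variable {X Y : Type} [Fintype X] [DecidableEq Y]

/-- Conditional mean of `F` given the value `y` of `g`, with a default value. -/
noncomputable def condv (w : X → ℝ) (g : X → Y) (F : X → ℝ) (d : ℝ) (y : Y) : ℝ :=
  if (∑ x, if g x = y then w x else 0) = 0 then d
  else (∑ x, if g x = y then w x * F x else 0) / (∑ x, if g x = y then w x else 0)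

lemma condv_spec [Fintype Y] (w : X → ℝ) (hw : ∀ x, 0 ≤ w x) (g : X → Y) (F : X → ℝ) (d : ℝ)
    (h : Y → ℝ) :
    ∑ x, w x * (F x * h (g x)) = ∑ x, w x * (condv w g F d (g x) * h (g x)) := by
  have hA : ∀ G : X → Y → ℝ, ∑ x, G x (g x) = ∑ y, ∑ x, if g x = y then G x y else 0 := by
    intro G
    rw [Finset.sum_comm]
    apply Finset.sum_congr rfl
    intro x _
    simp
  rw [hA (fun x y => w x * (F x * h y)), hA (fun x y => w x * (condv w g F d y * h y))]
  apply Finset.sum_congr rfl
  intro y _
  have e1 : (∑ x, if g x = y then w x * (F x * h y) else 0) =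
      (∑ x, if g x = y then w x * F x else 0) * h y := by
    rw [Finset.sum_mul]
    apply Finset.sum_congr rfl
    intro x _
    split_ifs <;> ring
  have e2 : (∑ x, if g x = y then w x * (condv w g F d y * h y) else 0) =
      (∑ x, if g x = y then w x else 0) * (condv w g F d y * h y) := by
    rw [Finset.sum_mul]
    apply Finset.sum_congr rfl
    intro x _
    split_ifs <;> ring
  rw [e1, e2]
  by_cases h0 : (∑ x, if g x = y then w x else 0) = 0
  · have hz : ∀ x, (if g x = y then w x else 0) = 0 := by
      intro x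
      have := (Finset.sum_eq_zero_iff_of_nonneg (fun x _ => by
        split_ifs
        · exact hw x
        · exact le_refl _)).1 h0 x (Finset.mem_univ x)
      exact this
    have hn : (∑ x, if g x = y then w x * F x else 0) = 0 := by
      apply Finset.sum_eq_zero
      intro x _
      have := hz x
      split_ifs at this ⊢ with h1
      · rw [this, zero_mul]
      · rfl
    rw [hn, h0]
    ring
  · unfold condv
    rw [if_neg h0]
    field_simp

lemma condv_nonneg (w : X → ℝ) (hw : ∀ x, 0 ≤ w x) (g : X → Y) (F : X → ℝ)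
    (hF : ∀ x, 0 ≤ F x) (d : ℝ) (hd : 0 ≤ d) (y : Y) : 0 ≤ condv w g F d y := by
  unfold condv
  split_ifs
  · exact hd
  · apply div_nonneg
    · apply Finset.sum_nonneg
      intro x _
      split_ifs
      · exact mul_nonneg (hw x) (hF x)
      · exact le_refl _
    · apply Finset.sum_nonneg
      intro x _
      split_ifs
      · exact hw x
      · exact le_refl _

lemma condv_le_one (w : X → ℝ) (hw : ∀ x, 0 ≤ w x) (g : X → Y) (F : X → ℝ)
    (hF : ∀ x, F x ≤ 1) (d : ℝ) (hd : d ≤ 1) (y : Y) : condv w g F d y ≤ 1 := by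
  unfold condv
  split_ifs with h0
  · exact hd
  · have hpos : 0 < (∑ x, if g x = y then w x else 0) := by
      apply lt_of_le_of_ne _ (Ne.symm h0)
      apply Finset.sum_nonneg
      intro x _
      split_ifs
      · exact hw x
      · exact le_refl _
    rw [div_le_one hpos]
    apply Finset.sum_le_sum
    intro x _
    split_ifs
    · exact mul_le_of_le_one_right (hw x) (hF x)
    · exact le_refl _

lemma sum_condv {C : Type} [Fintype C] [DecidableEq C] (w : X → ℝ) (g : X → Y) (f : X → C)
    (c0 : C) (y : Y) :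
    ∑ c, condv w g (fun x => if f x = c then 1 else 0) (if c = c0 then 1 else 0) y = 1 := by
  unfold condv
  by_cases h0 : (∑ x, if g x = y then w x else 0) = 0
  · simp [h0]
  · simp only [h0, if_false]
    rw [← Finset.sum_div, Finset.sum_comm]
    have : ∀ x, (∑ c, if g x = y then w x * (if f x = c then (1 : ℝ) else 0) else 0) =
        if g x = y then w x else 0 := by
      intro x
      split_ifs
      · rw [← Finset.mul_sum]
        simp
      · simp
    simp_rw [this]
    exact div_self h0

end Cond

/-! ### Embeddings of standard configurations -/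

/-- The increasing map `Fin N → Fin N'` that fixes the indices below `l`, shifts the block
`l, ..., l + r - 1` by `min d (N' - N)` and the rest by `N' - N`. -/
def emb {N N' : ℕ} (h : N ≤ N') (l r d : ℕ) (i : Fin N) : Fin N' :=
  ⟨if i.val < l then i.val else if i.val < l + r then i.val + min d (N' - N)
    else i.val + (N' - N), by
      have := i.isLt
      have := Nat.min_le_right d (N' - N)
      split_ifs <;> omega⟩

lemma emb_val {N N' : ℕ} (h : N ≤ N') (l r d : ℕ) (i : Fin N) :
    (emb h l r d i).val = if i.val < l then i.val else if i.val < l + r then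
      i.val + min d (N' - N) else i.val + (N' - N) := rfl

lemma emb_strictMono {N N' : ℕ} (h : N ≤ N') (l r d : ℕ) : StrictMono (emb h l r d) := by
  intro i j hij
  have hij' : i.val < j.val := hij
  rw [Fin.lt_def, emb_val, emb_val]
  have := Nat.min_le_right d (N' - N)
  split_ifs <;> omega

lemma emb_comp {N N' N'' : ℕ} (h : N ≤ N') (h' : N' ≤ N'') (l r d l' r' d' : ℕ)
    (hl : l ≤ l') (hd : d ≤ N' - N) (hd' : d' ≤ N'' - N') (h1 : r = 0 ∨ l' ≤ l + d)
    (h2 : l + d + r ≤ l' + r') (h3 : l' + r' ≤ l + r + (N' - N)) :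
    emb h' l' r' d' ∘ emb h l r d = emb (h.trans h') l r (d + d') := by
  funext i
  apply Fin.ext
  rw [Function.comp_apply, emb_val, emb_val, emb_val]
  have e1 : min d (N' - N) = d := Nat.min_eq_left hd
  have e2 : min d' (N'' - N') = d' := Nat.min_eq_left hd'
  have e3 : min (d + d') (N'' - N) = d + d' := Nat.min_eq_left (by omega)
  rw [e1, e2, e3]
  rcases h1 with h1 | h1
  · split_ifs <;> omega
  · split_ifs <;> omega

/-- A function of configurations that only looks at sets not containing both `p` and `q`. -/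
def Dep {N : ℕ} {β : Type*} (p q : Fin N) (g : Cfg N → β) : Prop :=
  ∀ x y : Cfg N, (∀ S : Finset (Fin N), ¬ (p ∈ S ∧ q ∈ S) → x S = y S) → g x = g y

lemma dep_pull {M N : ℕ} {p q : Fin N} (φ : Fin M → Fin N)
    (h : (∀ i, φ i ≠ p) ∨ (∀ i, φ i ≠ q)) : Dep p q (fun x : Cfg N => pull φ x) := by
  intro x y hxy
  funext S
  apply hxy
  rintro ⟨hp, hq⟩
  rw [Finset.mem_image] at hp hq
  obtain ⟨a, -, ha⟩ := hp
  obtain ⟨b, -, hb⟩ := hq
  rcases h with h | h
  · exact h a ha
  · exact h b hb

lemma Dep.comp {N : ℕ} {β γ : Type*} {p q : Fin N} {g : Cfg N → β} (hg : Dep p q g)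
    (f : β → γ) : Dep p q (fun x => f (g x)) := fun x y hxy => by
  simp only
  rw [hg x y hxy]

lemma Dep.mul {N : ℕ} {p q : Fin N} {g g' : Cfg N → ℝ} (hg : Dep p q g)
    (hg' : Dep p q g') : Dep p q (fun x => g x * g' x) := fun x y hxy => by
  simp only
  rw [hg x y hxy, hg' x y hxy]

lemma Dep.prod {N : ℕ} {ι : Type*} {p q : Fin N} (s : Finset ι) (g : ι → Cfg N → ℝ)
    (hg : ∀ i ∈ s, Dep p q (g i)) : Dep p q (fun x => ∏ i ∈ s, g i x) := fun x y hxy => by
  apply Finset.prod_congr rfl
  intro i hi
  exact hg i hi x y hxy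

/-- Pulling back along an injection that sends `p, q` to `p', q'` preserves `Dep`. -/
lemma Dep.pull_back {M N : ℕ} {β : Type*} {p q : Fin M} {p' q' : Fin N} {g : Cfg M → β}
    (hg : Dep p q g) (ψ : Fin M → Fin N) (hψ : Function.Injective ψ) (hp : ψ p = p')
    (hq : ψ q = q') : Dep p' q' (fun x : Cfg N => g (pull ψ x)) := by
  intro x y hxy
  apply hg
  intro S hS
  apply hxy
  rintro ⟨h1, h2⟩
  apply hS
  rw [Finset.mem_image] at h1 h2
  obtain ⟨a, ha, ha'⟩ := h1
  obtain ⟨b, hb, hb'⟩ := h2
  have e1 : a = p := hψ (ha'.trans hp.symm)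
  have e2 : b = q := hψ (hb'.trans hq.symm)
  subst e1
  subst e2
  exact ⟨ha, hb⟩

/-! ### The standard configuration with a block of length `r + 1` and clusters of size `M` -/

/-- Forget the last point of the block. -/
def jm (M r : ℕ) : Fin (M + r + M) → Fin (M + (r + 1) + M) :=
  emb (by omega) M r 0

/-- Forget the first point of the block. -/
def jp (M r : ℕ) : Fin (M + r + M) → Fin (M + (r + 1) + M) :=
  emb (by omega) M r 1

/-- The pair of labels of the two sub-blocks. -/
def gg (M r : ℕ) (x : Cfg (M + (r + 1) + M)) : Cfg (M + r + M) × Cfg (M + r + M) :=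
  (pull (jm M r) x, pull (jp M r) x)

/-- If `F` only looks at sets that do not contain both ends of the block then it factors
through `gg`. -/
lemma factors_gg {M r : ℕ} {β : Type*} (g : Cfg (M + (r + 1) + M) → β)
    (hg : Dep (⟨M, by omega⟩ : Fin (M + (r + 1) + M)) ⟨M + r, by omega⟩ g)
    (x y : Cfg (M + (r + 1) + M)) (hxy : gg M r x = gg M r y) : g x = g y := by
  apply hg
  intro S hS
  unfold gg at hxy
  rw [Prod.mk.injEq] at hxy
  obtain ⟨h1, h2⟩ := hxy
  rw [not_and_or] at hS
  rcases hS with hS | hS
  · -- the first point is missing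
    have himg : (Finset.univ.filter fun i => jp M r i ∈ S).image (jp M r) = S := by
      ext a
      rw [Finset.mem_image]
      constructor
      · rintro ⟨b, hb, rfl⟩
        exact (Finset.mem_filter.1 hb).2
      · intro ha
        have hne : a.val ≠ M := by
          intro h
          apply hS
          have : a = ⟨M, by omega⟩ := Fin.ext h
          rw [← this]
          exact ha
        have hlt := a.isLt
        refine ⟨⟨if a.val < M then a.val else a.val - 1, by split_ifs <;> omega⟩, ?_, ?_⟩
        · rw [Finset.mem_filter]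
          refine ⟨Finset.mem_univ _, ?_⟩
          convert ha using 1
          apply Fin.ext
          rw [jp, emb_val]
          simp only
          have : min 1 (M + (r + 1) + M - (M + r + M)) = 1 := by omega
          rw [this]
          split_ifs <;> omega
        · apply Fin.ext
          rw [jp, emb_val]
          simp only
          have : min 1 (M + (r + 1) + M - (M + r + M)) = 1 := by omega
          rw [this]
          split_ifs <;> omega
    rw [← himg]
    exact congrFun h2 _
  · have himg : (Finset.univ.filter fun i => jm M r i ∈ S).image (jm M r) = S := by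
      ext a
      rw [Finset.mem_image]
      constructor
      · rintro ⟨b, hb, rfl⟩
        exact (Finset.mem_filter.1 hb).2
      · intro ha
        have hne : a.val ≠ M + r := by
          intro h
          apply hS
          have : a = ⟨M + r, by omega⟩ := Fin.ext h
          rw [← this]
          exact ha
        have hlt := a.isLt
        refine ⟨⟨if a.val < M + r then a.val else a.val - 1, by split_ifs <;> omega⟩, ?_, ?_⟩
        · rw [Finset.mem_filter]
          refine ⟨Finset.mem_univ _, ?_⟩
          convert ha using 1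
          apply Fin.ext
          rw [jm, emb_val]
          simp only
          have : min 0 (M + (r + 1) + M - (M + r + M)) = 0 := by omega
          rw [this]
          split_ifs <;> omega
        · apply Fin.ext
          rw [jm, emb_val]
          simp only
          have : min 0 (M + (r + 1) + M - (M + r + M)) = 0 := by omega
          rw [this]
          split_ifs <;> omega
    rw [← himg]
    exact congrFun h1 _

/-! ### Energies -/

/-- Enlarge the clusters from `m` to `M`. -/
def blk {m M : ℕ} (h : m ≤ M) (r : ℕ) : Fin (m + r + m) → Fin (M + r + M) :=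
  emb (by omega) m r (M - m)

lemma blk_jm {M M' : ℕ} (h : M ≤ M') (r : ℕ) :
    blk h (r + 1) ∘ jm M r = jm M' r ∘ blk h r := by
  unfold blk jm
  rw [emb_comp _ _ _ _ _ _ _ _ (le_refl _) (by omega) (by omega) (by omega) (by omega)
    (by omega), emb_comp _ _ _ _ _ _ _ _ (by omega) (by omega) (by omega) (by omega) (by omega)
    (by omega)]
  congr 1
  omega

lemma blk_jp {M M' : ℕ} (h : M ≤ M') (r : ℕ) :
    blk h (r + 1) ∘ jp M r = jp M' r ∘ blk h r := by
  unfold blk jp
  rw [emb_comp _ _ _ _ _ _ _ _ (le_refl _) (by omega) (by omega) (by omega) (by omega)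
    (by omega), emb_comp _ _ _ _ _ _ _ _ (by omega) (by omega) (by omega) (by omega) (by omega)
    (by omega)]
  congr 1
  omega

lemma blk_comp {m M M' : ℕ} (h : m ≤ M) (h' : M ≤ M') (r : ℕ) :
    blk h' r ∘ blk h r = blk (h.trans h') r := by
  unfold blk
  rw [emb_comp _ _ _ _ _ _ _ _ h (by omega) (by omega) (by omega) (by omega) (by omega)]
  congr 1
  omega

lemma gg_pull_blk {M M' : ℕ} (h : M ≤ M') (r : ℕ) (x : Cfg (M' + (r + 1) + M')) :
    gg M r (pull (blk h (r + 1)) x) =
      (pull (blk h r) (gg M' r x).1, pull (blk h r) (gg M' r x).2) := by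
  unfold gg
  simp only [pull_pull]
  rw [blk_jm, blk_jp]

/-- The indicator that the label with cluster size `m` of the block is `c`. -/
def ind {N N' : ℕ} (φ : Fin N → Fin N') (c : Cfg N) (x : Cfg N') : ℝ :=
  if pull φ x = c then 1 else 0

lemma ind_nonneg {N N' : ℕ} (φ : Fin N → Fin N') (c : Cfg N) (x : Cfg N') :
    0 ≤ ind φ c x := by
  unfold ind
  split_ifs <;> norm_num

lemma ind_le_one {N N' : ℕ} (φ : Fin N → Fin N') (c : Cfg N) (x : Cfg N') :
    ind φ c x ≤ 1 := by
  unfold ind
  split_ifs <;> norm_num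

lemma ind_pull {N N' N'' : ℕ} (φ : Fin N → Fin N') (ψ : Fin N' → Fin N'') (c : Cfg N)
    (x : Cfg N'') : ind φ c (pull ψ x) = ind (ψ ∘ φ) c x := by
  unfold ind
  rw [pull_pull]

/-- The transition kernel: the conditional law of the label (cluster size `m`) of a block of
length `r + 1` given the labels (cluster size `M`) of its two sub-blocks. -/
noncomputable def qk (P : Law) {m M : ℕ} (h : m ≤ M) (r : ℕ) (c : Cfg (m + (r + 1) + m))
    (z : Cfg (M + r + M) × Cfg (M + r + M)) : ℝ :=
  condv (P.w (M + (r + 1) + M)) (gg M r) (ind (blk h (r + 1)) c)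
    (if c = (fun _ => false) then 1 else 0) z

lemma qk_nonneg (P : Law) {m M : ℕ} (h : m ≤ M) (r : ℕ) (c : Cfg (m + (r + 1) + m))
    (z : Cfg (M + r + M) × Cfg (M + r + M)) : 0 ≤ qk P h r c z :=
  condv_nonneg _ (P.nonneg _) _ _ (ind_nonneg _ _) _ (by split_ifs <;> norm_num) _

lemma qk_le_one (P : Law) {m M : ℕ} (h : m ≤ M) (r : ℕ) (c : Cfg (m + (r + 1) + m))
    (z : Cfg (M + r + M) × Cfg (M + r + M)) : qk P h r c z ≤ 1 :=
  condv_le_one _ (P.nonneg _) _ _ (ind_le_one _ _) _ (by split_ifs <;> norm_num) _

lemma sum_qk (P : Law) {m M : ℕ} (h : m ≤ M) (r : ℕ)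
    (z : Cfg (M + r + M) × Cfg (M + r + M)) : ∑ c, qk P h r c z = 1 :=
  sum_condv _ _ (fun x => pull (blk h (r + 1)) x) _ z

/-- The energy of the label value `c`. -/
noncomputable def energy (P : Law) {m M : ℕ} (h : m ≤ M) (r : ℕ) (c : Cfg (m + (r + 1) + m)) :
    ℝ :=
  P.E (fun x : Cfg (M + (r + 1) + M) => qk P h r c (gg M r x) ^ 2)

lemma energy_le_one (P : Law) {m M : ℕ} (h : m ≤ M) (r : ℕ) (c : Cfg (m + (r + 1) + m)) :
    energy P h r c ≤ 1 := by
  have h1 : energy P h r c ≤ P.E (fun _ : Cfg (M + (r + 1) + M) => (1 : ℝ)) := by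
    apply P.E_mono
    intro x
    have h1 := qk_nonneg P h r c (gg M r x)
    have h2 := qk_le_one P h r c (gg M r x)
    exact pow_le_one₀ h1 h2
  rw [P.E_const] at h1
  exact h1

/-- The function of a configuration with cluster size `M'` given by the conditional mean at
cluster size `M`. -/
noncomputable def coarse (P : Law) {m M M' : ℕ} (h : m ≤ M) (h' : M ≤ M') (r : ℕ)
    (c : Cfg (m + (r + 1) + m)) (x : Cfg (M' + (r + 1) + M')) : ℝ :=
  qk P h r c (gg M r (pull (blk h' (r + 1)) x))

lemma energy_diff (P : Law) {m M M' : ℕ} (h : m ≤ M) (h' : M ≤ M') (r : ℕ)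
    (c : Cfg (m + (r + 1) + m)) :
    P.E (fun x : Cfg (M' + (r + 1) + M') =>
      (qk P (h.trans h') r c (gg M' r x) - coarse P h h' r c x) ^ 2) =
      energy P (h.trans h') r c - energy P h r c := by
  have hB : ∀ x : Cfg (M' + (r + 1) + M'), coarse P h h' r c x =
      qk P h r c (pull (blk h' r) (gg M' r x).1, pull (blk h' r) (gg M' r x).2) := by
    intro x
    unfold coarse
    rw [gg_pull_blk]
  -- the mixed term
  have e1 : P.E (fun x : Cfg (M' + (r + 1) + M') =>
      ind (blk (h.trans h') (r + 1)) c x * coarse P h h' r c x) =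
      P.E (fun x : Cfg (M' + (r + 1) + M') =>
        qk P (h.trans h') r c (gg M' r x) * coarse P h h' r c x) := by
    unfold Law.E
    simp_rw [hB]
    exact condv_spec (P.w (M' + (r + 1) + M')) (P.nonneg _) (gg M' r)
      (ind (blk (h.trans h') (r + 1)) c) (if c = (fun _ => false) then 1 else 0)
      (fun z => qk P h r c (pull (blk h' r) z.1, pull (blk h' r) z.2))
  have e2 : P.E (fun x : Cfg (M' + (r + 1) + M') =>
      ind (blk (h.trans h') (r + 1)) c x * coarse P h h' r c x) = energy P h r c := by
    have e3 : (fun x : Cfg (M' + (r + 1) + M') =>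
        ind (blk (h.trans h') (r + 1)) c x * coarse P h h' r c x) =
        fun x => (fun y : Cfg (M + (r + 1) + M) => ind (blk h (r + 1)) c y *
          qk P h r c (gg M r y)) (pull (blk h' (r + 1)) x) := by
      funext x
      simp only
      rw [ind_pull, blk_comp]
      rfl
    rw [e3, P.E_pull (blk h' (r + 1)) (emb_strictMono _ _ _ _)
      (fun y : Cfg (M + (r + 1) + M) => ind (blk h (r + 1)) c y * qk P h r c (gg M r y))]
    unfold energy Law.E
    have := condv_spec (P.w (M + (r + 1) + M)) (P.nonneg _) (gg M r)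
      (ind (blk h (r + 1)) c) (if c = (fun _ => false) then 1 else 0) (fun z => qk P h r c z)
    rw [this]
    apply Finset.sum_congr rfl
    intro x _
    simp only [sq]
    rfl
  have e4 : P.E (fun x : Cfg (M' + (r + 1) + M') => coarse P h h' r c x ^ 2) =
      energy P h r c :=
    P.E_pull (blk h' (r + 1)) (emb_strictMono _ _ _ _)
      (fun y : Cfg (M + (r + 1) + M) => qk P h r c (gg M r y) ^ 2)
  have e5 : P.E (fun x : Cfg (M' + (r + 1) + M') =>
      (qk P (h.trans h') r c (gg M' r x) - coarse P h h' r c x) ^ 2) =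
      P.E (fun x : Cfg (M' + (r + 1) + M') => qk P (h.trans h') r c (gg M' r x) ^ 2) -
      2 * P.E (fun x : Cfg (M' + (r + 1) + M') =>
        qk P (h.trans h') r c (gg M' r x) * coarse P h h' r c x) +
      P.E (fun x : Cfg (M' + (r + 1) + M') => coarse P h h' r c x ^ 2) := by
    unfold Law.E
    rw [Finset.mul_sum, ← Finset.sum_sub_distrib, ← Finset.sum_add_distrib]
    apply Finset.sum_congr rfl
    intro x _
    ring
  rw [e5, ← e1, e2, e4]
  unfold energy
  ring

lemma energy_mono (P : Law) {m M M' : ℕ} (h : m ≤ M) (h' : M ≤ M') (r : ℕ)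
    (c : Cfg (m + (r + 1) + m)) : energy P h r c ≤ energy P (h.trans h') r c := by
  have h1 := energy_diff P h h' r c
  have h2 : 0 ≤ P.E (fun x : Cfg (M' + (r + 1) + M') =>
      (qk P (h.trans h') r c (gg M' r x) - coarse P h h' r c x) ^ 2) :=
    Finset.sum_nonneg fun x _ => mul_nonneg (P.nonneg _ _) (sq_nonneg _)
  linarith

/-- Some cluster size has small energy increments for every label value. -/
lemma exists_cluster (P : Law) (m r n : ℕ) (δ : ℝ) (hδ : 0 < δ) :
    ∃ (M M' : ℕ) (h : m ≤ M) (h' : M ≤ M'), M + n ≤ M' ∧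
      ∀ c : Cfg (m + (r + 1) + m), energy P (h.trans h') r c - energy P h r c ≤ δ := by
  have hle : ∀ j : ℕ, m ≤ m + n * j := fun j => Nat.le_add_right _ _
  let u : ℕ → ℝ := fun j => ∑ c, energy P (hle j) r c
  have hstep : ∀ j : ℕ, m + n * j ≤ m + n * (j + 1) := fun j => by
    rw [Nat.mul_succ]
    omega
  have hmono : Monotone u := by
    apply monotone_nat_of_le_succ
    intro j
    apply Finset.sum_le_sum
    intro c _
    exact energy_mono P (hle j) (hstep j) r c
  have hbdd : BddAbove (Set.range u) := by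
    refine ⟨Fintype.card (Cfg (m + (r + 1) + m)), ?_⟩
    rintro _ ⟨j, rfl⟩
    have : u j ≤ ∑ _c : Cfg (m + (r + 1) + m), (1 : ℝ) :=
      Finset.sum_le_sum fun c _ => energy_le_one P _ r c
    simpa using this
  have hconv := tendsto_atTop_ciSup hmono hbdd
  have hdiff : Filter.Tendsto (fun j => u (j + 1) - u j) Filter.atTop (nhds 0) := by
    have h1 := (Filter.tendsto_add_atTop_iff_nat 1).2 hconv
    have h2 := h1.sub hconv
    rw [sub_self] at h2
    exact h2
  have hev := (hdiff.eventually (gt_mem_nhds hδ)).exists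
  obtain ⟨j, hj⟩ := hev
  refine ⟨m + n * j, m + n * (j + 1), hle j, hstep j, ?_, ?_⟩
  · rw [Nat.mul_succ]
    omega
  · intro c
    have h1 : energy P ((hle j).trans (hstep j)) r c - energy P (hle j) r c ≤
        ∑ c, (energy P ((hle j).trans (hstep j)) r c - energy P (hle j) r c) :=
      Finset.single_le_sum
        (f := fun c => energy P ((hle j).trans (hstep j)) r c - energy P (hle j) r c)
        (fun c _ => sub_nonneg.2 (energy_mono P (hle j) (hstep j) r c)) (Finset.mem_univ c)
    rw [Finset.sum_sub_distrib] at h1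
    exact h1.trans hj.le

/-! ### The key estimate -/

lemma condv_spec' {X Y : Type} [Fintype X] [DecidableEq Y] [Fintype Y] (w : X → ℝ)
    (hw : ∀ x, 0 ≤ w x) (g : X → Y) (F : X → ℝ) (d : ℝ) (ψ : X → ℝ)
    (hψ : ∀ x y, g x = g y → ψ x = ψ y) :
    ∑ x, w x * (F x * ψ x) = ∑ x, w x * (condv w g F d (g x) * ψ x) := by
  classical
  let h : Y → ℝ := fun y => if hy : ∃ x, g x = y then ψ hy.choose else 0
  have hh : ∀ x, ψ x = h (g x) := by
    intro x
    have hy : ∃ x', g x' = g x := ⟨x, rfl⟩
    simp only [h, dif_pos hy]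
    exact (hψ _ _ hy.choose_spec).symm
  simp_rw [hh]
  exact condv_spec w hw g F d h

/-- The block label map: clusters of size `m` inside clusters of size `M`, block of length `r`
at offset `a` among `n` middle points. -/
def lab {m M n r : ℕ} (h : m + r + m ≤ M + n + M) (a : ℕ) :
    Fin (m + r + m) → Fin (M + n + M) := emb h m r (M + a - m)

lemma key_estimate (P : Law) {m M M' n r i : ℕ} (h : m ≤ M) (h' : M ≤ M') (hn : M + n ≤ M')
    (hi : i + (r + 1) ≤ n) (c : Cfg (m + (r + 1) + m)) (δ : ℝ) (hδ : 0 < δ)
    (hE : energy P (h.trans h') r c - energy P h r c ≤ δ ^ 2)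
    (rest : Cfg (M + n + M) → ℝ) (hrest : ∀ x, |rest x| ≤ 1)
    (hdep : Dep (⟨M + i, by omega⟩ : Fin (M + n + M)) ⟨M + i + r, by omega⟩ rest)
    (h1 : m + (r + 1) + m ≤ M + n + M) (h2 : M + r + M ≤ M + n + M) :
    |P.E (fun x : Cfg (M + n + M) => (ind (lab h1 i) c x -
      qk P h r c (pull (lab h2 i) x, pull (lab h2 (i + 1)) x)) * rest x)| ≤ δ := by
  have hN : M + n + M ≤ M' + (r + 1) + M' := by omega
  set ψ : Fin (M + n + M) → Fin (M' + (r + 1) + M') := emb hN (M + i) (r + 1) (M' - (M + i))
    with hψ
  have hψm : StrictMono ψ := emb_strictMono _ _ _ _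
  have c1 : ψ ∘ lab h1 i = blk (h.trans h') (r + 1) := by
    rw [hψ]
    unfold lab blk
    rw [emb_comp _ _ _ _ _ _ _ _ (by omega) (by omega) (by omega) (by omega) (by omega)
      (by omega)]
    congr 1
    omega
  have c2 : ψ ∘ lab h2 i = blk h' (r + 1) ∘ jm M r := by
    rw [hψ]
    unfold lab blk jm
    rw [emb_comp _ _ _ _ _ _ _ _ (by omega) (by omega) (by omega) (by omega) (by omega)
      (by omega), emb_comp _ _ _ _ _ _ _ _ (by omega) (by omega) (by omega) (by omega)
      (by omega) (by omega)]
    congr 1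
    omega
  have c3 : ψ ∘ lab h2 (i + 1) = blk h' (r + 1) ∘ jp M r := by
    rw [hψ]
    unfold lab blk jp
    rw [emb_comp _ _ _ _ _ _ _ _ (by omega) (by omega) (by omega) (by omega) (by omega)
      (by omega), emb_comp _ _ _ _ _ _ _ _ (by omega) (by omega) (by omega) (by omega)
      (by omega) (by omega)]
    congr 1
    omega
  have hdep' : Dep (⟨M', by omega⟩ : Fin (M' + (r + 1) + M')) ⟨M' + r, by omega⟩
      (fun x => rest (pull ψ x)) := by
    apply hdep.pull_back ψ hψm.injective
    · apply Fin.ext
      rw [hψ, emb_val]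
      have e : min (M' - (M + i)) (M' + (r + 1) + M' - (M + n + M)) = M' - (M + i) := by omega
      rw [e]
      simp only
      split_ifs <;> omega
    · apply Fin.ext
      rw [hψ, emb_val]
      have e : min (M' - (M + i)) (M' + (r + 1) + M' - (M + n + M)) = M' - (M + i) := by omega
      rw [e]
      simp only
      split_ifs <;> omega
  have t1 : P.E (fun x : Cfg (M + n + M) => (ind (lab h1 i) c x -
      qk P h r c (pull (lab h2 i) x, pull (lab h2 (i + 1)) x)) * rest x) =
      P.E (fun x : Cfg (M' + (r + 1) + M') => (ind (blk (h.trans h') (r + 1)) c x -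
        coarse P h h' r c x) * rest (pull ψ x)) := by
    rw [← P.E_pull ψ hψm]
    congr 1
    funext x
    rw [ind_pull, c1, pull_pull, pull_pull, c2, c3]
    unfold coarse gg
    rw [pull_pull, pull_pull]
  have t2 : P.E (fun x : Cfg (M' + (r + 1) + M') => (ind (blk (h.trans h') (r + 1)) c x -
        coarse P h h' r c x) * rest (pull ψ x)) =
      P.E (fun x : Cfg (M' + (r + 1) + M') => (qk P (h.trans h') r c (gg M' r x) -
        coarse P h h' r c x) * rest (pull ψ x)) := by
    have s1 : P.E (fun x : Cfg (M' + (r + 1) + M') =>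
        ind (blk (h.trans h') (r + 1)) c x * rest (pull ψ x)) =
        P.E (fun x : Cfg (M' + (r + 1) + M') =>
          qk P (h.trans h') r c (gg M' r x) * rest (pull ψ x)) :=
      condv_spec' (P.w (M' + (r + 1) + M')) (P.nonneg _) (gg M' r)
        (ind (blk (h.trans h') (r + 1)) c) (if c = (fun _ => false) then 1 else 0)
        (fun x => rest (pull ψ x)) (fun x y hxy => factors_gg _ hdep' x y hxy)
    simp_rw [sub_mul]
    rw [P.E_sub, P.E_sub, s1]
  rw [t1, t2]
  apply P.abs_E_mul_le _ _ (fun x => hrest _) δ hδ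
  rw [energy_diff]
  exact hE

/-! ### Telescoping -/

lemma dep_lab_long {m M n r i a : ℕ} (h : m ≤ M) (hi : i + (r + 1) ≤ n)
    (ha : a + (r + 1) ≤ n) (hne : a ≠ i) (h1 : m + (r + 1) + m ≤ M + n + M) :
    Dep (⟨M + i, by omega⟩ : Fin (M + n + M)) ⟨M + i + r, by omega⟩
      (fun x => pull (lab h1 a) x) := by
  apply dep_pull
  have e : min (M + a - m) (M + n + M - (m + (r + 1) + m)) = M + a - m := by omega
  rcases Nat.lt_or_gt_of_ne hne with hlt | hgt
  · right
    intro j hj
    have := congrArg Fin.val hj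
    unfold lab at this
    rw [emb_val, e] at this
    simp only at this
    have := j.isLt
    split_ifs at * <;> omega
  · left
    intro j hj
    have := congrArg Fin.val hj
    unfold lab at this
    rw [emb_val, e] at this
    simp only at this
    have := j.isLt
    split_ifs at * <;> omega

lemma dep_lab_short {M n r i a : ℕ} (hi : i + (r + 1) ≤ n)
    (ha : a + r ≤ n) (h2 : M + r + M ≤ M + n + M) :
    Dep (⟨M + i, by omega⟩ : Fin (M + n + M)) ⟨M + i + r, by omega⟩
      (fun x => pull (lab h2 a) x) := by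
  apply dep_pull
  have e : min (M + a - M) (M + n + M - (M + r + M)) = a := by omega
  rcases Nat.lt_or_ge i a with hlt | hge
  · left
    intro j hj
    have := congrArg Fin.val hj
    unfold lab at this
    rw [emb_val, e] at this
    simp only at this
    have := j.isLt
    split_ifs at * <;> omega
  · right
    intro j hj
    have := congrArg Fin.val hj
    unfold lab at this
    rw [emb_val, e] at this
    simp only at this
    have := j.isLt
    split_ifs at * <;> omega

lemma Dep.pair {N : ℕ} {β γ : Type*} {p q : Fin N} {g : Cfg N → β} {g' : Cfg N → γ}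
    (hg : Dep p q g) (hg' : Dep p q g') : Dep p q (fun x => (g x, g' x)) := fun x y hxy => by
  simp only
  rw [hg x y hxy, hg' x y hxy]

lemma telescope (P : Law) {m M M' n r K : ℕ} (h : m ≤ M) (h' : M ≤ M') (hn : M + n ≤ M')
    (hK : K + r = n) (δ : ℝ) (hδ : 0 < δ)
    (hE : ∀ c : Cfg (m + (r + 1) + m), energy P (h.trans h') r c - energy P h r c ≤ δ ^ 2)
    (v : Fin K → Cfg (m + (r + 1) + m)) (h1 : m + (r + 1) + m ≤ M + n + M)
    (h2 : M + r + M ≤ M + n + M) :
    |P.E (fun x : Cfg (M + n + M) => ∏ a : Fin K, ind (lab h1 a) (v a) x) -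
      P.E (fun x : Cfg (M + n + M) => ∏ a : Fin K,
        qk P h r (v a) (pull (lab h2 a) x, pull (lab h2 (a + 1)) x))| ≤ K * δ := by
  set α : Fin K → Cfg (M + n + M) → ℝ := fun a x => ind (lab h1 a) (v a) x with hα
  set β : Fin K → Cfg (M + n + M) → ℝ := fun a x =>
    qk P h r (v a) (pull (lab h2 a) x, pull (lab h2 (a + 1)) x) with hβ
  set H : ℕ → Cfg (M + n + M) → ℝ := fun j x => ∏ a : Fin K, if a.val < j then β a x else α a x
    with hH
  have hα0 : ∀ a x, 0 ≤ α a x := fun a x => ind_nonneg _ _ _
  have hα1 : ∀ a x, α a x ≤ 1 := fun a x => ind_le_one _ _ _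
  have hβ0 : ∀ a x, 0 ≤ β a x := fun a x => qk_nonneg _ _ _ _ _
  have hβ1 : ∀ a x, β a x ≤ 1 := fun a x => qk_le_one _ _ _ _ _
  have hstep : ∀ j : ℕ, j < K → |P.E (H j) - P.E (H (j + 1))| ≤ δ := by
    intro j hj
    set rest : Cfg (M + n + M) → ℝ := fun x =>
      ∏ a ∈ Finset.univ.erase (⟨j, hj⟩ : Fin K), if a.val < j then β a x else α a x with hrest
    have e1 : ∀ x, H j x - H (j + 1) x = (α ⟨j, hj⟩ x - β ⟨j, hj⟩ x) * rest x := by
      intro x
      simp only [hH, hrest]
      rw [← Finset.mul_prod_erase Finset.univ _ (Finset.mem_univ (⟨j, hj⟩ : Fin K)),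
        ← Finset.mul_prod_erase Finset.univ
          (fun a : Fin K => if a.val < j + 1 then β a x else α a x)
          (Finset.mem_univ (⟨j, hj⟩ : Fin K))]
      have e2 : ∏ a ∈ Finset.univ.erase (⟨j, hj⟩ : Fin K),
          (if a.val < j + 1 then β a x else α a x) =
          ∏ a ∈ Finset.univ.erase (⟨j, hj⟩ : Fin K), (if a.val < j then β a x else α a x) := by
        apply Finset.prod_congr rfl
        intro a ha
        have hne : a.val ≠ j := by
          intro h0
          apply (Finset.mem_erase.1 ha).1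
          exact Fin.ext h0
        have : (a.val < j + 1) ↔ (a.val < j) := by omega
        simp only [this]
      rw [e2]
      simp only [lt_self_iff_false, if_false, Nat.lt_succ_self, if_true]
      ring
    rw [← P.E_sub]
    simp_rw [e1]
    have hrest0 : ∀ x, 0 ≤ rest x := by
      intro x
      apply Finset.prod_nonneg
      intro a _
      split_ifs
      · exact hβ0 a x
      · exact hα0 a x
    have hrest1 : ∀ x, rest x ≤ 1 := by
      intro x
      apply Finset.prod_le_one
      · intro a _
        split_ifs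
        · exact hβ0 a x
        · exact hα0 a x
      · intro a _
        split_ifs
        · exact hβ1 a x
        · exact hα1 a x
    apply key_estimate P h h' hn (by omega) (v ⟨j, hj⟩) δ hδ (hE _) rest _ _ h1 h2
    · intro x
      rw [abs_of_nonneg (hrest0 x)]
      exact hrest1 x
    · apply Dep.prod
      intro a ha
      have hne : a.val ≠ j := by
        intro h0
        apply (Finset.mem_erase.1 ha).1
        exact Fin.ext h0
      have haK := a.isLt
      by_cases hlt : a.val < j
      · simp only [hlt, if_true, hβ]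
        exact ((dep_lab_short (M := M) (n := n) (r := r) (i := j) (a := a.val)
          (by omega) (by omega) h2).pair
          (dep_lab_short (M := M) (n := n) (r := r) (i := j) (a := a.val + 1)
          (by omega) (by omega) h2)).comp (fun z => qk P h r (v a) z)
      · simp only [hlt, if_false, hα]
        exact (dep_lab_long (m := m) (M := M) (n := n) (r := r) (i := j) (a := a.val) h
          (by omega) (by omega) hne h1).comp (fun z => if z = v a then (1 : ℝ) else 0)
  have htot : ∀ j : ℕ, j ≤ K → |P.E (H 0) - P.E (H j)| ≤ j * δ := by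
    intro j
    induction j with
    | zero => intro _; simp
    | succ j ih =>
      intro hj
      have i1 := ih (by omega)
      have i2 := hstep j (by omega)
      have i3 : |P.E (H 0) - P.E (H (j + 1))| ≤
          |P.E (H 0) - P.E (H j)| + |P.E (H j) - P.E (H (j + 1))| := abs_sub_le _ _ _
      push_cast
      linarith
  have hfin := htot K (le_refl _)
  have e0 : H 0 = fun x => ∏ a : Fin K, α a x := by
    funext x
    simp [hH]
  have eK : H K = fun x => ∏ a : Fin K, β a x := by
    funext x
    simp [hH]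
  rw [e0, eK] at hfin
  exact hfin

/-! ### Sums of products over functions -/

lemma sum_prod_univ {Z C : Type} [Fintype Z] [DecidableEq Z] [Fintype C] [DecidableEq C]
    (f : Z → C → ℝ) : ∑ s : Z → C, ∏ b, f b (s b) = ∏ b, ∑ c, f b c := by
  rw [Finset.prod_univ_sum, Fintype.piFinset_univ]

lemma sum_prod_constrained {Z C A : Type} [Fintype Z] [DecidableEq Z] [Fintype C]
    [DecidableEq C] [Fintype A] (f : Z → C → ℝ) (hf : ∀ b, ∑ c, f b c = 1)
    (ι : A → Z) (hι : Function.Injective ι) (v : A → C) :
    ∑ s : Z → C, (if ∀ a, s (ι a) = v a then ∏ b, f b (s b) else 0) = ∏ a, f (ι a) (v a) := by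
  classical
  have h1 : ∀ s : Z → C, (if ∀ a, s (ι a) = v a then ∏ b, f b (s b) else 0) =
      ∏ b, (if ∃ a, ι a = b ∧ v a ≠ s b then 0 else f b (s b)) := by
    intro s
    by_cases h : ∀ a, s (ι a) = v a
    · rw [if_pos h]
      apply Finset.prod_congr rfl
      intro b _
      rw [if_neg]
      rintro ⟨a, rfl, ha⟩
      exact ha (h a).symm
    · rw [if_neg h]
      push Not at h
      obtain ⟨a, ha⟩ := h
      symm
      apply Finset.prod_eq_zero (Finset.mem_univ (ι a))
      rw [if_pos]
      exact ⟨a, rfl, Ne.symm ha⟩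
  simp_rw [h1]
  rw [sum_prod_univ (fun b c => if ∃ a, ι a = b ∧ v a ≠ c then 0 else f b c)]
  rw [← Finset.prod_subset (Finset.subset_univ (Finset.univ.image ι))]
  · rw [Finset.prod_image (fun x _ y _ hxy => hι hxy)]
    apply Finset.prod_congr rfl
    intro a _
    rw [Finset.sum_eq_single (v a)]
    · rw [if_neg]
      rintro ⟨a', ha', hne⟩
      rw [hι ha'] at hne
      exact hne rfl
    · intro c _ hc
      rw [if_pos]
      exact ⟨a, rfl, Ne.symm hc⟩
    · intro h
      exact absurd (Finset.mem_univ _) h
  · intro b _ hb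
    have hno : ∀ c, ¬ ∃ a, ι a = b ∧ v a ≠ c := by
      rintro c ⟨a, rfl, -⟩
      exact hb (Finset.mem_image_of_mem ι (Finset.mem_univ a))
    simp only [hno, if_false]
    exact hf b

/-! ### The cyclic model -/

/-- The law of the labels (cluster size `m`) of the `K` blocks of length `r` among `n`
points, `K + r = n + 1`. -/
noncomputable def PL (P : Law) {m n r K : ℕ} (hr : m + r + m ≤ m + n + m)
    (v : Fin K → Cfg (m + r + m)) : ℝ :=
  P.E (fun x : Cfg (m + n + m) => ∏ a : Fin K, ind (lab hr a) (v a) x)

lemma PL_eq (P : Law) {m M n r K : ℕ} (h : m ≤ M) (hr : m + r + m ≤ m + n + m)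
    (h1 : m + r + m ≤ M + n + M) (hK : K + r = n + 1) (v : Fin K → Cfg (m + r + m)) :
    P.E (fun x : Cfg (M + n + M) => ∏ a : Fin K, ind (lab h1 a) (v a) x) = PL P hr v := by
  unfold PL
  rw [← P.E_pull (blk h n) (emb_strictMono _ _ _ _)]
  congr 1
  funext x
  apply Finset.prod_congr rfl
  intro a _
  have ha := a.isLt
  rw [ind_pull]
  congr 1
  unfold lab blk
  rw [emb_comp _ _ _ _ _ _ _ _ (by omega) (by omega) (by omega) (by omega) (by omega)
    (by omega)]
  congr 1
  omega

lemma PL_nonneg (P : Law) {m n r K : ℕ} (hr : m + r + m ≤ m + n + m)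
    (v : Fin K → Cfg (m + r + m)) : 0 ≤ PL P hr v :=
  Finset.sum_nonneg fun _ _ => mul_nonneg (P.nonneg _ _)
    (Finset.prod_nonneg fun _ _ => ind_nonneg _ _ _)

/-- Expectation of a function of the labels. -/
lemma E_labels (P : Law) {m n r K : ℕ} (hr : m + r + m ≤ m + n + m)
    (G : (Fin K → Cfg (m + r + m)) → ℝ) :
    P.E (fun x : Cfg (m + n + m) => G (fun a => pull (lab hr a) x)) =
      ∑ v, PL P hr v * G v := by
  unfold PL Law.E
  simp_rw [Finset.sum_mul]
  rw [Finset.sum_comm]
  apply Finset.sum_congr rfl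
  intro x _
  symm
  rw [Finset.sum_eq_single (fun a : Fin K => pull (lab hr (a : ℕ)) x)]
  · have : ∏ a : Fin K, ind (lab hr a) (pull (lab hr a) x) x = 1 := by
      apply Finset.prod_eq_one
      intro a _
      simp [ind]
    rw [this]
    ring
  · intro v _ hv
    have : ∏ a : Fin K, ind (lab hr a) (v a) x = 0 := by
      have : ∃ a, v a ≠ pull (lab hr a) x := by
        by_contra hcon
        push Not at hcon
        exact hv (funext hcon)
      obtain ⟨a, ha⟩ := this
      apply Finset.prod_eq_zero (Finset.mem_univ a)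
      unfold ind
      rw [if_neg (Ne.symm ha)]
    rw [this]
    ring
  · intro h
    exact absurd (Finset.mem_univ _) h

/-- There is a rotation invariant law on cyclic sequences of labels whose restriction to the
first `K` positions is close to the true law of labels. -/
def Approx (P : Law) (n : ℕ) [NeZero n] (m r K : ℕ) (hr : m + r + m ≤ m + n + m) (ε : ℝ) :
    Prop :=
  ∃ D : (ZMod n → Cfg (m + r + m)) → ℝ, (∀ s, 0 ≤ D s) ∧ ∑ s, D s = 1 ∧
    (∀ s, D (fun a => s (a + 1)) = D s) ∧
    ∑ v : Fin K → Cfg (m + r + m),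
      |∑ s, (if ∀ a : Fin K, s ((a : ℕ) : ZMod n) = v a then D s else 0) - PL P hr v| ≤ ε

lemma approx_zero (P : Law) (n : ℕ) [NeZero n] (m : ℕ) (hr : m + 0 + m ≤ m + n + m) :
    Approx P n m 0 (n + 1) hr 0 := by
  classical
  refine ⟨fun s => ∑ z, if s = (fun _ => z) then P.w (m + 0 + m) z else 0, ?_, ?_, ?_, ?_⟩
  · intro s
    apply Finset.sum_nonneg
    intro z _
    split_ifs
    · exact P.nonneg _ _
    · exact le_refl _
  · rw [Finset.sum_comm]
    have : ∀ z : Cfg (m + 0 + m), (∑ s : ZMod n → Cfg (m + 0 + m),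
        if s = (fun _ => z) then P.w (m + 0 + m) z else 0) = P.w (m + 0 + m) z := by
      intro z
      simp
    simp_rw [this]
    exact P.total _
  · intro s
    apply Finset.sum_congr rfl
    intro z _
    have : ((fun a => s (a + 1)) = fun _ => z) ↔ (s = fun _ => z) := by
      constructor
      · intro h
        funext a
        have := congrFun h (a - 1)
        simpa using this
      · intro h
        rw [h]
    simp only [this]
  · have key : ∀ v : Fin (n + 1) → Cfg (m + 0 + m),
        ∑ s : ZMod n → Cfg (m + 0 + m), (if ∀ a : Fin (n + 1), s ((a : ℕ) : ZMod n) = v a then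
          (∑ z, if s = (fun _ => z) then P.w (m + 0 + m) z else 0) else 0) = PL P hr v := by
      intro v
      have e1 : ∀ s : ZMod n → Cfg (m + 0 + m),
          (if ∀ a : Fin (n + 1), s ((a : ℕ) : ZMod n) = v a then
          (∑ z, if s = (fun _ => z) then P.w (m + 0 + m) z else 0) else 0) =
          ∑ z, (if s = (fun _ => z) then (if ∀ a, z = v a then P.w (m + 0 + m) z else 0)
            else 0) := by
        intro s
        by_cases h : ∀ a : Fin (n + 1), s ((a : ℕ) : ZMod n) = v a
        · rw [if_pos h]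
          apply Finset.sum_congr rfl
          intro z _
          by_cases hs : s = fun _ => z
          · have hz : ∀ a, z = v a := by
              intro a
              rw [← h a, hs]
            rw [if_pos hs, if_pos hs, if_pos hz]
          · rw [if_neg hs, if_neg hs]
        · rw [if_neg h]
          symm
          apply Finset.sum_eq_zero
          intro z _
          by_cases hs : s = fun _ => z
          · rw [if_pos hs, if_neg]
            intro hz
            apply h
            intro a
            rw [hs]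
            exact hz a
          · rw [if_neg hs]
      simp_rw [e1]
      rw [Finset.sum_comm]
      have e2 : ∀ z : Cfg (m + 0 + m), (∑ s : ZMod n → Cfg (m + 0 + m),
          if s = (fun _ => z) then (if ∀ a, z = v a then P.w (m + 0 + m) z else 0) else 0) =
          if ∀ a, z = v a then P.w (m + 0 + m) z else 0 := by
        intro z
        simp
      simp_rw [e2]
      unfold PL
      have e3 : ∀ (a : Fin (n + 1)), lab hr a = (lab hr 0 : Fin (m + 0 + m) → _) := by
        intro a
        funext j
        apply Fin.ext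
        unfold lab
        rw [emb_val, emb_val]
        split_ifs <;> omega
      have e4 : ∀ x : Cfg (m + n + m), ∏ a : Fin (n + 1), ind (lab hr a) (v a) x =
          if ∀ a, pull (lab hr 0) x = v a then 1 else 0 := by
        intro x
        simp_rw [e3]
        unfold ind
        by_cases h : ∀ a, pull (lab hr 0) x = v a
        · rw [if_pos h]
          apply Finset.prod_eq_one
          intro a _
          rw [if_pos (h a)]
        · rw [if_neg h]
          push Not at h
          obtain ⟨a, ha⟩ := h
          apply Finset.prod_eq_zero (Finset.mem_univ a)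
          rw [if_neg ha]
      simp_rw [e4]
      rw [P.E_pull (lab hr 0) (emb_strictMono _ _ _ _)
        (fun z => if ∀ a, z = v a then (1 : ℝ) else 0)]
      unfold Law.E
      apply Finset.sum_congr rfl
      intro z _
      by_cases hz : ∀ a, z = v a
      · simp only [if_pos hz, mul_one]
      · simp only [if_neg hz, mul_zero]
    apply le_of_eq
    apply Finset.sum_eq_zero
    intro v _
    have := key v
    rw [this]
    simp

/-- Group a sum over `s'` by the restriction of `s'` to the positions `0, ..., K - 1`. -/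
lemma sum_group {n K : ℕ} [NeZero n] {C : Type} [Fintype C] [DecidableEq C]
    (D : (ZMod n → C) → ℝ) (G : (Fin K → C) → ℝ) :
    ∑ s : ZMod n → C, D s * G (fun a => s ((a : ℕ) : ZMod n)) =
      ∑ u : Fin K → C, (∑ s : ZMod n → C,
        if ∀ a : Fin K, s ((a : ℕ) : ZMod n) = u a then D s else 0) * G u := by
  simp_rw [Finset.sum_mul]
  rw [Finset.sum_comm]
  apply Finset.sum_congr rfl
  intro s _
  symm
  rw [Finset.sum_eq_single (fun a : Fin K => s ((a : ℕ) : ZMod n))]
  · simp
  · intro u _ hu
    rw [if_neg, zero_mul]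
    intro h
    exact hu (funext fun a => (h a).symm)
  · intro h
    exact absurd (Finset.mem_univ _) h

lemma approx_step (P : Law) (n : ℕ) [NeZero n] {m M M' r K : ℕ} (h : m ≤ M) (h' : M ≤ M')
    (hn : M + n ≤ M') (hK : K + r = n) (δ : ℝ) (hδ : 0 < δ)
    (hE : ∀ c : Cfg (m + (r + 1) + m), energy P (h.trans h') r c - energy P h r c ≤ δ ^ 2)
    (hr1 : m + (r + 1) + m ≤ m + n + m) (hr2 : M + r + M ≤ M + n + M) (ε : ℝ)
    (hA : Approx P n M r (K + 1) hr2 ε) :
    Approx P n m (r + 1) K hr1
      (ε + (Fintype.card (Cfg (m + (r + 1) + m)) : ℝ) ^ K * (K * δ)) := by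
  classical
  obtain ⟨D, hD0, hD1, hDr, hDl⟩ := hA
  let W : (ZMod n → Cfg (M + r + M)) → (ZMod n → Cfg (m + (r + 1) + m)) → ℝ :=
    fun t s => ∏ a : ZMod n, qk P h r (s a) (t a, t (a + 1))
  have hW0 : ∀ t s, 0 ≤ W t s := fun t s => Finset.prod_nonneg fun a _ => qk_nonneg _ _ _ _ _
  have hW1 : ∀ t, ∑ s, W t s = 1 := by
    intro t
    have := sum_prod_univ (fun (a : ZMod n) (c : Cfg (m + (r + 1) + m)) =>
      qk P h r c (t a, t (a + 1)))
    simp only [W]
    rw [this]
    apply Finset.prod_eq_one
    intro a _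
    exact sum_qk P h r _
  refine ⟨fun s => ∑ t, D t * W t s, ?_, ?_, ?_, ?_⟩
  · intro s
    exact Finset.sum_nonneg fun t _ => mul_nonneg (hD0 t) (hW0 t s)
  · rw [Finset.sum_comm]
    simp_rw [← Finset.mul_sum, hW1, mul_one]
    exact hD1
  · intro s
    let e : (ZMod n → Cfg (M + r + M)) ≃ (ZMod n → Cfg (M + r + M)) :=
      Equiv.arrowCongr (Equiv.addRight (-1 : ZMod n)) (Equiv.refl _)
    have he : ∀ t a, e t a = t (a + 1) := by
      intro t a
      simp [e, Equiv.arrowCongr]
    show ∑ t, D t * W t (fun a => s (a + 1)) = ∑ t, D t * W t s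
    rw [← Equiv.sum_comp e]
    apply Finset.sum_congr rfl
    intro t _
    have h1 : D (e t) = D t := by
      rw [← hDr t]
      congr 1
      funext a
      exact he t a
    have h2 : W (e t) (fun a => s (a + 1)) = W t s := by
      simp only [W, he]
      exact Equiv.prod_comp (Equiv.addRight (1 : ZMod n))
        (fun a => qk P h r (s a) (t a, t (a + 1)))
    rw [h1, h2]
  · -- the linear marginals
    have hinj : Function.Injective (fun a : Fin K => ((a : ℕ) : ZMod n)) := by
      intro a b hab
      simp only at hab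
      rw [ZMod.natCast_eq_natCast_iff'] at hab
      have ha := a.isLt
      have hb := b.isLt
      rw [Nat.mod_eq_of_lt (by omega), Nat.mod_eq_of_lt (by omega)] at hab
      exact Fin.ext hab
    let Q : (Fin K → Cfg (m + (r + 1) + m)) → (Fin (K + 1) → Cfg (M + r + M)) → ℝ :=
      fun v u => ∏ a : Fin K, qk P h r (v a) (u a.castSucc, u a.succ)
    have hQ0 : ∀ v u, 0 ≤ Q v u := fun v u =>
      Finset.prod_nonneg fun a _ => qk_nonneg _ _ _ _ _
    have hQ1 : ∀ u, ∑ v, Q v u = 1 := by
      intro u
      have := sum_prod_univ (fun (a : Fin K) (c : Cfg (m + (r + 1) + m)) =>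
        qk P h r c (u a.castSucc, u a.succ))
      simp only [Q]
      rw [this]
      apply Finset.prod_eq_one
      intro a _
      exact sum_qk P h r _
    let L' : (Fin (K + 1) → Cfg (M + r + M)) → ℝ := fun u =>
      ∑ t, if ∀ a : Fin (K + 1), t ((a : ℕ) : ZMod n) = u a then D t else 0
    have hL : ∀ v : Fin K → Cfg (m + (r + 1) + m),
        ∑ s : ZMod n → Cfg (m + (r + 1) + m),
          (if ∀ a : Fin K, s ((a : ℕ) : ZMod n) = v a then ∑ t, D t * W t s else 0) =
          ∑ u, L' u * Q v u := by
      intro v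
      have e1 : ∀ s : ZMod n → Cfg (m + (r + 1) + m),
          (if ∀ a : Fin K, s ((a : ℕ) : ZMod n) = v a then ∑ t, D t * W t s else 0) =
          ∑ t, D t * (if ∀ a : Fin K, s ((a : ℕ) : ZMod n) = v a then W t s else 0) := by
        intro s
        split_ifs
        · rfl
        · simp
      simp_rw [e1]
      rw [Finset.sum_comm]
      simp_rw [← Finset.mul_sum]
      have e2 : ∀ t : ZMod n → Cfg (M + r + M),
          (∑ s : ZMod n → Cfg (m + (r + 1) + m),
            if ∀ a : Fin K, s ((a : ℕ) : ZMod n) = v a then W t s else 0) =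
          Q v (fun a => t ((a : ℕ) : ZMod n)) := by
        intro t
        have := sum_prod_constrained (fun (a : ZMod n) (c : Cfg (m + (r + 1) + m)) =>
          qk P h r c (t a, t (a + 1))) (fun a => sum_qk P h r _)
          (fun a : Fin K => ((a : ℕ) : ZMod n)) hinj v
        refine Eq.trans (Eq.trans ?_ this) ?_
        · apply Finset.sum_congr rfl
          intro s _
          by_cases hs : ∀ a : Fin K, s ((a : ℕ) : ZMod n) = v a
          · rw [if_pos hs, if_pos hs]
          · rw [if_neg hs, if_neg hs]
        simp only [Q]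
        apply Finset.prod_congr rfl
        intro a _
        have : (((a.succ : Fin (K + 1)) : ℕ) : ZMod n) = ((a : ℕ) : ZMod n) + 1 := by
          rw [Fin.val_succ]
          push_cast
          rfl
        rw [this]
        rfl
      simp_rw [e2]
      exact sum_group D (Q v)
    have hR : ∀ v : Fin K → Cfg (m + (r + 1) + m),
        |∑ u, PL P hr2 u * Q v u - PL P hr1 v| ≤ K * δ := by
      intro v
      have h1 : m + (r + 1) + m ≤ M + n + M := by omega
      have t1 := telescope P h h' hn hK δ hδ hE v h1 hr2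
      rw [PL_eq P h hr1 h1 (by omega) v] at t1
      have t2 := E_labels P hr2 (K := K + 1) (Q v)
      rw [← t2, abs_sub_comm]
      have t3 : (fun x : Cfg (M + n + M) => Q v (fun a : Fin (K + 1) =>
          pull (lab hr2 (a : ℕ)) x)) = fun x => ∏ a : Fin K,
          qk P h r (v a) (pull (lab hr2 a) x, pull (lab hr2 (a + 1)) x) := by
        funext x
        simp only [Q]
        apply Finset.prod_congr rfl
        intro a _
        rfl
      rw [t3]
      exact t1
    calc ∑ v : Fin K → Cfg (m + (r + 1) + m),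
        |∑ s : ZMod n → Cfg (m + (r + 1) + m),
          (if ∀ a : Fin K, s ((a : ℕ) : ZMod n) = v a then ∑ t, D t * W t s else 0) -
            PL P hr1 v|
        ≤ ∑ v : Fin K → Cfg (m + (r + 1) + m),
          (∑ u, |L' u - PL P hr2 u| * Q v u + K * δ) := by
          apply Finset.sum_le_sum
          intro v _
          rw [hL v]
          have s1 : ∑ u, L' u * Q v u - PL P hr1 v =
              (∑ u, (L' u - PL P hr2 u) * Q v u) +
                (∑ u, PL P hr2 u * Q v u - PL P hr1 v) := by
            simp_rw [sub_mul]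
            rw [Finset.sum_sub_distrib]
            ring
          rw [s1]
          refine (abs_add_le _ _).trans (add_le_add ?_ (hR v))
          refine (Finset.abs_sum_le_sum_abs _ _).trans (le_of_eq ?_)
          apply Finset.sum_congr rfl
          intro u _
          rw [abs_mul, abs_of_nonneg (hQ0 v u)]
      _ = ∑ u, |L' u - PL P hr2 u| +
          (Fintype.card (Cfg (m + (r + 1) + m)) : ℝ) ^ K * (K * δ) := by
          rw [Finset.sum_add_distrib, Finset.sum_comm]
          congr 1
          · apply Finset.sum_congr rfl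
            intro u _
            rw [← Finset.mul_sum, hQ1, mul_one]
          · rw [Finset.sum_const, Finset.card_univ, nsmul_eq_mul]
            congr 1
            rw [Fintype.card_fun, Fintype.card_fin]
            push_cast
            rfl
      _ ≤ ε + (Fintype.card (Cfg (m + (r + 1) + m)) : ℝ) ^ K * (K * δ) := by
          have : ∑ u, |L' u - PL P hr2 u| ≤ ε := hDl
          linarith

lemma approx_all (P : Law) (n : ℕ) [NeZero n] (r : ℕ) :
    ∀ (m K : ℕ) (_ : K + r = n + 1) (_ : 1 ≤ K) (hr : m + r + m ≤ m + n + m) (ε : ℝ),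
      0 < ε → Approx P n m r K hr ε := by
  induction r with
  | zero =>
    intro m K hK _ hr ε hε
    have : K = n + 1 := by omega
    subst this
    obtain ⟨D, h0, h1, h2, h3⟩ := approx_zero P n m hr
    exact ⟨D, h0, h1, h2, h3.trans hε.le⟩
  | succ r ih =>
    intro m K hK hK1 hr ε hε
    set B : ℝ := (Fintype.card (Cfg (m + (r + 1) + m)) : ℝ) ^ K * K with hB
    have hBpos : 0 < B := by
      have : 0 < Fintype.card (Cfg (m + (r + 1) + m)) := Fintype.card_pos
      have h1 : (0 : ℝ) < (Fintype.card (Cfg (m + (r + 1) + m)) : ℝ) := by exact_mod_cast this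
      have h2 : (0 : ℝ) < K := by exact_mod_cast hK1
      positivity
    set δ : ℝ := ε / (2 * B) with hδ
    have hδpos : 0 < δ := by positivity
    obtain ⟨M, M', h, h', hn, hE⟩ := exists_cluster P m r n (δ ^ 2) (by positivity)
    have hr2 : M + r + M ≤ M + n + M := by omega
    have hA := ih M (K + 1) (by omega) (by omega) hr2 (ε / 2) (by positivity)
    obtain ⟨D, h0, h1, h2, h3⟩ := approx_step P n h h' hn (K := K) (by omega) δ
      hδpos hE hr hr2 (ε / 2) hA
    refine ⟨D, h0, h1, h2, h3.trans (le_of_eq ?_)⟩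
    have : (Fintype.card (Cfg (m + (r + 1) + m)) : ℝ) ^ K * (K * δ) = B * δ := by
      rw [hB]
      ring
    rw [this, hδ]
    field_simp
    norm_num

/-! ### The upper bound -/

/-- On a cyclic sequence of bits there are at most `n / 2` places with the pattern `10`. -/
lemma card_pattern_le (n : ℕ) [NeZero n] (b : ZMod n → Bool) :
    (Finset.univ.filter fun a => b a = true ∧ b (a + 1) = false).card ≤ n / 2 := by
  classical
  rw [Nat.le_div_iff_mul_le (by norm_num)]
  set A := Finset.univ.filter fun a => b a = true ∧ b (a + 1) = false with hA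
  have h1 : Disjoint A (A.image (fun a => a + 1)) := by
    rw [Finset.disjoint_left]
    intro a ha ha'
    rw [Finset.mem_image] at ha'
    obtain ⟨c, hc, rfl⟩ := ha'
    rw [hA, Finset.mem_filter] at ha hc
    rw [hc.2.2] at ha
    exact absurd ha.2.1 (by simp)
  have h2 : (A.image (fun a => a + 1)).card = A.card :=
    Finset.card_image_of_injective _ (add_left_injective 1)
  have h3 : (A ∪ A.image (fun a => a + 1)).card ≤ n := by
    refine (Finset.card_le_univ _).trans (le_of_eq (ZMod.card n))
  rw [Finset.card_union_of_disjoint h1, h2] at h3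
  omega

lemma upper_cyclic (n : ℕ) [NeZero n] {C : Type} [Fintype C] [DecidableEq C]
    (D : (ZMod n → C) → ℝ) (h0 : ∀ s, 0 ≤ D s) (h1 : ∑ s, D s = 1)
    (h2 : ∀ s, D (fun a => s (a + 1)) = D s) (f : C → Bool) :
    ∑ s, D s * (if f (s 0) = true ∧ f (s 1) = false then 1 else 0) ≤
      ((n / 2 : ℕ) : ℝ) / n := by
  classical
  set F : (ZMod n → C) → ZMod n → ℝ := fun s a =>
    if f (s a) = true ∧ f (s (a + 1)) = false then 1 else 0 with hF
  have hstep : ∀ a : ZMod n, ∑ s, D s * F s (a + 1) = ∑ s, D s * F s a := by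
    intro a
    let e : (ZMod n → C) ≃ (ZMod n → C) :=
      Equiv.arrowCongr (Equiv.addRight (-1 : ZMod n)) (Equiv.refl _)
    have he : ∀ t a, e t a = t (a + 1) := by
      intro t a
      simp [e, Equiv.arrowCongr]
    rw [← Equiv.sum_comp e (fun s => D s * F s a)]
    apply Finset.sum_congr rfl
    intro s _
    have e1 : D (e s) = D s := by
      rw [← h2 s]
      congr 1
      funext a
      exact he s a
    rw [e1]
    simp only [hF, he]
  have hnat : ∀ j : ℕ, ∑ s, D s * F s (j : ZMod n) = ∑ s, D s * F s 0 := by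
    intro j
    induction j with
    | zero => simp
    | succ j ih =>
      have := hstep (j : ZMod n)
      push_cast
      rw [this, ih]
  have hall : ∀ a : ZMod n, ∑ s, D s * F s a = ∑ s, D s * F s 0 := by
    intro a
    have := hnat a.val
    rw [ZMod.natCast_val, ZMod.cast_id] at this
    exact this
  have hsum : (n : ℝ) * ∑ s, D s * F s 0 = ∑ s, D s * ∑ a, F s a := by
    have : ∑ a : ZMod n, ∑ s, D s * F s a = ∑ a : ZMod n, ∑ s, D s * F s 0 :=
      Finset.sum_congr rfl fun a _ => hall a
    rw [Finset.sum_const, Finset.card_univ, ZMod.card, nsmul_eq_mul] at this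
    rw [← this, Finset.sum_comm]
    simp_rw [Finset.mul_sum]
  have hle : ∑ s, D s * ∑ a, F s a ≤ ((n / 2 : ℕ) : ℝ) := by
    calc ∑ s, D s * ∑ a, F s a ≤ ∑ s, D s * ((n / 2 : ℕ) : ℝ) := by
          apply Finset.sum_le_sum
          intro s _
          apply mul_le_mul_of_nonneg_left _ (h0 s)
          have := card_pattern_le n (fun a => f (s a))
          simp only [hF]
          rw [Finset.sum_boole]
          exact_mod_cast this
      _ = ((n / 2 : ℕ) : ℝ) := by rw [← Finset.sum_mul, h1, one_mul]
  have hn : (0 : ℝ) < n := by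
    have := NeZero.ne n
    positivity
  rw [le_div_iff₀ hn]
  have hz : ∑ s, D s * (if f (s 0) = true ∧ f (s 1) = false then (1 : ℝ) else 0) =
      ∑ s, D s * F s 0 := by
    simp only [hF, zero_add]
  rw [hz, mul_comm, hsum]
  exact hle

/-- The main upper bound: in a spreadable law the pattern `10` on a shift pair has probability
at most `⌊(k + 1) / 2⌋ / (k + 1)`. -/
theorem law_upper (P : Law) (k : ℕ) :
    P.E (fun x : Cfg (k + 1) =>
      if x (Finset.univ.image (Fin.castSucc : Fin k → Fin (k + 1))) = true ∧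
        x (Finset.univ.image (Fin.succ : Fin k → Fin (k + 1))) = false then 1 else 0) ≤
      (((k + 1) / 2 : ℕ) : ℝ) / ((k + 1 : ℕ) : ℝ) := by
  classical
  have hr : 0 + k + 0 ≤ 0 + (k + 1) + 0 := by omega
  set φ : Fin (k + 1) → Fin (0 + (k + 1) + 0) := Fin.cast (by omega) with hφ
  have hφm : StrictMono φ := fun i j hij => hij
  rw [← P.E_pull φ hφm]
  have hlab : ∀ a : ℕ, a ≤ 1 → ∀ j : Fin (0 + k + 0), (lab hr a j).val = j.val + a := by
    intro a ha j
    unfold lab
    rw [emb_val]
    have := j.isLt
    have e : min (0 + a - 0) (0 + (k + 1) + 0 - (0 + k + 0)) = a := by omega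
    rw [e]
    split_ifs <;> omega
  have e0 : (Finset.univ.image (Fin.castSucc : Fin k → Fin (k + 1))).image φ =
      Finset.univ.image (lab hr 0) := by
    rw [Finset.image_image]
    ext x
    simp only [Finset.mem_image, Finset.mem_univ, true_and]
    constructor
    · rintro ⟨j, rfl⟩
      refine ⟨⟨j.val, by omega⟩, ?_⟩
      apply Fin.ext
      rw [hlab 0 (by omega)]
      rfl
    · rintro ⟨j, rfl⟩
      refine ⟨⟨j.val, by omega⟩, ?_⟩
      apply Fin.ext
      rw [hlab 0 (by omega)]
      rfl
  have e1 : (Finset.univ.image (Fin.succ : Fin k → Fin (k + 1))).image φ =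
      Finset.univ.image (lab hr 1) := by
    rw [Finset.image_image]
    ext x
    simp only [Finset.mem_image, Finset.mem_univ, true_and]
    constructor
    · rintro ⟨j, rfl⟩
      refine ⟨⟨j.val, by omega⟩, ?_⟩
      apply Fin.ext
      rw [hlab 1 (by omega)]
      rfl
    · rintro ⟨j, rfl⟩
      refine ⟨⟨j.val, by omega⟩, ?_⟩
      apply Fin.ext
      rw [hlab 1 (by omega)]
      rfl
  have key : ∀ ε : ℝ, 0 < ε → P.E (fun x : Cfg (0 + (k + 1) + 0) =>
      if pull φ x (Finset.univ.image (Fin.castSucc : Fin k → Fin (k + 1))) = true ∧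
        pull φ x (Finset.univ.image (Fin.succ : Fin k → Fin (k + 1))) = false
        then (1 : ℝ) else 0) ≤
      (((k + 1) / 2 : ℕ) : ℝ) / ((k + 1 : ℕ) : ℝ) + ε := by
    intro ε hε
    obtain ⟨D, h0, h1, h2, h3⟩ := approx_all P (k + 1) k 0 2 (by omega) (by omega) hr ε hε
    let G : (Fin 2 → Cfg (0 + k + 0)) → ℝ := fun v =>
      if v 0 Finset.univ = true ∧ v 1 Finset.univ = false then 1 else 0
    have hG0 : ∀ v, 0 ≤ G v := by
      intro v
      simp only [G]
      split_ifs <;> norm_num
    have hG1 : ∀ v, G v ≤ 1 := by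
      intro v
      simp only [G]
      split_ifs <;> norm_num
    have s1 : (fun x : Cfg (0 + (k + 1) + 0) =>
        if pull φ x (Finset.univ.image (Fin.castSucc : Fin k → Fin (k + 1))) = true ∧
        pull φ x (Finset.univ.image (Fin.succ : Fin k → Fin (k + 1))) = false
        then (1 : ℝ) else 0) = fun x => G (fun a : Fin 2 => pull (lab hr (a : ℕ)) x) := by
      funext x
      have t0 : pull φ x (Finset.univ.image (Fin.castSucc : Fin k → Fin (k + 1))) =
        pull (lab hr 0) x Finset.univ := congrArg x e0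
      have t1 : pull φ x (Finset.univ.image (Fin.succ : Fin k → Fin (k + 1))) =
        pull (lab hr 1) x Finset.univ := congrArg x e1
      rw [t0, t1]
      rfl
    rw [s1, E_labels P hr (K := 2) G]
    have s2 := sum_group (n := k + 1) (K := 2) D G
    have s3 := upper_cyclic (k + 1) D h0 h1 h2 (fun c => c Finset.univ)
    have s4 : ∑ s : ZMod (k + 1) → Cfg (0 + k + 0),
        D s * G (fun a : Fin 2 => s ((a : ℕ) : ZMod (k + 1))) =
        ∑ s, D s * (if (fun c : Cfg (0 + k + 0) => c Finset.univ) (s 0) = true ∧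
          (fun c : Cfg (0 + k + 0) => c Finset.univ) (s 1) = false then 1 else 0) := by
      apply Finset.sum_congr rfl
      intro s _
      simp only [G]
      congr 2
    have s5 : ∑ v, PL P hr v * G v - ∑ u : Fin 2 → Cfg (0 + k + 0),
        (∑ s : ZMod (k + 1) → Cfg (0 + k + 0),
        if ∀ a : Fin 2, s ((a : ℕ) : ZMod (k + 1)) = u a then D s else 0) * G u ≤ ε := by
      rw [← Finset.sum_sub_distrib]
      refine le_trans (Finset.sum_le_sum (fun v _ => ?_)) h3
      rw [← sub_mul]
      refine (le_abs_self _).trans ?_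
      rw [abs_mul, abs_of_nonneg (hG0 v), abs_sub_comm]
      exact mul_le_of_le_one_right (abs_nonneg _) (hG1 v)
    rw [← s2, s4] at s5
    linarith
  exact le_of_forall_pos_le_add key

end Pool.Agent.Helper808.ShiftUpper
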