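import Mathlib
import Pool.Agent.Helper808.ShiftUpper

set_option autoImplicit false

namespace Pool.Agent.Helper808.ShiftLimit

open Finset Pool.Agent.Helper808.ShiftUpper

/-! ### Limits along a nonprincipal ultrafilter -/

/-- The limit of a sequence along a fixed nonprincipal ultrafilter. -/
noncomputable def ulim (u : ℕ → ℝ) : ℝ :=
  (Filter.hyperfilter ℕ : Filter ℕ).limUnder u

lemma ulim_spec {u : ℕ → ℝ} {C : ℝ} (hu : ∀ n, |u n| ≤ C) :
    Filter.Tendsto u (Filter.hyperfilter ℕ : Filter ℕ) (nhds (ulim u)) := by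
  have hc : IsCompact (Set.Icc (-C) C) := isCompact_Icc
  obtain ⟨x, -, hx⟩ := hc.ultrafilter_le_nhds (Ultrafilter.map u (Filter.hyperfilter ℕ)) (by
    rw [Filter.le_principal_iff]
    rw [Ultrafilter.coe_map]
    apply Filter.mem_map.2
    apply Filter.mem_of_superset Filter.univ_mem
    intro n _
    exact abs_le.1 (hu n))
  exact tendsto_nhds_limUnder ⟨x, hx⟩

lemma ulim_eq {u : ℕ → ℝ} {x : ℝ}
    (h : Filter.Tendsto u (Filter.hyperfilter ℕ : Filter ℕ) (nhds x)) : ulim u = x :=
  tendsto_nhds_unique (tendsto_nhds_limUnder ⟨x, h⟩) h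

lemma ulim_const (x : ℝ) : ulim (fun _ => x) = x := ulim_eq tendsto_const_nhds

lemma ulim_ge {u : ℕ → ℝ} {C c : ℝ} (hu : ∀ n, |u n| ≤ C) (N : ℕ) (h : ∀ n, N ≤ n → c ≤ u n) :
    c ≤ ulim u := by
  apply ge_of_tendsto (ulim_spec hu)
  apply Nat.hyperfilter_le_atTop
  exact Filter.eventually_atTop.2 ⟨N, h⟩

lemma abs_ulim_le {u : ℕ → ℝ} {C : ℝ} (hu : ∀ n, |u n| ≤ C) : |ulim u| ≤ C := by
  have := (ulim_spec hu).abs
  exact le_of_tendsto this (Filter.Eventually.of_forall hu)

lemma ulim_sum {ι : Type*} (s : Finset ι) {u : ι → ℕ → ℝ} {C : ℝ}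
    (hu : ∀ i n, |u i n| ≤ C) : ulim (fun n => ∑ i ∈ s, u i n) = ∑ i ∈ s, ulim (u i) :=
  ulim_eq (tendsto_finsetSum s fun i _ => ulim_spec (hu i))

lemma ulim_mul_const {u : ℕ → ℝ} {C : ℝ} (hu : ∀ n, |u n| ≤ C) (x : ℝ) :
    ulim (fun n => u n * x) = ulim u * x :=
  ulim_eq ((ulim_spec hu).mul_const x)

/-! ### Iterated limits -/

/-- The iterated limit of a function of `r` integers; the first variable is the outermost
one. -/
noncomputable def It : (r : ℕ) → ((Fin r → ℕ) → ℝ) → ℝ
  | 0, G => G (fun i => i.elim0)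
  | r + 1, G => ulim (fun n => It r (fun a => G (Fin.cons n a)))

lemma It_const (r : ℕ) (x : ℝ) : It r (fun _ => x) = x := by
  induction r with
  | zero => rfl
  | succ r ih =>
    unfold It
    simp_rw [ih]
    exact ulim_const x

lemma abs_It_le (r : ℕ) {G : (Fin r → ℕ) → ℝ} {C : ℝ} (hG : ∀ a, |G a| ≤ C) :
    |It r G| ≤ C := by
  induction r with
  | zero => exact hG _
  | succ r ih =>
    unfold It
    exact abs_ulim_le fun n => ih fun a => hG _

lemma It_sum {ι : Type*} (s : Finset ι) (r : ℕ) {G : ι → (Fin r → ℕ) → ℝ} {C : ℝ}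
    (hG : ∀ i a, |G i a| ≤ C) : It r (fun a => ∑ i ∈ s, G i a) = ∑ i ∈ s, It r (G i) := by
  induction r with
  | zero => rfl
  | succ r ih =>
    unfold It
    have : ∀ n : ℕ, It r (fun a => ∑ i ∈ s, G i (Fin.cons n a)) =
        ∑ i ∈ s, It r (fun a => G i (Fin.cons n a)) := by
      intro n
      exact ih fun i a => hG _ _
    simp_rw [this]
    exact ulim_sum s fun i n => abs_It_le r fun a => hG _ _

lemma It_mul_const (r : ℕ) {G : (Fin r → ℕ) → ℝ} {C : ℝ} (hG : ∀ a, |G a| ≤ C) (x : ℝ) :
    It r (fun a => G a * x) = It r G * x := by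
  induction r with
  | zero => rfl
  | succ r ih =>
    unfold It
    have : ∀ n : ℕ, It r (fun a => G (Fin.cons n a) * x) =
        It r (fun a => G (Fin.cons n a)) * x := by
      intro n
      exact ih fun a => hG _
    simp_rw [this]
    exact ulim_mul_const (fun n => abs_It_le r fun a => hG _) x

lemma It_ge_aux (r : ℕ) {G : (Fin r → ℕ) → ℝ} {C c : ℝ} (hG : ∀ a, |G a| ≤ C) (N : ℕ)
    (h : ∀ a : Fin r → ℕ, StrictMono a → (∀ i, N ≤ a i) → c ≤ G a) : c ≤ It r G := by
  induction r generalizing N with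
  | zero => exact h _ (fun i => i.elim0) (fun i => i.elim0)
  | succ r ih =>
    unfold It
    apply ulim_ge (C := C) (fun n => abs_It_le r fun a => hG _) N
    intro n hn
    apply ih (fun a => hG _) (n + 1)
    intro a ha hna
    apply h
    · intro i j hij
      refine Fin.cases ?_ (fun i => ?_) i hij
      · intro hij
        refine Fin.cases ?_ (fun j => ?_) j hij
        · intro h0
          exact absurd h0 (lt_irrefl _)
        · intro _
          simp only [Fin.cons_zero, Fin.cons_succ]
          have := hna j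
          omega
      · intro hij
        refine Fin.cases ?_ (fun j => ?_) j hij
        · intro h0
          exact absurd h0 (Fin.not_lt_zero _)
        · intro h0
          simp only [Fin.cons_succ]
          exact ha (Fin.succ_lt_succ_iff.1 h0)
    · intro i
      refine Fin.cases ?_ (fun i => ?_) i
      · simpa using hn
      · simp only [Fin.cons_succ]
        have := hna i
        omega

lemma It_ge (r : ℕ) {G : (Fin r → ℕ) → ℝ} {C c : ℝ} (hG : ∀ a, |G a| ≤ C)
    (h : ∀ a : Fin r → ℕ, StrictMono a → c ≤ G a) : c ≤ It r G :=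
  It_ge_aux r hG 0 fun a ha _ => h a ha

lemma It_comp : ∀ (s r : ℕ) (φ : Fin r → Fin s), StrictMono φ → ∀ G : (Fin r → ℕ) → ℝ,
    It s (fun a => G (a ∘ φ)) = It r G := by
  intro s
  induction s with
  | zero =>
    intro r φ hφ G
    cases r with
    | zero =>
      unfold It
      congr 1
    | succ r => exact (φ 0).elim0
  | succ s ih =>
    intro r φ hφ G
    cases r with
    | zero =>
      have : (fun a : Fin (s + 1) → ℕ => G (a ∘ φ)) = fun _ => G (fun i => i.elim0) := by
        funext a
        congr 1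
        funext i
        exact i.elim0
      rw [this, It_const]
      rfl
    | succ r =>
      by_cases h0 : φ 0 = 0
      · have hne : ∀ j : Fin r, φ j.succ ≠ 0 := by
          intro j hj
          have := hφ (Fin.succ_pos j)
          rw [hj] at this
          exact Fin.not_lt_zero _ this
        let φ' : Fin r → Fin s := fun j => (φ j.succ).pred (hne j)
        have hφ' : StrictMono φ' := by
          intro i j hij
          exact Fin.pred_lt_pred_iff.2 (hφ (Fin.succ_lt_succ_iff.2 hij))
        have e : ∀ (n : ℕ) (a : Fin s → ℕ),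
            (Fin.cons n a : Fin (s + 1) → ℕ) ∘ φ = Fin.cons n (a ∘ φ') := by
          intro n a
          funext j
          refine Fin.cases ?_ (fun j => ?_) j
          · simp [h0]
          · simp only [Function.comp_apply, Fin.cons_succ, φ']
            conv_lhs => rw [← Fin.succ_pred (φ j.succ) (hne j)]
            rw [Fin.cons_succ]
        show ulim (fun n => It s (fun a => G ((Fin.cons n a : Fin (s + 1) → ℕ) ∘ φ))) =
          ulim (fun n => It r (fun a => G (Fin.cons n a)))
        congr 1
        funext n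
        simp_rw [e]
        exact ih r φ' hφ' (fun a => G (Fin.cons n a))
      · have hne : ∀ j : Fin (r + 1), φ j ≠ 0 := by
          intro j hj
          apply h0
          have := hφ.monotone (Fin.zero_le j)
          rw [hj] at this
          exact nonpos_iff_eq_zero.1 this
        let φ' : Fin (r + 1) → Fin s := fun j => (φ j).pred (hne j)
        have hφ' : StrictMono φ' := by
          intro i j hij
          exact Fin.pred_lt_pred_iff.2 (hφ hij)
        have e : ∀ (n : ℕ) (a : Fin s → ℕ),
            (Fin.cons n a : Fin (s + 1) → ℕ) ∘ φ = a ∘ φ' := by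
          intro n a
          funext j
          simp only [Function.comp_apply, φ']
          conv_lhs => rw [← Fin.succ_pred (φ j) (hne j)]
          rw [Fin.cons_succ]
        show ulim (fun n => It s (fun a => G ((Fin.cons n a : Fin (s + 1) → ℕ) ∘ φ))) = _
        simp_rw [e]
        rw [ulim_const]
        exact ih (r + 1) φ' hφ' G

/-! ### The spreadable law of a sequence of systems -/

section Build

variable (v : ∀ n : ℕ, Cfg (n + 1) → ℝ)

/-- Clamp a sequence of integers to `{0, ..., n}`. -/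
def clamp {r : ℕ} (n : ℕ) (a : Fin r → ℕ) : Fin r → Fin (n + 1) :=
  fun j => ⟨min (a j) n, by omega⟩

lemma clamp_comp {r s : ℕ} (n : ℕ) (a : Fin s → ℕ) (φ : Fin r → Fin s) :
    clamp n a ∘ φ = clamp n (a ∘ φ) := rfl

/-- The weight of the configuration `y` at the positions `a` in the `n`-th system. -/
def wt {r : ℕ} (n : ℕ) (a : Fin r → ℕ) (y : Cfg r) : ℝ :=
  ∑ x, if pull (clamp n a) x = y then v n x else 0

variable (h0 : ∀ n x, 0 ≤ v n x) (h1 : ∀ n, ∑ x, v n x = 1)

include h0 in
lemma wt_nonneg {r : ℕ} (n : ℕ) (a : Fin r → ℕ) (y : Cfg r) : 0 ≤ wt v n a y := by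
  apply Finset.sum_nonneg
  intro x _
  split_ifs
  · exact h0 n x
  · exact le_refl _

include h0 h1 in
lemma abs_wt_le {r : ℕ} (n : ℕ) (a : Fin r → ℕ) (y : Cfg r) : |wt v n a y| ≤ 1 := by
  rw [abs_of_nonneg (wt_nonneg v h0 n a y), ← h1 n]
  apply Finset.sum_le_sum
  intro x _
  split_ifs
  · exact le_refl _
  · exact h0 n x

lemma sum_wt_mul {r : ℕ} (n : ℕ) (a : Fin r → ℕ) (F : Cfg r → ℝ) :
    ∑ y, wt v n a y * F y = ∑ x, v n x * F (pull (clamp n a) x) := by
  unfold wt
  simp_rw [Finset.sum_mul]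
  rw [Finset.sum_comm]
  apply Finset.sum_congr rfl
  intro x _
  rw [Finset.sum_eq_single (pull (clamp n a) x)]
  · simp
  · intro b _ hb
    rw [if_neg (Ne.symm hb), zero_mul]
  · intro h
    exact absurd (Finset.mem_univ _) h

include h1 in
lemma sum_wt {r : ℕ} (n : ℕ) (a : Fin r → ℕ) : ∑ y, wt v n a y = 1 := by
  have := sum_wt_mul v n a (fun _ => 1)
  simp only [mul_one] at this
  rw [this]
  exact h1 n

lemma wt_cons {r s : ℕ} (n : ℕ) (a : Fin s → ℕ) (φ : Fin r → Fin s) (y : Cfg r) :
    ∑ z, (if pull φ z = y then wt v n a z else 0) = wt v n (a ∘ φ) y := by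
  have := sum_wt_mul v n a (fun z => if pull φ z = y then 1 else 0)
  simp only [mul_ite, mul_one, mul_zero] at this
  rw [this]
  unfold wt
  apply Finset.sum_congr rfl
  intro x _
  rw [pull_pull, clamp_comp]

/-- The limit weight. -/
noncomputable def lwt {r : ℕ} (y : Cfg r) (a : Fin r → ℕ) : ℝ := ulim (fun n => wt v n a y)

include h0 h1 in
lemma abs_lwt_le {r : ℕ} (y : Cfg r) (a : Fin r → ℕ) : |lwt v y a| ≤ 1 :=
  abs_ulim_le fun n => abs_wt_le v h0 h1 n a y

include h0 h1 in
lemma lwt_nonneg {r : ℕ} (y : Cfg r) (a : Fin r → ℕ) : 0 ≤ lwt v y a :=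
  ulim_ge (fun n => abs_wt_le v h0 h1 n a y) 0 fun n _ => wt_nonneg v h0 n a y

include h0 h1 in
lemma sum_lwt {r : ℕ} (a : Fin r → ℕ) : ∑ y, lwt v y a = 1 := by
  unfold lwt
  rw [← ulim_sum Finset.univ (fun y n => abs_wt_le v h0 h1 n a y)]
  simp_rw [sum_wt v h1]
  exact ulim_const 1

include h0 h1 in
lemma lwt_cons {r s : ℕ} (a : Fin s → ℕ) (φ : Fin r → Fin s) (y : Cfg r) :
    ∑ z, (if pull φ z = y then lwt v z a else 0) = lwt v y (a ∘ φ) := by
  have e : ∀ z : Cfg s, (if pull φ z = y then lwt v z a else 0) =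
      ulim (fun n => if pull φ z = y then wt v n a z else 0) := by
    intro z
    split_ifs
    · rfl
    · exact (ulim_const 0).symm
  simp_rw [e]
  rw [← ulim_sum (C := 1) Finset.univ (fun z n => by
    split_ifs
    · exact abs_wt_le v h0 h1 n a z
    · simp)]
  simp_rw [wt_cons]
  rfl

/-- The spreadable law. -/
noncomputable def mkLaw : Law where
  w r y := It r (lwt v y)
  nonneg r y := It_ge r (abs_lwt_le v h0 h1 y) fun a _ => lwt_nonneg v h0 h1 y a
  total r := by
    rw [← It_sum Finset.univ r (fun y a => abs_lwt_le v h0 h1 y a)]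
    simp_rw [sum_lwt v h0 h1]
    exact It_const r 1
  cons {r s} φ hφ y := by
    have e : ∀ z : Cfg s, (if pull φ z = y then It s (lwt v z) else 0) =
        It s (fun a => if pull φ z = y then lwt v z a else 0) := by
      intro z
      split_ifs
      · rfl
      · exact (It_const s 0).symm
    simp_rw [e]
    rw [← It_sum (C := 1) Finset.univ s (fun z a => by
      split_ifs
      · exact abs_lwt_le v h0 h1 z a
      · simp)]
    simp_rw [lwt_cons v h0 h1]
    exact It_comp s r φ hφ (lwt v y)

lemma E_mkLaw {r : ℕ} (F : Cfg r → ℝ) (hF : ∀ x, |F x| ≤ 1) :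
    (mkLaw v h0 h1).E F = It r (fun a => ∑ y, lwt v y a * F y) := by
  have hb : ∀ (y : Cfg r) (a : Fin r → ℕ), |lwt v y a * F y| ≤ 1 := by
    intro y a
    rw [abs_mul]
    exact mul_le_one₀ (abs_lwt_le v h0 h1 y a) (abs_nonneg _) (hF y)
  rw [It_sum Finset.univ r hb]
  apply Finset.sum_congr rfl
  intro y _
  exact (It_mul_const r (abs_lwt_le v h0 h1 y) (F y)).symm

include h0 h1 in
/-- The upper bound for sequences of systems. -/
theorem weights_upper (k : ℕ) (c : ℝ)
    (hc : ∀ (n : ℕ) (i : Fin (k + 1) → Fin (n + 1)), StrictMono i →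
      c ≤ ∑ x, v n x * (if x (Finset.univ.image fun j : Fin k => i j.castSucc) = true ∧
        x (Finset.univ.image fun j : Fin k => i j.succ) = false then 1 else 0)) :
    c ≤ (((k + 1) / 2 : ℕ) : ℝ) / ((k + 1 : ℕ) : ℝ) := by
  refine le_trans ?_ (law_upper (mkLaw v h0 h1) k)
  set F : Cfg (k + 1) → ℝ := fun x =>
      if x (Finset.univ.image (Fin.castSucc : Fin k → Fin (k + 1))) = true ∧
        x (Finset.univ.image (Fin.succ : Fin k → Fin (k + 1))) = false then 1 else 0 with hF
  have hFb : ∀ x, |F x| ≤ 1 := by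
    intro x
    simp only [hF]
    split_ifs <;> simp
  rw [E_mkLaw v h0 h1 F hFb]
  have hb : ∀ a : Fin (k + 1) → ℕ, |∑ y, lwt v y a * F y| ≤ 1 := by
    intro a
    refine (Finset.abs_sum_le_sum_abs _ _).trans ?_
    rw [← sum_lwt v h0 h1 a]
    apply Finset.sum_le_sum
    intro y _
    rw [abs_mul, abs_of_nonneg (lwt_nonneg v h0 h1 y a)]
    exact mul_le_of_le_one_right (lwt_nonneg v h0 h1 y a) (hFb y)
  apply It_ge (k + 1) hb
  intro a ha
  have e1 : ∑ y, lwt v y a * F y = ulim (fun n => ∑ y, wt v n a y * F y) := by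
    rw [ulim_sum (C := 1) Finset.univ (fun y n => by
      rw [abs_mul]
      exact mul_le_one₀ (abs_wt_le v h0 h1 n a y) (abs_nonneg _) (hFb y))]
    apply Finset.sum_congr rfl
    intro y _
    exact (ulim_mul_const (fun n => abs_wt_le v h0 h1 n a y) (F y)).symm
  rw [e1]
  apply ulim_ge (C := 1) (N := a (Fin.last k))
  · intro n
    rw [sum_wt_mul, ← h1 n]
    refine (Finset.abs_sum_le_sum_abs _ _).trans ?_
    apply Finset.sum_le_sum
    intro y _
    rw [abs_mul, abs_of_nonneg (h0 n y)]
    exact mul_le_of_le_one_right (h0 n y) (hFb _)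
  · intro n hn
    rw [sum_wt_mul]
    have hm : StrictMono (clamp n a) := by
      intro i j hij
      rw [Fin.lt_def]
      simp only [clamp]
      have q1 := ha hij
      have q2 : a j ≤ a (Fin.last k) := ha.monotone (Fin.le_last j)
      omega
    refine (hc n (clamp n a) hm).trans (le_of_eq ?_)
    apply Finset.sum_congr rfl
    intro x _
    simp only [hF]
    have t0 : pull (clamp n a) x (Finset.univ.image (Fin.castSucc : Fin k → Fin (k + 1))) =
        x (Finset.univ.image fun j : Fin k => clamp n a j.castSucc) := by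
      unfold pull
      rw [Finset.image_image]
      rfl
    have t1 : pull (clamp n a) x (Finset.univ.image (Fin.succ : Fin k → Fin (k + 1))) =
        x (Finset.univ.image fun j : Fin k => clamp n a j.succ) := by
      unfold pull
      rw [Finset.image_image]
      rfl
    rw [t0, t1]

end Build

end Pool.Agent.Helper808.ShiftLimit
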